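import Pool.Agent.U529.FD.Main

/-! Primes and almost primes `m ^ 2 + l ^ 2`, `m ≤ n`, for all but few `l ≤ n`: conclusion. -/

set_option autoImplicit false

namespace Pool.Agent.U529.FD

open Finset Polynomial Filter Topology
open Pool.Agent.W23.DC
open Pool.Agent.Y882.PX
open Pool.Agent.Y882.SI
open Pool.Agent.Y882.JR
open Pool.Agent.Y882
open Pool.Agent.Y781.JR

theorem card_nat_le (n : ℕ) (P : ℤ → Prop) (Q : ℕ → Prop) [DecidablePred P] [DecidablePred Q] (h : ∀ l : ℕ, 1 ≤ l → l ≤ n → Q l → P l) :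
    ((Icc 1 n).filter Q).card ≤ ((Icc (1 : ℤ) n).filter P).card := by
  apply card_le_card_of_injOn (fun l : ℕ => (l : ℤ))
  · intro l hl
    have hl' : l ∈ (Icc 1 n).filter Q := hl
    rw [mem_filter, mem_Icc] at hl'
    show (l : ℤ) ∈ ((Icc (1 : ℤ) n).filter P : Set ℤ)
    rw [mem_coe, mem_filter, mem_Icc]
    exact ⟨⟨by exact_mod_cast hl'.1.1, by exact_mod_cast hl'.1.2⟩, h l hl'.1.1 hl'.1.2 hl'.2⟩
  · intro a _ b _ hab
    simp only at hab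
    exact_mod_cast hab

/-- the constants -/
theorem const_ex : ∃ C : ℕ → ℝ, ∀ l : ℕ, 1 ≤ l → 0 < C l ∧ Tendsto (RR ((l : ℤ) ^ 2)) atTop (𝓝 (C l)) := by
  have h : ∀ l : ℕ, ∃ c : ℝ, 1 ≤ l → 0 < c ∧ Tendsto (RR ((l : ℤ) ^ 2)) atTop (𝓝 c) := by
    intro l
    by_cases hl : 1 ≤ l
    · obtain ⟨c, hc⟩ := RR_conv ((l : ℤ) ^ 2) (not_sq l (by exact_mod_cast (by omega : l ≠ 0)))
      exact ⟨c, fun _ => hc⟩
    · exact ⟨0, fun h => absurd h hl⟩
  choose C hC using h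
  exact ⟨C, hC⟩

open Classical in
/-- **The upper bound.** -/
theorem upper (C : ℕ → ℝ) (hC : ∀ l : ℕ, 1 ≤ l → 0 < C l ∧ Tendsto (RR ((l : ℤ) ^ 2)) atTop (𝓝 (C l)))
    (μ ε : ℝ) (hμ0 : 0 < μ) (hμ1 : μ < 1) (hε : 0 < ε) :
    ∀ᶠ n : ℕ in atTop, (((Icc 1 n).filter (fun l : ℕ =>
      (2 / (1 + μ) + ε) * (C l * n / Real.log n) < (pv l n : ℝ))).card : ℝ) ≤ (n : ℝ) ^ μ := by
  obtain ⟨A0, F, f, hSF⟩ := Pool.Agent.W366.DC.SFX
  have hA : A0 = 2 * Real.exp Real.eulerMascheroniConstant := A0_eq Pool.Agent.Y445.JRB.t hSF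
  set γ := Real.eulerMascheroniConstant with hγ
  have hE : 0 < Real.exp γ := Real.exp_pos _
  -- choice of τ
  obtain ⟨τ, hτ1, hτ2, hτ3⟩ : ∃ τ : ℝ, 1 / 2 ≤ τ ∧ τ < (1 + μ) / 2 ∧ 1 / τ < 2 / (1 + μ) + ε := by
    have hcont : ContinuousAt (fun t : ℝ => 1 / t) ((1 + μ) / 2) := by
      apply ContinuousAt.div continuousAt_const continuousAt_id
      have : (0 : ℝ) < (1 + μ) / 2 := by linarith
      exact this.ne'
    have hlt : (1 : ℝ) / ((1 + μ) / 2) < 2 / (1 + μ) + ε := by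
      rw [one_div_div]
      linarith
    have h1 : ∀ᶠ t in 𝓝[<] ((1 + μ) / 2), 1 / t < 2 / (1 + μ) + ε :=
      (hcont.eventually (gt_mem_nhds hlt)).filter_mono nhdsWithin_le_nhds
    have h2 : ∀ᶠ t in 𝓝[<] ((1 + μ) / 2), t ∈ Set.Ioo (1 / 2 : ℝ) ((1 + μ) / 2) :=
      Ioo_mem_nhdsLT (by linarith)
    obtain ⟨t, ht1, ht2⟩ := (h1.and h2).exists
    exact ⟨t, ht2.1.le, ht2.2, ht1⟩
  have hτ0 : 0 < τ := by linarith
  have hτ : τ < 1 := by linarith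
  -- choice of θ
  obtain ⟨θ, hθ0, hθ⟩ : ∃ θ : ℝ, 0 < θ ∧
      (A0 + 2 * θ) * (1 + θ) * (Real.exp (-γ) / (2 * τ)) < 2 / (1 + μ) + ε := by
    have hcont : ContinuousAt (fun t : ℝ => (A0 + 2 * t) * (1 + t) * (Real.exp (-γ) / (2 * τ))) 0 := by
      fun_prop
    have hval : (A0 + 2 * (0 : ℝ)) * (1 + 0) * (Real.exp (-γ) / (2 * τ)) = 1 / τ := by
      rw [hA, Real.exp_neg]
      field_simp
      ring
    have h1 : ∀ᶠ t in 𝓝[>] (0 : ℝ), (A0 + 2 * t) * (1 + t) * (Real.exp (-γ) / (2 * τ)) < 2 / (1 + μ) + ε :=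
      (hcont.eventually (gt_mem_nhds (by
        show (A0 + 2 * (0 : ℝ)) * (1 + 0) * (Real.exp (-γ) / (2 * τ)) < _
        rw [hval]; exact hτ3))).filter_mono nhdsWithin_le_nhds
    have h2 : ∀ᶠ t in 𝓝[>] (0 : ℝ), t ∈ Set.Ioi (0 : ℝ) := self_mem_nhdsWithin
    obtain ⟨t, ht1, ht2⟩ := (h1.and h2).exists
    exact ⟨t, ht2, ht1⟩
  obtain ⟨N1, H1⟩ := eng Pool.Agent.N407.GN.dvb Pool.Agent.N7.GN.Rls.rls A0 F f hSF τ τ μ θ hτ0 le_rfl hτ1 hτ
    (by linarith) hθ0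
  have hF1 : F (τ / τ) = A0 := by
    rw [div_self hτ0.ne', hSF.F3 1 le_rfl (by norm_num), div_one]
  rw [hF1] at H1
  obtain ⟨N2, H2⟩ := vv_bd (2 * τ) θ (by linarith) (by linarith) hθ0
  have h2τ : 2 * τ / 2 = τ := by ring
  rw [h2τ] at H2
  obtain ⟨κ, hκ0, hκ1⟩ : ∃ κ : ℝ, 0 < κ ∧ 2 * κ < 1 - τ := ⟨(1 - τ) / 4, by linarith, by linarith⟩
  obtain ⟨N3, H3⟩ := vv_lower κ hκ0
  have ev1 : ∀ᶠ n : ℕ in atTop, (A0 + 2 * θ) * (1 + θ) * (GG ⌈(n : ℝ) ^ (2 * τ)⌉₊ * Real.log n) <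
      2 / (1 + μ) + ε :=
    ((GG_lim (2 * τ) (by linarith)).const_mul _).eventually (gt_mem_nhds hθ)
  have ev2 : ∀ᶠ n : ℕ in atTop, 1 / θ ≤ (n : ℝ) ^ (1 - τ - 2 * κ) :=
    ((tendsto_rpow_atTop (by linarith)).comp tendsto_natCast_atTop_atTop).eventually_ge_atTop _
  filter_upwards [ev1, ev2, eventually_ge_atTop 3, eventually_ge_atTop N1, eventually_ge_atTop N2,
    eventually_ge_atTop N3] with n e1 e2 e3 e4 e5 e6
  have hnr : (3 : ℝ) ≤ n := by exact_mod_cast e3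
  have hn0 : (0 : ℝ) < n := by linarith
  have hlog : 0 < Real.log n := Real.log_pos (by linarith)
  obtain ⟨Y, hY⟩ : ∃ Y : ℕ, Y = n ^ 2 := ⟨_, rfl⟩
  have hnY : n ≤ Y := by
    rw [hY]
    exact Nat.le_self_pow (by norm_num) n
  have hYr : (Y : ℝ) = (n : ℝ) ^ 2 := by
    rw [hY]
    push_cast
    ring
  refine le_trans ?_ (H1 n Y e4 hY)
  apply Nat.cast_le.2
  apply card_nat_le
  intro l hl1 hl2 hbad hgood
  obtain ⟨hC0, hCt⟩ := hC l hl1
  obtain ⟨-, hup⟩ := hgood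
  have hr := rgh_rv l n Y (2 * τ) (by linarith) (by omega) hY
  rw [h2τ] at hr
  rw [hr] at hup
  obtain ⟨-, b2⟩ := H2 n Y e5 hY (l : ℤ) (C l) (by exact_mod_cast hl1) (by exact_mod_cast hl2) hCt hC0.le
  have b3 := H3 Y (e6.trans hnY) (l : ℤ) τ hτ.le
  set V : ℝ := vv (QF ((l : ℤ) ^ 2)) Y τ with hV
  have hp := pv_le l n ((n : ℝ) ^ (2 * τ))
  have hsq : Real.sqrt ((n : ℝ) ^ (2 * τ)) ≤ θ * (n * V) := by
    have h5 : (n : ℝ) ^ (2 * τ) = ((n : ℝ) ^ τ) ^ 2 := by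
      rw [← Real.rpow_natCast, ← Real.rpow_mul hn0.le]
      congr 1
      push_cast
      ring
    rw [h5, Real.sqrt_sq (by positivity)]
    have h6 : (Y : ℝ) ^ (-κ) = (n : ℝ) ^ (-(2 * κ)) := by
      rw [hYr, ← Real.rpow_natCast, ← Real.rpow_mul hn0.le]
      congr 1
      push_cast
      ring
    rw [h6] at b3
    rw [div_le_iff₀ hθ0] at e2
    calc (n : ℝ) ^ τ = 1 * (n : ℝ) ^ τ := (one_mul _).symm
      _ ≤ ((n : ℝ) ^ (1 - τ - 2 * κ) * θ) * (n : ℝ) ^ τ := mul_le_mul_of_nonneg_right e2 (by positivity)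
      _ = θ * ((n : ℝ) ^ (1 - τ - 2 * κ) * (n : ℝ) ^ τ) := by ring
      _ = θ * (n * (n : ℝ) ^ (-(2 * κ))) := by
        congr 1
        rw [← Real.rpow_add hn0]
        nth_rewrite 2 [← Real.rpow_one (n : ℝ)]
        rw [← Real.rpow_add hn0]
        congr 1
        ring
      _ ≤ θ * (n * V) := by
        apply mul_le_mul_of_nonneg_left _ hθ0.le
        exact mul_le_mul_of_nonneg_left b3 hn0.le
  have hmain : (pv l n : ℝ) ≤ (2 / (1 + μ) + ε) * (C l * n / Real.log n) := by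
    have hA0 : 0 < A0 := hSF.pos
    calc (pv l n : ℝ) ≤ (A0 + θ) * (n * V) + θ * (n * V) := hp.trans (add_le_add hup hsq)
      _ = (A0 + 2 * θ) * n * V := by ring
      _ ≤ (A0 + 2 * θ) * n * ((1 + θ) * C l * GG ⌈(n : ℝ) ^ (2 * τ)⌉₊) :=
        mul_le_mul_of_nonneg_left b2 (by positivity)
      _ = ((A0 + 2 * θ) * (1 + θ) * (GG ⌈(n : ℝ) ^ (2 * τ)⌉₊ * Real.log n)) * (C l * n / Real.log n) := by
        field_simp
      _ ≤ _ := mul_le_mul_of_nonneg_right e1.le (by positivity)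
  linarith

open Classical in
/-- **The lower bound.** -/
theorem lower (C : ℕ → ℝ) (hC : ∀ l : ℕ, 1 ≤ l → 0 < C l ∧ Tendsto (RR ((l : ℤ) ^ 2)) atTop (𝓝 (C l)))
    (μ ε u : ℝ) (hμ0 : 0 < μ) (hμ1 : μ < 1) (hε : 0 < ε) (hu1 : (1 + μ) / 4 ≤ u) (hu2 : u < (1 + μ) / 2) :
    ∀ᶠ n : ℕ in atTop, (((Icc 1 n).filter (fun l : ℕ =>
      (rv l n ((n : ℝ) ^ u) : ℝ) < (2 / (1 + μ) * Real.log ((1 + μ) / u - 1) - ε) *
        (C l * n / Real.log n))).card : ℝ) ≤ (n : ℝ) ^ μ := by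
  have hu0 : 0 < u := by linarith
  by_cases hneg : 2 / (1 + μ) * Real.log ((1 + μ) / u - 1) - ε ≤ 0
  · filter_upwards [eventually_ge_atTop 3] with n hn
    have hnr : (3 : ℝ) ≤ n := by exact_mod_cast hn
    have hlog : 0 < Real.log n := Real.log_pos (by linarith)
    have h0 : (Icc 1 n).filter (fun l : ℕ =>
      (rv l n ((n : ℝ) ^ u) : ℝ) < (2 / (1 + μ) * Real.log ((1 + μ) / u - 1) - ε) *
        (C l * n / Real.log n)) = ∅ := by
      rw [filter_eq_empty_iff]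
      intro l hl
      rw [mem_Icc] at hl
      rw [not_lt]
      have h1 := (hC l hl.1).1
      calc (2 / (1 + μ) * Real.log ((1 + μ) / u - 1) - ε) * (C l * n / Real.log n) ≤ 0 :=
            mul_nonpos_of_nonpos_of_nonneg hneg (by positivity)
        _ ≤ _ := Nat.cast_nonneg _
    rw [h0, card_empty, Nat.cast_zero]
    positivity
  push Not at hneg
  obtain ⟨A0, F, f, hSF⟩ := Pool.Agent.W366.DC.SFX
  have hA : A0 = 2 * Real.exp Real.eulerMascheroniConstant := A0_eq Pool.Agent.Y445.JRB.t hSF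
  set γ := Real.eulerMascheroniConstant with hγ
  have hE : 0 < Real.exp γ := Real.exp_pos _
  set κ : ℝ := 2 / (1 + μ) * Real.log ((1 + μ) / u - 1) - ε with hκ
  -- choice of τ
  obtain ⟨τ, hτ1, hτ2, hτ4, hτ3⟩ : ∃ τ : ℝ, 1 / 2 ≤ τ ∧ τ < (1 + μ) / 2 ∧ u ≤ τ ∧
      κ < 1 / τ * Real.log (2 * τ / u - 1) := by
    have hpos : 0 < (1 + μ) / u - 1 := by
      rw [sub_pos, lt_div_iff₀ hu0]
      linarith
    have hcont : ContinuousAt (fun t : ℝ => 1 / t * Real.log (2 * t / u - 1)) ((1 + μ) / 2) := by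
      apply ContinuousAt.mul
      · apply ContinuousAt.div continuousAt_const continuousAt_id
        have : (0 : ℝ) < (1 + μ) / 2 := by linarith
        exact this.ne'
      · apply ContinuousAt.log
        · fun_prop
        · have h : 2 * ((1 + μ) / 2) / u - 1 = (1 + μ) / u - 1 := by ring
          rw [h]
          exact hpos.ne'
    have hlt : κ < 1 / ((1 + μ) / 2) * Real.log (2 * ((1 + μ) / 2) / u - 1) := by
      have h : 2 * ((1 + μ) / 2) / u - 1 = (1 + μ) / u - 1 := by ring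
      rw [h, one_div_div, hκ]
      linarith
    have h1 : ∀ᶠ t in 𝓝[<] ((1 + μ) / 2), κ < 1 / t * Real.log (2 * t / u - 1) :=
      (hcont.eventually (lt_mem_nhds hlt)).filter_mono nhdsWithin_le_nhds
    have h2 : ∀ᶠ t in 𝓝[<] ((1 + μ) / 2), t ∈ Set.Ioo (max (1 / 2 : ℝ) u) ((1 + μ) / 2) :=
      Ioo_mem_nhdsLT (max_lt (by linarith) hu2)
    obtain ⟨t, ht1, ht2⟩ := (h1.and h2).exists
    exact ⟨t, (le_max_left _ _).trans ht2.1.le, ht2.2, (le_max_right _ _).trans ht2.1.le, ht1⟩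
  have hτ0 : 0 < τ := by linarith
  have hτ : τ < 1 := by linarith
  set s : ℝ := τ / (u / 2) with hs
  have hs' : s = 2 * τ / u := by
    rw [hs]
    field_simp
  have hs2 : 2 ≤ s := by
    rw [hs', le_div_iff₀ hu0]
    linarith
  have hs4 : s ≤ 4 := by
    rw [hs', div_le_iff₀ hu0]
    linarith
  have hf : f s = A0 * Real.log (s - 1) / s := hSF.f4 s hs2 hs4
  -- choice of θ
  obtain ⟨θ, hθ0, hθ1, hθ⟩ : ∃ θ : ℝ, 0 < θ ∧ θ < 1 ∧
      κ < (f s - θ) * (1 - θ) * (Real.exp (-γ) / u) := by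
    have hcont : ContinuousAt (fun t : ℝ => (f s - t) * (1 - t) * (Real.exp (-γ) / u)) 0 := by
      fun_prop
    have hval : (f s - (0 : ℝ)) * (1 - 0) * (Real.exp (-γ) / u) = 1 / τ * Real.log (2 * τ / u - 1) := by
      rw [hf, hA, Real.exp_neg, sub_zero, sub_zero, mul_one]
      have hs0 : s * u = 2 * τ := by
        rw [hs']
        field_simp
      have hsne : s ≠ 0 := by linarith
      rw [← hs']
      calc 2 * Real.exp γ * Real.log (s - 1) / s * ((Real.exp γ)⁻¹ / u) =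
          (Real.exp γ * (Real.exp γ)⁻¹) * (2 * Real.log (s - 1) / (s * u)) := by
            field_simp
        _ = 1 / τ * Real.log (s - 1) := by
            rw [mul_inv_cancel₀ hE.ne', one_mul, hs0]
            field_simp
    have h1 : ∀ᶠ t in 𝓝[>] (0 : ℝ), κ < (f s - t) * (1 - t) * (Real.exp (-γ) / u) :=
      (hcont.eventually (lt_mem_nhds (by
        show _ < (f s - (0 : ℝ)) * (1 - 0) * (Real.exp (-γ) / u)
        rw [hval]; exact hτ3))).filter_mono nhdsWithin_le_nhds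
    have h2 : ∀ᶠ t in 𝓝[>] (0 : ℝ), t ∈ Set.Ioo (0 : ℝ) 1 := Ioo_mem_nhdsGT one_pos
    obtain ⟨t, ht1, ht2⟩ := (h1.and h2).exists
    exact ⟨t, ht2.1, ht2.2, ht1⟩
  have hfθ : 0 < f s - θ := by
    by_contra hcon
    push Not at hcon
    have h1 : (f s - θ) * (1 - θ) * (Real.exp (-γ) / u) ≤ 0 :=
      mul_nonpos_of_nonpos_of_nonneg (mul_nonpos_of_nonpos_of_nonneg hcon (by linarith)) (by positivity)
    linarith
  obtain ⟨N1, H1⟩ := eng Pool.Agent.N407.GN.dvb Pool.Agent.N7.GN.Rls.rls A0 F f hSF τ (u / 2) μ θ (by linarith)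
    (by linarith) hτ1 hτ (by linarith) hθ0
  rw [← hs] at H1
  obtain ⟨N2, H2⟩ := vv_bd u θ hu0 (by linarith) hθ0
  have ev1 : ∀ᶠ n : ℕ in atTop, κ < (f s - θ) * (1 - θ) * (GG ⌈(n : ℝ) ^ u⌉₊ * Real.log n) :=
    ((GG_lim u hu0).const_mul _).eventually (lt_mem_nhds hθ)
  filter_upwards [ev1, eventually_ge_atTop 3, eventually_ge_atTop N1, eventually_ge_atTop N2] with n e1 e3 e4 e5
  have hnr : (3 : ℝ) ≤ n := by exact_mod_cast e3
  have hn0 : (0 : ℝ) < n := by linarith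
  have hlog : 0 < Real.log n := Real.log_pos (by linarith)
  obtain ⟨Y, hY⟩ : ∃ Y : ℕ, Y = n ^ 2 := ⟨_, rfl⟩
  refine le_trans ?_ (H1 n Y e4 hY)
  apply Nat.cast_le.2
  apply card_nat_le
  intro l hl1 hl2 hbad hgood
  obtain ⟨hC0, hCt⟩ := hC l hl1
  obtain ⟨hlo, -⟩ := hgood
  rw [rgh_rv l n Y u (by linarith) (by omega) hY] at hlo
  obtain ⟨b1, -⟩ := H2 n Y e5 hY (l : ℤ) (C l) (by exact_mod_cast hl1) (by exact_mod_cast hl2) hCt hC0.le
  have hmain : κ * (C l * n / Real.log n) ≤ (rv l n ((n : ℝ) ^ u) : ℝ) := by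
    calc κ * (C l * n / Real.log n) ≤
        ((f s - θ) * (1 - θ) * (GG ⌈(n : ℝ) ^ u⌉₊ * Real.log n)) * (C l * n / Real.log n) :=
          mul_le_mul_of_nonneg_right e1.le (by positivity)
      _ = (f s - θ) * (n * ((1 - θ) * C l * GG ⌈(n : ℝ) ^ u⌉₊)) := by
        field_simp
      _ ≤ (f s - θ) * (n * vv (QF ((l : ℤ) ^ 2)) Y (u / 2)) := by
        apply mul_le_mul_of_nonneg_left _ hfθ.le
        exact mul_le_mul_of_nonneg_left b1 hn0.le
      _ ≤ _ := hlo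
  linarith

end Pool.Agent.U529.FD
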