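import Pool.Agent.N458.GN.TIE

/-! The linear sums over the roots of `ν ^ 2 = -1` for the indicator function of a sparse set: one block. -/

set_option autoImplicit false

namespace Pool.Agent.U529.FD

open Finset
open Pool.Agent.N782.GN
open Pool.Agent.N458.GN

/-- the indicator function -/
noncomputable def ind (S : Finset ℤ) (l : ℤ) : ℝ := if l ∈ S then 1 else 0

theorem ind_abs (S : Finset ℤ) (l : ℤ) : |ind S l| ≤ 1 := by
  unfold ind
  split_ifs <;> simp

theorem ind_sum {S T : Finset ℤ} (h : S ⊆ T) (F : ℤ → ℝ) : ∑ l ∈ T, ind S l * F l = ∑ l ∈ S, F l := by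
  unfold ind
  simp only [ite_mul, one_mul, zero_mul]
  rw [sum_ite_mem, inter_eq_right.2 h]

section Block

variable (H L0 : ℕ) (c : ℤ → ℝ) (P : ℝ → ℝ) (S : Finset ℤ)

open Classical in
theorem al_sq (hSL : S ⊆ Icc (1 : ℤ) (L0 : ℤ)) (hc : ∀ h, |c h| ≤ 1) (B : ℝ) (hB0 : 0 ≤ B)
    (hB : ∀ n : ℤ, n ≠ 0 → |n| ≤ ((H * L0 : ℕ) : ℤ) →
      (((Icc (1 : ℤ) (L0 : ℤ)).filter (fun l => l ∣ n)).card : ℝ) ≤ B) (s : ℝ) :
    ∑ n ∈ Icc (-((H * L0 : ℕ) : ℤ)) ((H * L0 : ℕ) : ℤ), ‖al H L0 c (ind S) s n‖ ^ 2 ≤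
      B * (2 * H * S.card) := by
  set PR := (Icc (1 : ℤ) (L0 : ℤ)) ×ˢ ((Icc (-(H : ℤ)) (H : ℤ)).filter (fun h => h ≠ 0)) with hPR
  have hmaps : ∀ p ∈ PR, -(p.2 * p.1) ∈ Icc (-((H * L0 : ℕ) : ℤ)) ((H * L0 : ℕ) : ℤ) := by
    intro p hp
    rw [hPR, mem_product, mem_filter, mem_Icc, mem_Icc] at hp
    rw [mem_Icc]
    obtain ⟨⟨h2, h3⟩, ⟨h4, h5⟩, -⟩ := hp
    push_cast
    constructor <;> nlinarith
  have hone : ∀ n ∈ Icc (-((H * L0 : ℕ) : ℤ)) ((H * L0 : ℕ) : ℤ),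
      ‖al H L0 c (ind S) s n‖ ^ 2 ≤ B * ∑ p ∈ PR.filter (fun p => -(p.2 * p.1) = n), ind S p.1 := by
    intro n hn
    have hcard : ((PR.filter (fun p => -(p.2 * p.1) = n)).card : ℝ) ≤ B := by
      by_cases hn0 : n = 0
      · subst hn0
        have : PR.filter (fun p => -(p.2 * p.1) = 0) = ∅ := by
          rw [filter_eq_empty_iff]
          intro p hp
          rw [hPR, mem_product, mem_filter, mem_Icc] at hp
          intro h
          have h2 : p.2 * p.1 = 0 := by linarith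
          rcases mul_eq_zero.mp h2 with h3 | h3
          · exact hp.2.2 h3
          · omega
        rw [this]
        simpa using hB0
      · refine le_trans ?_ (hB n hn0 ?_)
        · have : (PR.filter (fun p => -(p.2 * p.1) = n)).card ≤
              ((Icc (1 : ℤ) (L0 : ℤ)).filter (fun l => l ∣ n)).card := by
            apply card_le_card_of_injOn (fun p => p.1)
            · intro p hp
              simp only [coe_filter, Set.mem_ofPred_eq, hPR, mem_product] at hp ⊢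
              refine ⟨hp.1.1, ⟨-p.2, ?_⟩⟩
              rw [← hp.2]
              ring
            · intro p hp q hq hpq
              simp only [coe_filter, Set.mem_ofPred_eq, hPR, mem_product, mem_Icc] at hp hq hpq
              apply Prod.ext hpq
              have h3 : p.2 * p.1 = q.2 * p.1 := by
                have := hq.2
                rw [← hpq] at this
                linarith [hp.2]
              exact mul_right_cancel₀ (by omega : p.1 ≠ 0) h3
          exact_mod_cast this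
        · rw [mem_Icc] at hn
          exact abs_le.mpr hn
    have hnorm : ‖al H L0 c (ind S) s n‖ ≤ ∑ p ∈ PR.filter (fun p => -(p.2 * p.1) = n), ind S p.1 := by
      unfold al
      refine (norm_sum_le _ _).trans ?_
      apply sum_le_sum
      intro p _
      rw [norm_mul, norm_mul, norm_ee, mul_one, Complex.norm_real, Complex.norm_real, Real.norm_eq_abs,
        Real.norm_eq_abs]
      have h1 : |ind S p.1| = ind S p.1 := by
        unfold ind
        split_ifs <;> simp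
      have h2 : 0 ≤ ind S p.1 := by
        unfold ind
        split_ifs <;> norm_num
      rw [h1]
      calc ind S p.1 * |c p.2| ≤ ind S p.1 * 1 := mul_le_mul_of_nonneg_left (hc _) h2
        _ = _ := mul_one _
    have hsq : ∀ p : ℤ × ℤ, ind S p.1 ^ 2 = ind S p.1 := by
      intro p
      unfold ind
      split_ifs <;> norm_num
    have h0 : 0 ≤ ∑ p ∈ PR.filter (fun p => -(p.2 * p.1) = n), ind S p.1 := by
      apply sum_nonneg
      intro p _
      unfold ind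
      split_ifs <;> norm_num
    calc ‖al H L0 c (ind S) s n‖ ^ 2 ≤ (∑ p ∈ PR.filter (fun p => -(p.2 * p.1) = n), ind S p.1) ^ 2 :=
          pow_le_pow_left₀ (norm_nonneg _) hnorm 2
      _ ≤ ((PR.filter (fun p => -(p.2 * p.1) = n)).card : ℝ) *
          ∑ p ∈ PR.filter (fun p => -(p.2 * p.1) = n), ind S p.1 ^ 2 := sq_sum_le_card_mul_sum_sq
      _ = ((PR.filter (fun p => -(p.2 * p.1) = n)).card : ℝ) *
          ∑ p ∈ PR.filter (fun p => -(p.2 * p.1) = n), ind S p.1 := by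
          congr 1
          exact sum_congr rfl (fun p _ => hsq p)
      _ ≤ _ := mul_le_mul_of_nonneg_right hcard h0
  refine (sum_le_sum hone).trans ?_
  rw [← mul_sum, sum_fiberwise_of_maps_to hmaps]
  apply mul_le_mul_of_nonneg_left _ hB0
  rw [hPR, sum_product]
  have h1 : ∀ l ∈ Icc (1 : ℤ) (L0 : ℤ), ∑ _h ∈ (Icc (-(H : ℤ)) (H : ℤ)).filter (fun h => h ≠ 0), ind S l =
      ind S l * (2 * H) := by
    intro l _
    rw [sum_const, nsmul_eq_mul]
    have h2 : (Icc (-(H : ℤ)) (H : ℤ)).filter (fun h => h ≠ 0) = (Icc (-(H : ℤ)) (H : ℤ)).erase 0 := by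
      ext h
      rw [mem_filter, mem_erase]
      tauto
    have h3 : ((Icc (-(H : ℤ)) (H : ℤ)).erase 0).card = 2 * H := by
      rw [card_erase_of_mem (by rw [mem_Icc]; constructor <;> omega), Int.card_Icc]
      omega
    rw [h2, h3]
    push_cast
    ring
  rw [sum_congr rfl h1, ind_sum hSL]
  rw [sum_const, nsmul_eq_mul]
  apply le_of_eq
  ring

open Classical in
/-- the bound for the sum of the exponential sums -/
theorem Wf_sum' (hSL : S ⊆ Icc (1 : ℤ) (L0 : ℤ)) (CR : ℝ) (hCR : 0 < CR) (hR : RL CR) (hL0 : 1 ≤ L0)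
    (hH : 1 ≤ H) (h0 : c 0 = 1)
    (hP : ∀ t, (P t : ℂ) = ∑ h ∈ Icc (-(H : ℤ)) (H : ℤ), (c h : ℂ) * ee (h * t))
    (hc : ∀ h, |c h| ≤ 1) (B : ℝ) (hB0 : 0 ≤ B)
    (hB : ∀ n : ℤ, n ≠ 0 → |n| ≤ ((H * L0 : ℕ) : ℤ) →
      (((Icc (1 : ℤ) (L0 : ℤ)).filter (fun l => l ∣ n)).card : ℝ) ≤ B) (D : ℝ) (hD : 1 ≤ D) (s : ℝ) :
    ∑ a ∈ Ab D, |Wf L0 P (ind S) a s| ≤ Real.sqrt (((Ab D).card : ℝ) *
      (CR * (2 * D + (H * L0 : ℕ)) * Real.log (2 * D + 2) * (B * (2 * H * S.card)))) := by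
  apply Real.le_sqrt_of_sq_le
  have h1 := sq_sum_le_card_mul_sum_sq (s := Ab D) (f := fun a => |Wf L0 P (ind S) a s|)
  refine h1.trans ?_
  apply mul_le_mul_of_nonneg_left _ (Nat.cast_nonneg _)
  have hHL : 1 ≤ H * L0 := Nat.mul_pos hH hL0
  have h2 := hR (2 * D) (H * L0) (al H L0 c (ind S) s) (by linarith) hHL
  have h3 : ∑ a ∈ Ab D, |Wf L0 P (ind S) a s| ^ 2 ≤
      ∑ a ∈ (bl (2 * D)).filter (fun a => ct a = 1), ‖∑ n ∈ Icc (-((H * L0 : ℕ) : ℤ)) ((H * L0 : ℕ) : ℤ),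
        al H L0 c (ind S) s n * ee (n * nu a / nz a)‖ ^ 2 := by
    have h4 : ∀ a ∈ Ab D, |Wf L0 P (ind S) a s| ^ 2 = ‖∑ n ∈ Icc (-((H * L0 : ℕ) : ℤ)) ((H * L0 : ℕ) : ℤ),
        al H L0 c (ind S) s n * ee (n * nu a / nz a)‖ ^ 2 := by
      intro a _
      rw [← Wf_eq H L0 c P (ind S) h0 hP a s, Complex.norm_real, Real.norm_eq_abs]
    rw [sum_congr rfl h4]
    apply sum_le_sum_of_subset_of_nonneg
    · intro a ha
      unfold Pool.Agent.N458.GN.Ab at ha
      rw [mem_filter] at ha ⊢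
      exact ⟨ha.1, ha.2.1⟩
    · intro a _ _
      positivity
  refine h3.trans (h2.trans ?_)
  have hlog : 0 ≤ Real.log (2 * D + 2) := Real.log_nonneg (by linarith)
  apply mul_le_mul_of_nonneg_left _ (by positivity)
  exact al_sq H L0 c S hSL hc B hB0 hB s

open Classical in
/-- the points near the boundary -/
theorem near' (hS : ∀ l ∈ S, 1 ≤ l) (hroot : ∀ a : ZI, ct a = 1 → ∀ l m : ℤ, a ∣ (⟨l, m⟩ : ZI) ↔ Zsqrtd.norm a ∣ m - nu a * l)
    (hPc : Continuous P) (hP0 : ∀ t, 0 ≤ P t) (hper : Function.Periodic P 1)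
    (hint : ∫ t in (0 : ℝ)..1, P t = 1) (w τ : ℝ) (hw : 0 < w) (hτ : 0 ≤ τ)
    (hdec : ∀ t : ℝ, (∀ n : ℤ, w ≤ |t - n|) → P t ≤ τ) (D T : ℝ) (hD : 1 ≤ D) (hT : 0 ≤ T) :
    ∑ a ∈ Ab D, ∑ l ∈ S,
      |nm T a l - ∫ t in ((-T - nu a * l) / nz a)..((T - nu a * l) / nz a), P t| ≤
      ((Ab D).card : ℝ) * (S.card * τ) +
        3 * ∑ l ∈ S, ∑ m ∈ Em' T (2 * D * w), (dv (⟨l, m⟩ : ZI) : ℝ) := by
  have hA : ∀ a ∈ Ab D, a ≠ 0 ∧ ct a = 1 ∧ D ≤ nz a ∧ nz a ≤ 2 * D := by
    intro a ha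
    unfold Pool.Agent.N458.GN.Ab at ha
    rw [mem_filter, mem_bl] at ha
    exact ⟨ha.1.1, ha.2.1, ha.2.2, ha.1.2⟩
  have hpt : ∀ a ∈ Ab D, ∀ l : ℤ, |nm T a l - ∫ t in ((-T - nu a * l) / nz a)..((T - nu a * l) / nz a), P t| ≤
      τ + 3 * ∑ m ∈ Em' T (2 * D * w), (if a ∣ (⟨l, m⟩ : ZI) then (1 : ℝ) else 0) := by
    intro a ha l
    obtain ⟨ha0, ha1, ha2, ha3⟩ := hA a ha
    have hnz : 0 < nz a := by linarith
    have hE0 : 0 ≤ ∑ m ∈ Em' T (2 * D * w), (if a ∣ (⟨l, m⟩ : ZI) then (1 : ℝ) else 0) := by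
      apply sum_nonneg
      intro m _
      split_ifs <;> norm_num
    rw [nm_eq ha0 (hroot a ha1) hT l]
    obtain ⟨c1, c2⟩ := count_int P hPc hP0 hper hint w τ hw hτ hdec ((-T - nu a * l) / nz a) ((T - nu a * l) / nz a)
    have hone : ∀ m : ℤ, m ∈ Em' T (2 * D * w) → a ∣ (⟨l, m⟩ : ZI) →
        1 ≤ ∑ m ∈ Em' T (2 * D * w), (if a ∣ (⟨l, m⟩ : ZI) then (1 : ℝ) else 0) := by
      intro m hm hdvd
      have h1 := single_le_sum (s := Em' T (2 * D * w)) (f := fun m => if a ∣ (⟨l, m⟩ : ZI) then (1 : ℝ) else 0)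
        (fun m _ => by show (0 : ℝ) ≤ if a ∣ (⟨l, m⟩ : ZI) then (1 : ℝ) else 0; split_ifs <;> norm_num) hm
      simp only [if_pos hdvd] at h1
      exact h1
    by_cases f1 : ∀ n : ℤ, w ≤ |(-T - nu a * l) / nz a - n|
    · by_cases f2 : ∀ n : ℤ, w ≤ |(T - nu a * l) / nz a - n|
      · have := c2 f1 f2
        linarith
      · push Not at f2
        obtain ⟨n, hn⟩ := f2
        have h1 : |T - nu a * l - nz a * n| < 2 * D * w := by
          have h2 : T - nu a * l - nz a * n = nz a * ((T - nu a * l) / nz a - n) := by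
            field_simp
          rw [h2, abs_mul, abs_of_pos hnz]
          calc nz a * |(T - nu a * l) / nz a - n| < nz a * w := mul_lt_mul_of_pos_left hn hnz
            _ ≤ 2 * D * w := mul_le_mul_of_nonneg_right ha3 hw.le
        have h3 := hone (nu a * l + Zsqrtd.norm a * n) ?_ ?_
        · linarith
        · unfold Em'
          rw [mem_union]
          left
          rw [mem_Icc, Int.ceil_le, Int.le_floor]
          rw [abs_lt] at h1
          have h4 : nz a = ((Zsqrtd.norm a : ℤ) : ℝ) := rfl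
          rw [h4] at h1
          push_cast
          constructor <;> linarith [h1.1, h1.2]
        · rw [hroot a ha1]
          exact ⟨n, by ring⟩
    · push Not at f1
      obtain ⟨n, hn⟩ := f1
      have h1 : |-T - nu a * l - nz a * n| < 2 * D * w := by
        have h2 : -T - nu a * l - nz a * n = nz a * ((-T - nu a * l) / nz a - n) := by
          field_simp
        rw [h2, abs_mul, abs_of_pos hnz]
        calc nz a * |(-T - nu a * l) / nz a - n| < nz a * w := mul_lt_mul_of_pos_left hn hnz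
          _ ≤ 2 * D * w := mul_le_mul_of_nonneg_right ha3 hw.le
      have h3 := hone (nu a * l + Zsqrtd.norm a * n) ?_ ?_
      · linarith
      · unfold Em'
        rw [mem_union]
        right
        rw [mem_Icc, Int.ceil_le, Int.le_floor]
        rw [abs_lt] at h1
        have h4 : nz a = ((Zsqrtd.norm a : ℤ) : ℝ) := rfl
        rw [h4] at h1
        push_cast
        constructor <;> linarith [h1.1, h1.2]
      · rw [hroot a ha1]
        exact ⟨n, by ring⟩
  have hdv : ∀ l ∈ S, ∀ m : ℤ,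
      ∑ a ∈ Ab D, (if a ∣ (⟨l, m⟩ : ZI) then (1 : ℝ) else 0) ≤ dv (⟨l, m⟩ : ZI) := by
    intro l hl m
    have hl := hS l hl
    rw [← sum_filter, sum_const, nsmul_eq_mul, mul_one]
    unfold dv
    have hz : (⟨l, m⟩ : ZI) ≠ 0 := by
      intro h
      have := congrArg Zsqrtd.re h
      simp at this
      omega
    have : ((Ab D).filter (fun a => a ∣ (⟨l, m⟩ : ZI))).card ≤
        ((bl (nz (⟨l, m⟩ : ZI))).filter (fun d => d ∣ (⟨l, m⟩ : ZI))).card := by
      apply card_le_card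
      intro a ha
      rw [mem_filter] at ha ⊢
      refine ⟨?_, ha.2⟩
      rw [mem_bl]
      refine ⟨(hA a ha.1).1, ?_⟩
      obtain ⟨b, hb⟩ := ha.2
      have hb0 : b ≠ 0 := by
        rintro rfl
        rw [mul_zero] at hb
        exact hz hb
      unfold nz
      have h1 : Zsqrtd.norm a ≤ Zsqrtd.norm (⟨l, m⟩ : ZI) := by
        rw [hb, Zsqrtd.norm_mul]
        have h2 := norm_pos_int (hA a ha.1).1
        have h3 := norm_pos_int hb0
        nlinarith
      exact_mod_cast h1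
    exact_mod_cast this
  calc ∑ a ∈ Ab D, ∑ l ∈ S,
      |nm T a l - ∫ t in ((-T - nu a * l) / nz a)..((T - nu a * l) / nz a), P t|
      ≤ ∑ a ∈ Ab D, ∑ l ∈ S,
        (τ + 3 * ∑ m ∈ Em' T (2 * D * w), (if a ∣ (⟨l, m⟩ : ZI) then (1 : ℝ) else 0)) := by
        apply sum_le_sum
        intro a ha
        apply sum_le_sum
        intro l _
        exact hpt a ha l
    _ = ((Ab D).card : ℝ) * (S.card * τ) + 3 * ∑ l ∈ S, ∑ m ∈ Em' T (2 * D * w),
        ∑ a ∈ Ab D, (if a ∣ (⟨l, m⟩ : ZI) then (1 : ℝ) else 0) := by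
        simp_rw [sum_add_distrib, sum_const, nsmul_eq_mul]
        congr 1
        simp_rw [← mul_sum]
        congr 1
        rw [sum_comm]
        apply sum_congr rfl
        intro l _
        rw [sum_comm]
    _ ≤ _ := by
        apply add_le_add le_rfl
        apply mul_le_mul_of_nonneg_left _ (by norm_num)
        apply sum_le_sum
        intro l hl
        apply sum_le_sum
        intro m _
        exact hdv l hl m

open Classical in
/-- one block -/
theorem block' (hSL : S ⊆ Icc (1 : ℤ) (L0 : ℤ)) (CR : ℝ) (hCR : 0 < CR) (hR : RL CR)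
    (hroot : ∀ a : ZI, ct a = 1 → ∀ l m : ℤ, a ∣ (⟨l, m⟩ : ZI) ↔ Zsqrtd.norm a ∣ m - nu a * l)
    (k N : ℕ) (hk : 1 ≤ k) (hN : 1 ≤ N) (hL0 : 1 ≤ L0) (B : ℝ) (hB0 : 0 ≤ B)
    (hB : ∀ n : ℤ, n ≠ 0 → |n| ≤ ((k * N * L0 : ℕ) : ℤ) →
      (((Icc (1 : ℤ) (L0 : ℤ)).filter (fun l => l ∣ n)).card : ℝ) ≤ B)
    (D T w : ℝ) (hD : 1 ≤ D) (hT : 0 ≤ T) (hw : 0 < w) :
    ∑ a ∈ Ab D, |∑ l ∈ S, (nm T a l - 2 * T / nz a)| ≤
      2 * T / D * Real.sqrt (((Ab D).card : ℝ) *
      (CR * (2 * D + (k * N * L0 : ℕ)) * Real.log (2 * D + 2) * (B * (2 * (k * N : ℕ) * S.card)))) +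
      (((Ab D).card : ℝ) * (S.card * (k * N * (1 / (2 * w * N)) ^ (2 * k))) +
        3 * ∑ l ∈ S, ∑ m ∈ Em' T (2 * D * w), (dv (⟨l, m⟩ : ZI) : ℝ)) := by
  obtain ⟨c, P, hPc, hP0, hP, hc0, hc1, hdec⟩ := kernel k hk N hN
  have hper : Function.Periodic P 1 := by
    intro t
    have : (P (t + 1) : ℂ) = (P t : ℂ) := by
      rw [hP, hP]
      apply sum_congr rfl
      intro h _
      rw [ee_periodic_int]
    exact_mod_cast this
  have hint := int_trig (k * N) c P hc0 hP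
  have hH : 1 ≤ k * N := Nat.mul_pos hk hN
  have hW := Wf_sum' (k * N) L0 c P S hSL CR hCR hR hL0 hH hc0 hP hc1 B hB0 hB D hD
  have h1 := osc L0 P (ind S) _ hPc D T hD hT hW
  have hτ : 0 ≤ k * N * (1 / (2 * w * N)) ^ (2 * k) := by positivity
  have h2 := near' P S (fun l hl => (mem_Icc.1 (hSL hl)).1) hroot hPc hP0 hper hint w _ hw hτ
    (fun t ht => hdec w t hw ht) D T hD hT
  refine le_trans ?_ (add_le_add h1 h2)
  rw [← sum_add_distrib]
  apply sum_le_sum
  intro a _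
  rw [ind_sum hSL]
  have h3 : ∑ l ∈ S, (nm T a l - 2 * T / nz a) =
      ∑ l ∈ S, ((∫ t in ((-T - nu a * l) / nz a)..((T - nu a * l) / nz a), P t) -
        2 * T / nz a) + ∑ l ∈ S,
        (nm T a l - ∫ t in ((-T - nu a * l) / nz a)..((T - nu a * l) / nz a), P t) := by
    rw [← sum_add_distrib]
    apply sum_congr rfl
    intro l _
    ring
  rw [h3]
  exact (abs_add_le _ _).trans (add_le_add le_rfl (abs_sum_le_sum_abs _ _))

/-- the trivial bound for a block -/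
theorem block_triv' (hroot : ∀ a : ZI, ct a = 1 → ∀ l m : ℤ, a ∣ (⟨l, m⟩ : ZI) ↔ Zsqrtd.norm a ∣ m - nu a * l)
    (D T : ℝ) (hD : 1 ≤ D) (hT : 0 ≤ T) :
    ∑ a ∈ Ab D, |∑ l ∈ S, (nm T a l - 2 * T / nz a)| ≤ 18 * D * S.card := by
  classical
  have h1 : ∀ a ∈ Ab D, |∑ l ∈ S, (nm T a l - 2 * T / nz a)| ≤ S.card := by
    intro a ha
    unfold Pool.Agent.N458.GN.Ab at ha
    rw [mem_filter, mem_bl] at ha
    obtain ⟨⟨ha0, _⟩, ha1, _⟩ := ha
    refine (abs_sum_le_sum_abs _ _).trans ?_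
    have h2 : ∀ l ∈ S, |nm T a l - 2 * T / nz a| ≤ 1 := fun l _ =>
      nm_triv ha0 (hroot a ha1) hT l
    refine (sum_le_sum h2).trans ?_
    rw [sum_const, nsmul_eq_mul, mul_one]
  refine (sum_le_sum h1).trans ?_
  rw [sum_const, nsmul_eq_mul]
  exact mul_le_mul_of_nonneg_right (card_Ab D hD) (Nat.cast_nonneg _)

end Block

end Pool.Agent.U529.FD
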