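import Pool.Agent.U529.FD.Block

/-! The linear sums over the roots of `ν ^ 2 = -1` for the indicator function of a sparse set: the bound for a block. -/

set_option autoImplicit false

namespace Pool.Agent.U529.FD

open Finset
open Pool.Agent.N782.GN
open Pool.Agent.N458.GN

theorem blockbound' (hDVB : S_DVB) (CR : ℝ) (hCR : 0 < CR) (hR : RL CR)
    (hroot : ∀ a : ZI, ct a = 1 → ∀ l m : ℤ, a ∣ (⟨l, m⟩ : ZI) ↔ Zsqrtd.norm a ∣ m - nu a * l)
    (δ : ℝ) (hδ0 : 0 < δ) (hδ1 : δ ≤ 1 / 100) : ∃ C : ℝ, 0 < C ∧ ∀ (M D : ℝ) (g : ℕ) (S : Finset ℤ),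
      2 ≤ M → 1 ≤ D → 1 ≤ g → D ≤ M ^ 2 → (∀ l ∈ S, 1 ≤ l ∧ (l : ℝ) ≤ M / g) →
      ∑ a ∈ Ab D, |∑ l ∈ S, (nm (M / g) a l - 2 * (M / g) / nz a)| ≤
        C * ((M ^ δ) ^ 54 * Real.sqrt (D * (M / g) * S.card) +
          S.card * ((M / g) / (M ^ δ) ^ 20 + (M ^ δ) ^ 3)) := by
  classical
  obtain ⟨Cd, hCd, hdv⟩ := hDVB δ hδ0
  set k : ℕ := ⌈1 / δ⌉₊ + 1 with hk
  have hk1 : 1 ≤ k := by omega
  have hkr : 1 / δ ≤ (k : ℝ) := by
    have := Nat.le_ceil (1 / δ)
    rw [hk]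
    push_cast
    linarith
  have hkpos : (1 : ℝ) ≤ k := by exact_mod_cast hk1
  set C1 : ℝ := 18 * CR * (2 + 2 * k) * (4 / δ) * (Cd * (2 * k) ^ 2) * (2 * (2 * k)) with hC1
  have hC1pos : 0 < C1 := by positivity
  refine ⟨18 + 2 * Real.sqrt C1 + 36 * k + 300 * Cd, by positivity, ?_⟩
  intro M D g S hM hD hg hDM' hSl
  set v : ℝ := M ^ δ with hv
  have hM0 : 0 < M := by linarith
  have hv1 : 1 ≤ v := Real.one_le_rpow (by linarith) hδ0.le
  have hvpos : 0 < v := by linarith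
  have hgr : (1 : ℝ) ≤ g := by exact_mod_cast hg
  have hg0 : (0 : ℝ) < g := by linarith
  have hvp : ∀ a b : ℕ, a ≤ b → v ^ a ≤ v ^ b := fun a b hab => pow_le_pow_right₀ hv1 hab
  have hvp1 : ∀ a : ℕ, 1 ≤ v ^ a := fun a => one_le_pow₀ hv1
  have hv100 : v ^ 100 ≤ M := by
    rw [hv, ← Real.rpow_natCast, ← Real.rpow_mul hM0.le]
    calc M ^ (δ * ((100 : ℕ) : ℝ)) ≤ M ^ (1 : ℝ) := by
          apply Real.rpow_le_rpow_of_exponent_le (by linarith)
          push_cast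
          linarith
      _ = M := Real.rpow_one M
  set T : ℝ := M / g with hT
  have hTpos : 0 < T := by positivity
  have hTM : T ≤ M := div_le_self hM0.le hgr
  by_cases hS0 : S = ∅
  · subst hS0
    simp
  obtain ⟨l0, hl0⟩ := nonempty_iff_ne_empty.mpr hS0
  have hT1 : 1 ≤ T := by
    have h1 := hSl l0 hl0
    have h2 : (1 : ℝ) ≤ l0 := by exact_mod_cast h1.1
    linarith [h1.2]
  set L0 : ℕ := ⌊T⌋₊ with hL0def
  have hL0 : (L0 : ℝ) ≤ T := Nat.floor_le hTpos.le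
  have hL01 : 1 ≤ L0 := Nat.one_le_floor_iff _ |>.mpr hT1
  have hSL : S ⊆ Icc (1 : ℤ) (L0 : ℤ) := by
    intro l hl
    have h1 := hSl l hl
    rw [mem_Icc]
    refine ⟨h1.1, ?_⟩
    rw [hL0def, Int.natCast_floor_eq_floor hTpos.le]
    exact Int.le_floor.2 h1.2
  set s : ℝ := (S.card : ℝ) with hs
  have hs0 : 0 ≤ s := Nat.cast_nonneg _
  set R : ℝ := v ^ 54 * Real.sqrt (D * T * s) with hR1
  have hR10 : 0 ≤ R := by positivity
  set Q : ℝ := s * (T / v ^ 20 + v ^ 3) with hQ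
  have hQ0 : 0 ≤ Q := by positivity
  have hQ1 : s * (T / v ^ 20) ≤ Q := by
    rw [hQ]
    apply mul_le_mul_of_nonneg_left _ hs0
    have : 0 ≤ v ^ 3 := by positivity
    linarith
  have hQ2 : s * v ^ 3 ≤ Q := by
    rw [hQ]
    apply mul_le_mul_of_nonneg_left _ hs0
    have : 0 ≤ T / v ^ 20 := by positivity
    linarith
  by_cases hcase : D * v ^ 50 ≤ T
  · have h1 := block_triv' S hroot D T hD hTpos.le
    refine h1.trans ?_
    have h2 : 18 * D * s ≤ 18 * Q := by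
      have h3 : D ≤ T / v ^ 20 := by
        rw [le_div_iff₀ (by positivity)]
        calc D * v ^ 20 ≤ D * v ^ 50 := by
              apply mul_le_mul_of_nonneg_left (hvp 20 50 (by norm_num)) (by linarith)
          _ ≤ T := hcase
      calc 18 * D * s = 18 * (s * D) := by ring
        _ ≤ 18 * (s * (T / v ^ 20)) := by gcongr
        _ ≤ 18 * Q := by linarith
    have h3 : 0 ≤ (2 * Real.sqrt C1 + 36 * k + 300 * Cd) * (R + Q) := by positivity
    have h4 : (18 + 2 * Real.sqrt C1 + 36 * k + 300 * Cd) * (R + Q) =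
        18 * R + 18 * Q + (2 * Real.sqrt C1 + 36 * k + 300 * Cd) * (R + Q) := by ring
    show 18 * D * s ≤ (18 + 2 * Real.sqrt C1 + 36 * k + 300 * Cd) * (R + Q)
    linarith
  push Not at hcase
  set N : ℕ := ⌈D * v ^ 50 / T⌉₊ with hN
  have hNlo : D * v ^ 50 / T ≤ N := Nat.le_ceil _
  have hq1 : 1 ≤ D * v ^ 50 / T := by
    rw [le_div_iff₀ hTpos]
    linarith
  have hNhi : (N : ℝ) ≤ 2 * (D * v ^ 50 / T) := by
    have := Nat.ceil_lt_add_one (by positivity : 0 ≤ D * v ^ 50 / T)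
    rw [← hN] at this
    linarith
  have hN1 : 1 ≤ N := by
    have : (1 : ℝ) ≤ N := hq1.trans hNlo
    exact_mod_cast this
  have hNr : (1 : ℝ) ≤ N := by exact_mod_cast hN1
  have hNpos : (0 : ℝ) < N := by linarith
  have hNT : D * v ^ 50 ≤ N * T := by
    rw [div_le_iff₀ hTpos] at hNlo
    exact hNlo
  have hNT2 : (N : ℝ) * T ≤ 2 * (D * v ^ 50) := by
    calc (N : ℝ) * T ≤ 2 * (D * v ^ 50 / T) * T := by gcongr
      _ = 2 * (D * v ^ 50) := by field_simp
  set w : ℝ := v ^ 25 / N with hw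
  have hwpos : 0 < w := by positivity
  have hwN : w * N = v ^ 25 := div_mul_cancel₀ _ hNpos.ne'
  set N0 : ℕ := k * N * L0 with hN0
  have hN0r : (N0 : ℝ) = k * N * L0 := by
    rw [hN0]
    push_cast
    ring
  have hN0D : (N0 : ℝ) ≤ 2 * k * D * v ^ 50 := by
    rw [hN0r]
    calc (k : ℝ) * N * L0 ≤ k * N * T := by gcongr
      _ = k * (N * T) := by ring
      _ ≤ k * (2 * (D * v ^ 50)) := by gcongr
      _ = _ := by ring
  set B : ℝ := Cd * ((2 * k) ^ 2 * v ^ 5) with hB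
  have hBpos : 0 ≤ B := by positivity
  have hrpow_le : ∀ x : ℝ, 1 ≤ x → x ^ δ ≤ x := by
    intro x hx
    calc x ^ δ ≤ x ^ (1 : ℝ) := Real.rpow_le_rpow_of_exponent_le hx (by linarith)
      _ = x := Real.rpow_one x
  have hMpow : ∀ n : ℕ, (M ^ n) ^ δ = v ^ n := by
    intro n
    rw [hv, ← Real.rpow_natCast, ← Real.rpow_natCast, ← Real.rpow_mul hM0.le, ← Real.rpow_mul hM0.le]
    congr 1
    ring
  have hBn : ∀ n : ℤ, n ≠ 0 → |n| ≤ ((k * N * L0 : ℕ) : ℤ) →
      (((Icc (1 : ℤ) (L0 : ℤ)).filter (fun l => l ∣ n)).card : ℝ) ≤ B := by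
    intro n hn hnN
    have h1 : |(n : ℝ)| ≤ 2 * k * D * v ^ 50 := by
      have h2 : |(n : ℝ)| ≤ N0 := by
        rw [hN0]
        exact_mod_cast hnN
      linarith
    refine (card_div δ Cd hδ0 hdv hCd L0 n hn _ h1).trans ?_
    rw [hB]
    apply mul_le_mul_of_nonneg_left _ hCd.le
    have h3 : (2 * (k : ℝ) * D * v ^ 50) ^ 2 ≤ (2 * k) ^ 2 * M ^ 5 := by
      calc (2 * (k : ℝ) * D * v ^ 50) ^ 2 = (2 * k) ^ 2 * (D ^ 2 * v ^ 100) := by ring
        _ ≤ (2 * k) ^ 2 * ((M ^ 2) ^ 2 * M) := by gcongr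
        _ = (2 * k) ^ 2 * M ^ 5 := by ring
    calc ((2 * (k : ℝ) * D * v ^ 50) ^ 2) ^ δ ≤ ((2 * (k : ℝ)) ^ 2 * M ^ 5) ^ δ :=
          Real.rpow_le_rpow (by positivity) h3 hδ0.le
      _ = ((2 * (k : ℝ)) ^ 2) ^ δ * (M ^ 5) ^ δ := Real.mul_rpow (by positivity) (by positivity)
      _ = ((2 * (k : ℝ)) ^ 2) ^ δ * v ^ 5 := by rw [hMpow]
      _ ≤ (2 * (k : ℝ)) ^ 2 * v ^ 5 := by
          gcongr
          apply hrpow_le
          have : (1 : ℝ) ≤ 2 * k := by linarith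
          exact one_le_pow₀ this
  have hblock := block' L0 S hSL CR hCR hR hroot k N hk1 hN1 hL01 B hBpos hBn D T w hD hTpos.le hwpos
  refine hblock.trans ?_
  -- the oscillating part
  have hlog : Real.log (2 * D + 2) ≤ 4 / δ * v ^ 2 := by
    have h1 : Real.log (2 * D + 2) ≤ (2 * D + 2) ^ δ / δ := Real.log_le_rpow_div (by linarith) hδ0
    have h2 : (2 * D + 2) ^ δ ≤ 4 * v ^ 2 := by
      have h3 : 2 * D + 2 ≤ 4 * M ^ 2 := by nlinarith
      calc (2 * D + 2) ^ δ ≤ (4 * M ^ 2) ^ δ := Real.rpow_le_rpow (by linarith) h3 hδ0.le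
        _ = 4 ^ δ * (M ^ 2) ^ δ := Real.mul_rpow (by norm_num) (by positivity)
        _ = 4 ^ δ * v ^ 2 := by rw [hMpow]
        _ ≤ 4 * v ^ 2 := by
          gcongr
          exact hrpow_le 4 (by norm_num)
    calc Real.log (2 * D + 2) ≤ (2 * D + 2) ^ δ / δ := h1
      _ ≤ (4 * v ^ 2) / δ := by gcongr
      _ = 4 / δ * v ^ 2 := by ring
  have hAb := card_Ab D hD
  have hAb0 : (0 : ℝ) ≤ ((Ab D).card : ℝ) := Nat.cast_nonneg _
  have hlog0 : 0 ≤ Real.log (2 * D + 2) := Real.log_nonneg (by linarith)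
  have hosc : 2 * T / D * Real.sqrt (((Ab D).card : ℝ) *
      (CR * (2 * D + (k * N * L0 : ℕ)) * Real.log (2 * D + 2) * (B * (2 * (k * N : ℕ) * s)))) ≤
      2 * Real.sqrt C1 * R := by
    rw [← hN0]
    set y : ℝ := Real.sqrt C1 * v ^ 54 * (D / T) * Real.sqrt (D * T * s) with hy
    have hy0 : 0 ≤ y := by positivity
    have hX : ((Ab D).card : ℝ) * (CR * (2 * D + N0) * Real.log (2 * D + 2) * (B * (2 * (k * N : ℕ) * s))) ≤ y ^ 2 := by
      have h2 : ((k * N : ℕ) : ℝ) ≤ k * (2 * (D * v ^ 50 / T)) := by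
        push_cast
        gcongr
      have h3 : 2 * D + N0 ≤ (2 + 2 * k) * D * v ^ 50 := by
        have h4 : D ≤ D * v ^ 50 := by
          have := mul_le_mul_of_nonneg_left (hvp1 50) (by linarith : 0 ≤ D)
          linarith
        calc 2 * D + N0 ≤ 2 * (D * v ^ 50) + 2 * k * D * v ^ 50 := by linarith
          _ = _ := by ring
      have h1 : ((Ab D).card : ℝ) * (CR * (2 * D + N0) * Real.log (2 * D + 2) * (B * (2 * (k * N : ℕ) * s))) ≤
          (18 * D) * (CR * ((2 + 2 * k) * D * v ^ 50) * (4 / δ * v ^ 2) *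
            (B * (2 * (k * (2 * (D * v ^ 50 / T))) * s))) := by
        gcongr
      refine h1.trans ?_
      have h4 : (18 * D) * (CR * ((2 + 2 * k) * D * v ^ 50) * (4 / δ * v ^ 2) *
            (B * (2 * (k * (2 * (D * v ^ 50 / T))) * s))) = C1 * (D ^ 3 * v ^ 107 * s / T) := by
        rw [hB, hC1]
        ring
      rw [h4]
      have h5 : y ^ 2 = C1 * (D ^ 3 * v ^ 108 * s / T) := by
        rw [hy]
        have h6 : Real.sqrt C1 ^ 2 = C1 := Real.sq_sqrt hC1pos.le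
        have h7 : Real.sqrt (D * T * s) ^ 2 = D * T * s := Real.sq_sqrt (by positivity)
        calc (Real.sqrt C1 * v ^ 54 * (D / T) * Real.sqrt (D * T * s)) ^ 2 =
            Real.sqrt C1 ^ 2 * (v ^ 108 * (D / T) ^ 2) * Real.sqrt (D * T * s) ^ 2 := by ring
          _ = C1 * (v ^ 108 * (D / T) ^ 2) * (D * T * s) := by rw [h6, h7]
          _ = _ := by
            field_simp
      rw [h5]
      apply mul_le_mul_of_nonneg_left _ hC1pos.le
      gcongr
      · norm_num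
    have h7 := Real.sqrt_le_iff.mpr ⟨hy0, hX⟩
    calc _ ≤ 2 * T / D * y := by gcongr
      _ = 2 * Real.sqrt C1 * R := by
        rw [hy, hR1]
        have hD0 : D ≠ 0 := by positivity
        field_simp
  -- the tail
  have htail : ((Ab D).card : ℝ) * (s * (k * N * (1 / (2 * w * N)) ^ (2 * k))) ≤ 36 * k * Q := by
    have h1 : (1 / (2 * w * N)) ^ (2 * k) ≤ 1 / M ^ 8 := by
      rw [div_pow, one_pow]
      apply one_div_le_one_div_of_le (by positivity)
      have h2 : M ^ 8 ≤ (v ^ 25) ^ (2 * k) := by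
        rw [hv, ← Real.rpow_natCast, ← Real.rpow_natCast, ← Real.rpow_natCast, ← Real.rpow_mul hM0.le,
          ← Real.rpow_mul hM0.le]
        apply Real.rpow_le_rpow_of_exponent_le (by linarith)
        push_cast
        rw [div_le_iff₀ hδ0] at hkr
        nlinarith
      refine h2.trans ?_
      apply pow_le_pow_left₀ (by positivity)
      rw [mul_assoc, hwN]
      linarith [hvp1 25]
    have hN2 : (N : ℝ) ≤ 2 * (M ^ 2 * M) := by
      calc (N : ℝ) = N * 1 := (mul_one _).symm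
        _ ≤ N * T := by gcongr
        _ ≤ 2 * (D * v ^ 50) := hNT2
        _ ≤ 2 * (M ^ 2 * M) := by
          gcongr
          exact (hvp 50 100 (by norm_num)).trans hv100
    calc ((Ab D).card : ℝ) * (s * (k * N * (1 / (2 * w * N)) ^ (2 * k))) ≤
        (18 * M ^ 2) * (s * (k * (2 * (M ^ 2 * M)) * (1 / M ^ 8))) := by
          gcongr
          linarith
      _ = 36 * k * (s * (1 / M ^ 3)) := by field_simp; ring
      _ ≤ 36 * k * (s * v ^ 3) := by
        gcongr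
        calc 1 / M ^ 3 ≤ 1 := by
              rw [div_le_one (by positivity)]
              exact one_le_pow₀ (by linarith)
          _ ≤ v ^ 3 := hvp1 3
      _ ≤ 36 * k * Q := by gcongr
  -- the points near the boundary
  have hΔ : 2 * D * w ≤ 2 * T / v ^ 25 := by
    rw [hw, mul_div_assoc', div_le_div_iff₀ hNpos (by positivity)]
    calc 2 * D * v ^ 25 * v ^ 25 = 2 * (D * v ^ 50) := by ring
      _ ≤ 2 * (N * T) := by gcongr
      _ = 2 * T * N := by ring
  have hΔ0 : 0 ≤ 2 * D * w := by positivity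
  have hΔT : 2 * D * w ≤ 2 * T := by
    refine hΔ.trans ?_
    exact div_le_self (by positivity) (hvp1 25)
  have hcard : ((Em' T (2 * D * w)).card : ℝ) ≤ 8 * (T / v ^ 25) + 2 := by
    have h1 := card_Em' T (2 * D * w) hΔ0
    have h3 : 2 * T / v ^ 25 = 2 * (T / v ^ 25) := by ring
    linarith
  have hdvb : ∀ l ∈ S, ∀ m ∈ Em' T (2 * D * w), (dv (⟨l, m⟩ : ZI) : ℝ) ≤ Cd * (10 * v ^ 2) := by
    intro l hl m hm
    have hl' := hSl l hl
    have hz : (⟨l, m⟩ : ZI) ≠ 0 := by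
      intro h
      have := congrArg Zsqrtd.re h
      simp at this
      omega
    refine (hdv _ hz).trans ?_
    apply mul_le_mul_of_nonneg_left _ hCd.le
    have h1 : nz (⟨l, m⟩ : ZI) ≤ 10 * M ^ 2 := by
      rw [nz_eq]
      simp only
      have h2 : (l : ℝ) ≤ M := hl'.2.trans hTM
      have h5 : (0 : ℝ) ≤ l := by
        have : (0 : ℤ) ≤ l := by omega
        exact_mod_cast this
      have h6 : |(m : ℝ)| ≤ 3 * M := by
        unfold Em' at hm
        rw [mem_union, mem_Icc, mem_Icc, Int.ceil_le, Int.le_floor, Int.ceil_le, Int.le_floor] at hm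
        rw [abs_le]
        rcases hm with hm | hm
        · constructor <;> linarith [hm.1, hm.2]
        · constructor <;> linarith [hm.1, hm.2]
      have h7 : (m : ℝ) ^ 2 ≤ (3 * M) ^ 2 := by
        rw [← sq_abs (m : ℝ)]
        exact pow_le_pow_left₀ (abs_nonneg _) h6 2
      have h8 : (l : ℝ) ^ 2 ≤ M ^ 2 := pow_le_pow_left₀ h5 h2 2
      have h9 : (3 * M) ^ 2 = 9 * M ^ 2 := by ring
      linarith
    calc (nz (⟨l, m⟩ : ZI)) ^ δ ≤ (10 * M ^ 2) ^ δ := Real.rpow_le_rpow (nz_nonneg _) h1 hδ0.le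
      _ = 10 ^ δ * (M ^ 2) ^ δ := Real.mul_rpow (by norm_num) (by positivity)
      _ = 10 ^ δ * v ^ 2 := by rw [hMpow]
      _ ≤ 10 * v ^ 2 := by
        gcongr
        exact hrpow_le 10 (by norm_num)
  have hnear : 3 * ∑ l ∈ S, ∑ m ∈ Em' T (2 * D * w), (dv (⟨l, m⟩ : ZI) : ℝ) ≤ 300 * Cd * Q := by
    calc 3 * ∑ l ∈ S, ∑ m ∈ Em' T (2 * D * w), (dv (⟨l, m⟩ : ZI) : ℝ) ≤
        3 * ∑ l ∈ S, ∑ m ∈ Em' T (2 * D * w), Cd * (10 * v ^ 2) := by
          gcongr with l hl m hm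
          exact hdvb l hl m hm
      _ = 3 * (s * (((Em' T (2 * D * w)).card : ℝ) * (Cd * (10 * v ^ 2)))) := by
          simp_rw [sum_const, nsmul_eq_mul]
          rfl
      _ ≤ 3 * (s * ((8 * (T / v ^ 25) + 2) * (Cd * (10 * v ^ 2)))) := by gcongr
      _ = Cd * (s * (240 * (T / v ^ 23) + 60 * v ^ 2)) := by
          field_simp
          ring
      _ ≤ Cd * (s * (300 * (T / v ^ 20) + 300 * v ^ 3)) := by
          have h1 : T / v ^ 23 ≤ T / v ^ 20 :=
            div_le_div_of_nonneg_left hTpos.le (by positivity) (hvp 20 23 (by norm_num))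
          have h2 : v ^ 2 ≤ v ^ 3 := hvp 2 3 (by norm_num)
          have h3 : 0 ≤ T / v ^ 20 := by positivity
          have h4 : 0 ≤ v ^ 3 := by positivity
          gcongr
          · norm_num
          · norm_num
      _ = 300 * Cd * Q := by rw [hQ]; ring
  calc _ ≤ 2 * Real.sqrt C1 * R + (36 * k * Q + 300 * Cd * Q) := add_le_add hosc (add_le_add htail hnear)
    _ ≤ (18 + 2 * Real.sqrt C1 + 36 * k + 300 * Cd) * (R + Q) := by
      have h4 : (18 + 2 * Real.sqrt C1 + 36 * k + 300 * Cd) * (R + Q) = 2 * Real.sqrt C1 * R +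
        (36 * k * Q + 300 * Cd * Q) + (18 * R + 18 * Q + 2 * Real.sqrt C1 * Q + 36 * k * R + 300 * Cd * R) := by
          ring
      have h5 : 0 ≤ 18 * R + 18 * Q + 2 * Real.sqrt C1 * Q + 36 * k * R + 300 * Cd * R := by positivity
      linarith

end Pool.Agent.U529.FD
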