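import Pool.Agent.U529.FD.Loc

/-! The local densities of `m ^ 2 + l ^ 2`, uniformly in `l`: the limit, and a lower bound. -/

set_option autoImplicit false

namespace Pool.Agent.U529.FD

open Finset Polynomial Filter Topology
open Pool.Agent.W23.DC
open Pool.Agent.Y882.PX
open Pool.Agent.Y882.SI
open Pool.Agent.Y882.JR
open Pool.Agent.Y882
open Pool.Agent.Y781.JR

theorem not_sq (l : ℤ) (hl : l ≠ 0) : ¬ IsSquare (-(l ^ 2)) := by
  rintro ⟨r, hr⟩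
  have h1 : 0 < l ^ 2 := by positivity
  nlinarith [mul_self_nonneg r]

/-- **The partial products are uniformly close to the limit.** -/
theorem ratio (K : ℕ) (ε' : ℝ) (hε' : 0 < ε') : ∃ N0 : ℕ, ∀ N : ℕ, N0 ≤ N → ∀ (l : ℤ) (C : ℝ), 1 ≤ l →
    (l : ℝ) ≤ (N : ℝ) ^ K → Tendsto (RR (l ^ 2)) atTop (𝓝 C) → 0 ≤ C →
      (1 - ε') * C ≤ RR (l ^ 2) N ∧ RR (l ^ 2) N ≤ (1 + ε') * C := by
  classical
  obtain ⟨C1, hC1, hR1⟩ := RR_conv (1 ^ 2) (not_sq 1 one_ne_zero)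
  have hx : Tendsto (fun N : ℕ => 1 / ((N : ℝ) - 1)) atTop (𝓝 0) := by
    have h1 : Tendsto (fun N : ℕ => (N : ℝ) - 1) atTop atTop :=
      tendsto_atTop_add_const_right _ _ tendsto_natCast_atTop_atTop
    exact (h1.inv_tendsto_atTop).congr (fun N => (one_div _).symm)
  have t1 : Tendsto (fun N : ℕ => (1 - 1 / ((N : ℝ) - 1)) ^ K * RR (1 ^ 2) N) atTop (𝓝 C1) := by
    have := ((tendsto_const_nhds (x := (1 : ℝ))).sub hx).pow K |>.mul hR1
    simpa using this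
  have t2 : Tendsto (fun N : ℕ => (1 + 1 / ((N : ℝ) - 1)) ^ K * RR (1 ^ 2) N) atTop (𝓝 C1) := by
    have := ((tendsto_const_nhds (x := (1 : ℝ))).add hx).pow K |>.mul hR1
    simpa using this
  have ev1 : ∀ᶠ N : ℕ in atTop, (1 - ε') * C1 < (1 - 1 / ((N : ℝ) - 1)) ^ K * RR (1 ^ 2) N :=
    t1.eventually (lt_mem_nhds (by nlinarith))
  have ev2 : ∀ᶠ N : ℕ in atTop, (1 + 1 / ((N : ℝ) - 1)) ^ K * RR (1 ^ 2) N < (1 + ε') * C1 :=
    t2.eventually (gt_mem_nhds (by nlinarith))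
  obtain ⟨N0, hN0⟩ := eventually_atTop.1 (ev1.and (ev2.and (eventually_ge_atTop 3)))
  refine ⟨N0, ?_⟩
  intro N hN l C hl hlN hC hC0
  obtain ⟨e1, e2, e3⟩ := hN0 N hN
  have hNr : (3 : ℝ) ≤ N := by exact_mod_cast e3
  set x : ℝ := 1 / ((N : ℝ) - 1) with hxd
  have hx0 : 0 < x := div_pos one_pos (by linarith)
  have hx1 : x ≤ 1 := by
    rw [hxd, div_le_one (by linarith)]
    linarith
  have hR := RR_l_pos 1 N
  have hbd : ∀ M : ℕ, N ≤ M → (1 - x) ^ K * RR (1 ^ 2) N * RR (l ^ 2) M ≤ RR (l ^ 2) N * RR (1 ^ 2) M ∧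
      RR (l ^ 2) N * RR (1 ^ 2) M ≤ (1 + x) ^ K * RR (1 ^ 2) N * RR (l ^ 2) M := by
    intro M hM
    have h1 := RR_cmp l N M hM
    set S := (Ico N M).filter (fun p : ℕ => (p.Prime ∧ p ≠ 2) ∧ (p : ℤ) ∣ l) with hS
    have hSp : ∀ p ∈ S, (p.Prime ∧ p ≠ 2) ∧ (N : ℝ) ≤ p ∧ (p : ℤ) ∣ l := by
      intro p hp
      rw [hS, mem_filter, mem_Ico] at hp
      exact ⟨hp.2.1, by exact_mod_cast hp.1.1, hp.2.2⟩
    have hcard : S.card ≤ K := by
      have h2 := card_big S l N ((N : ℝ) ^ K) (by linarith) hl hlN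
        (fun p hp => ⟨(hSp p hp).1.1, (hSp p hp).2.1, (hSp p hp).2.2⟩)
      exact (pow_le_pow_iff_right₀ (by linarith : (1 : ℝ) < N)).1 h2
    have hfc : ∀ p ∈ S, 1 - x ≤ fc p ∧ fc p ≤ 1 + x := by
      intro p hp
      obtain ⟨⟨g1, g2⟩, g3, _⟩ := hSp p hp
      have h3 := fc_bd p g1 g2
      have h4 : 1 / ((p : ℝ) - 1) ≤ x := by
        rw [hxd]
        exact div_le_div_of_nonneg_left zero_le_one (by linarith) (by linarith)
      constructor <;> linarith [h3.1, h3.2]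
    have l1 : (1 - x) ^ K ≤ ∏ p ∈ S, fc p := by
      calc (1 - x) ^ K ≤ (1 - x) ^ S.card := pow_le_pow_of_le_one (by linarith) (by linarith) hcard
        _ = ∏ _p ∈ S, (1 - x) := by rw [prod_const]
        _ ≤ _ := Finset.prod_le_prod (fun _ _ => by linarith) (fun p hp => (hfc p hp).1)
    have l2 : ∏ p ∈ S, fc p ≤ (1 + x) ^ K := by
      calc ∏ p ∈ S, fc p ≤ ∏ _p ∈ S, (1 + x) := by
            apply Finset.prod_le_prod
            · intro p hp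
              have := (hfc p hp).1
              linarith
            · exact fun p hp => (hfc p hp).2
        _ = (1 + x) ^ S.card := by rw [prod_const]
        _ ≤ _ := pow_le_pow_right₀ (by linarith) hcard
    have hRM := RR_l_pos l M
    rw [← h1]
    have h5 : RR (l ^ 2) M * (∏ p ∈ S, fc p) * RR (1 ^ 2) N = (∏ p ∈ S, fc p) * (RR (1 ^ 2) N * RR (l ^ 2) M) := by
      ring
    rw [h5]
    constructor
    · calc (1 - x) ^ K * RR (1 ^ 2) N * RR (l ^ 2) M = (1 - x) ^ K * (RR (1 ^ 2) N * RR (l ^ 2) M) := by ring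
        _ ≤ _ := mul_le_mul_of_nonneg_right l1 (by positivity)
    · calc (∏ p ∈ S, fc p) * (RR (1 ^ 2) N * RR (l ^ 2) M) ≤ (1 + x) ^ K * (RR (1 ^ 2) N * RR (l ^ 2) M) :=
          mul_le_mul_of_nonneg_right l2 (by positivity)
        _ = _ := by ring
  have k1 : (1 - x) ^ K * RR (1 ^ 2) N * C ≤ RR (l ^ 2) N * C1 :=
    le_of_tendsto_of_tendsto (hC.const_mul _) (hR1.const_mul _)
      (by filter_upwards [eventually_ge_atTop N] with M hM using (hbd M hM).1)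
  have k2 : RR (l ^ 2) N * C1 ≤ (1 + x) ^ K * RR (1 ^ 2) N * C :=
    le_of_tendsto_of_tendsto (hR1.const_mul _) (hC.const_mul _)
      (by filter_upwards [eventually_ge_atTop N] with M hM using (hbd M hM).2)
  constructor
  · have h6 : (1 - ε') * C1 * C ≤ (1 - x) ^ K * RR (1 ^ 2) N * C := mul_le_mul_of_nonneg_right e1.le hC0
    have h7 : ((1 - ε') * C) * C1 ≤ RR (l ^ 2) N * C1 := by linarith
    exact le_of_mul_le_mul_right h7 hC1
  · have h6 : (1 + x) ^ K * RR (1 ^ 2) N * C ≤ (1 + ε') * C1 * C := mul_le_mul_of_nonneg_right e2.le hC0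
    have h7 : RR (l ^ 2) N * C1 ≤ ((1 + ε') * C) * C1 := by linarith
    exact le_of_mul_le_mul_right h7 hC1

theorem GG_sq_le (l : ℤ) (N : ℕ) : GG N ^ 2 ≤ RR (l ^ 2) N := by
  classical
  rw [RR_l]
  have h0 : (range N).filter (fun p : ℕ => (p.Prime ∧ p ≠ 2) ∧ ¬ (p : ℤ) ∣ l) =
      ((range N).filter Nat.Prime).filter (fun p : ℕ => p ≠ 2 ∧ ¬ (p : ℤ) ∣ l) := by
    rw [filter_filter]
    apply filter_congr
    intro p _
    tauto
  rw [h0, prod_filter]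
  unfold GG
  rw [← prod_pow]
  apply Finset.prod_le_prod
  · intro p _
    positivity
  · intro p hp
    have hpp := (mem_filter.1 hp).2
    have h2 : (2 : ℝ) ≤ p := by exact_mod_cast hpp.two_le
    have h3 := fac_pos p hpp
    have h4 : (1 - 1 / (p : ℝ)) ^ 2 ≤ 1 := by
      rw [sq_le_one_iff_abs_le_one, abs_of_pos h3.1]
      exact h3.2
    split_ifs with h
    · have h5 := (fc_bd p hpp h.1).1
      refine le_trans ?_ h5
      have h6 : (3 : ℝ) ≤ p := by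
        have h7 := hpp.two_le
        have h8 : 3 ≤ p := by
          have := h.1
          omega
        exact_mod_cast h8
      have h7 : (0 : ℝ) < (p : ℝ) - 1 := by linarith
      have h8 : (0 : ℝ) < p := by linarith
      have h9 : 1 - 1 / ((p : ℝ) - 1) - (1 - 1 / (p : ℝ)) ^ 2 = ((p : ℝ) ^ 2 - 3 * p + 1) / (p ^ 2 * (p - 1)) := by
        field_simp
        ring
      have h10 : 0 ≤ ((p : ℝ) ^ 2 - 3 * p + 1) / (p ^ 2 * (p - 1)) := by
        apply div_nonneg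
        · nlinarith
        · positivity
      linarith
    · exact h4

theorem GG_anti {M N : ℕ} (h : M ≤ N) : GG N ≤ GG M := by
  unfold GG
  apply Finset.prod_le_prod_of_subset_of_le_one
  · exact filter_subset_filter _ (range_mono h)
  · intro p hp
    exact (fac_pos p (mem_filter.1 hp).2).1.le
  · intro p hp _
    exact (fac_pos p (mem_filter.1 hp).2).2

/-- a lower bound for the sieve density -/
theorem vv_lower (κ : ℝ) (hκ : 0 < κ) : ∃ Y0 : ℕ, ∀ Y : ℕ, Y0 ≤ Y → ∀ (l : ℤ) (ζ : ℝ), ζ ≤ 1 →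
    (Y : ℝ) ^ (-κ) ≤ vv (QF (l ^ 2)) Y ζ := by
  have hE : 0 < Real.exp (-Real.eulerMascheroniConstant) := Real.exp_pos _
  set c : ℝ := Real.exp (-Real.eulerMascheroniConstant) / 2 with hc
  have hc0 : 0 < c := by positivity
  have ev1 : ∀ᶠ N : ℕ in atTop, c < GG (N + 1) * Real.log N :=
    GG_mertens.eventually (lt_mem_nhds (by rw [hc]; linarith))
  have ev2 : ∀ᶠ Y : ℕ in atTop, Real.log Y ≤ c * (Y : ℝ) ^ (κ / 3) := by
    have h1 := (isLittleO_log_rpow_atTop (show 0 < κ / 3 by linarith)).bound hc0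
    filter_upwards [tendsto_natCast_atTop_atTop.eventually h1, eventually_ge_atTop 1] with Y hY hY1
    have hY1r : (1 : ℝ) ≤ Y := by exact_mod_cast hY1
    rw [Real.norm_of_nonneg (Real.log_nonneg hY1r), Real.norm_of_nonneg (by positivity)] at hY
    exact hY
  obtain ⟨Y0, hY0⟩ := eventually_atTop.1 (ev1.and (ev2.and (eventually_ge_atTop 3)))
  refine ⟨Y0, ?_⟩
  intro Y hY l ζ hζ
  obtain ⟨e1, e2, e3⟩ := hY0 Y hY
  have hYr : (3 : ℝ) ≤ Y := by exact_mod_cast e3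
  have hYp : (0 : ℝ) < Y := by linarith
  have hlog : 0 < Real.log Y := Real.log_pos (by linarith)
  rw [vv_eq (l ^ 2) Y (by omega) ζ hζ, dens_eq]
  have hceil : ⌈(Y : ℝ) ^ ζ⌉₊ ≤ Y + 1 := by
    have h1 : (Y : ℝ) ^ ζ ≤ Y := by
      calc (Y : ℝ) ^ ζ ≤ (Y : ℝ) ^ (1 : ℝ) := Real.rpow_le_rpow_of_exponent_le (by linarith) hζ
        _ = Y := Real.rpow_one _
    have h2 : ⌈(Y : ℝ) ^ ζ⌉₊ ≤ Y := Nat.ceil_le.2 h1
    omega
  have hG := GG_anti hceil
  have hGp := GG_pos (Y + 1)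
  have hGp2 := GG_pos ⌈(Y : ℝ) ^ ζ⌉₊
  have h3 : (Y : ℝ) ^ (-(κ / 3)) ≤ GG (Y + 1) := by
    rw [Real.rpow_neg hYp.le]
    have hp : 0 < (Y : ℝ) ^ (κ / 3) := by positivity
    rw [inv_le_iff_one_le_mul₀ hp]
    have h4 : c * 1 ≤ c * (GG (Y + 1) * (Y : ℝ) ^ (κ / 3)) := by
      calc c * 1 = c := mul_one c
        _ ≤ GG (Y + 1) * Real.log Y := e1.le
        _ ≤ GG (Y + 1) * (c * (Y : ℝ) ^ (κ / 3)) := mul_le_mul_of_nonneg_left e2 hGp.le
        _ = _ := by ring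
    exact le_of_mul_le_mul_left h4 hc0
  have h5 : (Y : ℝ) ^ (-κ) = ((Y : ℝ) ^ (-(κ / 3))) ^ 3 := by
    rw [← Real.rpow_natCast, ← Real.rpow_mul hYp.le]
    congr 1
    push_cast
    ring
  have h6 : 0 ≤ (Y : ℝ) ^ (-(κ / 3)) := by positivity
  calc (Y : ℝ) ^ (-κ) = ((Y : ℝ) ^ (-(κ / 3))) ^ 3 := h5
    _ ≤ (GG ⌈(Y : ℝ) ^ ζ⌉₊) ^ 3 := pow_le_pow_left₀ h6 (h3.trans hG) 3
    _ = GG ⌈(Y : ℝ) ^ ζ⌉₊ * GG ⌈(Y : ℝ) ^ ζ⌉₊ ^ 2 := by ring
    _ ≤ _ := mul_le_mul_of_nonneg_left (GG_sq_le l _) hGp2.le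

end Pool.Agent.U529.FD
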