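import Pool.Agent.U529.FD.Few
import Pool.Agent.U529.FD.Loc2

/-! The linear sieve for `m ^ 2 + l ^ 2`, `m ≤ n`, for all but few `l ≤ n`. -/

set_option autoImplicit false

namespace Pool.Agent.U529.FD

open Finset Polynomial Filter
open Pool.Agent.N782.GN (S_DVB S_RLS)
open Pool.Agent.W23.DC
open Pool.Agent.Y882.PX
open Pool.Agent.Y882.SI
open Pool.Agent.Y882.JR
open Pool.Agent.Y882

open Classical in
/-- the sieve for one `l` whose error terms are small -/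
theorem eng_pt (Y n : ℕ) (ζ v δ₁ f1 F1 : ℝ) (hn : 3 ≤ n) (hδ₁ : 0 < δ₁) (hv1 : 1 ≤ v) (hvd : 2 / δ₁ ≤ v)
    (wU wL : Finset ℕ → ℝ) (l : ℤ)
    (c3 : ∀ N : ℕ, VV (PZ Y ζ) wL (fun p => if p ∣ N then 1 else 0) ≤
          (if ∀ p ∈ PZ Y ζ, ¬ p ∣ N then 1 else 0) ∧
        (if ∀ p ∈ PZ Y ζ, ¬ p ∣ N then 1 else 0) ≤
          VV (PZ Y ζ) wU (fun p => if p ∣ N then 1 else 0))
    (m1 : (f1 - δ₁ / 2) * vv (QF (l ^ 2)) Y ζ ≤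
      VV (PZ Y ζ) wL (fun p => (ro (QF (l ^ 2)) 0 p : ℝ) / p))
    (m2 : VV (PZ Y ζ) wU (fun p => (ro (QF (l ^ 2)) 0 p : ℝ) / p) ≤
      (F1 + δ₁ / 2) * vv (QF (l ^ 2)) Y ζ)
    (hV : v⁻¹ * v⁻¹ ≤ vv (QF (l ^ 2)) Y ζ)
    (g1 : |∑ T ∈ (PZ Y ζ).powerset, wU T * ri (QF (l ^ 2)) (∏ p ∈ T, p) n 0| ≤ (n : ℝ) / v ^ 10)
    (g2 : |∑ T ∈ (PZ Y ζ).powerset, wL T * ri (QF (l ^ 2)) (∏ p ∈ T, p) n 0| ≤ (n : ℝ) / v ^ 10) :
    (f1 - δ₁) * (n * vv (QF (l ^ 2)) Y ζ) ≤ rgh (QF (l ^ 2)) Y ζ n 0 ∧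
          rgh (QF (l ^ 2)) Y ζ n 0 ≤ (F1 + δ₁) * (n * vv (QF (l ^ 2)) Y ζ) := by
  have hnr : (3 : ℝ) ≤ n := by exact_mod_cast hn
  have hn0 : (0 : ℝ) < n := by linarith
  have hv0 : 0 < v := by linarith
  have hPZ : ∀ p ∈ PZ Y ζ, p.Prime := by
    intro p hp
    unfold PZ at hp
    rw [mem_filter] at hp
    exact hp.2.1
  set G : ℤ[X] := QF (l ^ 2) with hG
  have herr : (n : ℝ) / v ^ 10 ≤ δ₁ / 2 * (n * vv G Y ζ) := by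
    have h2 : 1 / v ^ 10 ≤ δ₁ / 2 * (v⁻¹ * v⁻¹) := by
      have h3 : δ₁ / 2 * (v⁻¹ * v⁻¹) = (δ₁ / 2) / v ^ 2 := by
        field_simp
      rw [h3, div_le_div_iff₀ (by positivity) (by positivity)]
      rw [div_le_iff₀ hδ₁] at hvd
      have h5 : (1 : ℝ) ≤ δ₁ / 2 * v := by linarith
      calc 1 * v ^ 2 ≤ (δ₁ / 2 * v) * v ^ 2 := mul_le_mul_of_nonneg_right h5 (by positivity)
        _ = δ₁ / 2 * v ^ 3 := by ring
        _ ≤ δ₁ / 2 * v ^ 10 := by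
          apply mul_le_mul_of_nonneg_left _ (by linarith)
          exact pow_le_pow_right₀ hv1 (by norm_num)
    calc (n : ℝ) / v ^ 10 = n * (1 / v ^ 10) := by ring
      _ ≤ n * (δ₁ / 2 * (v⁻¹ * v⁻¹)) := mul_le_mul_of_nonneg_left h2 hn0.le
      _ ≤ n * (δ₁ / 2 * vv G Y ζ) := by
        apply mul_le_mul_of_nonneg_left _ hn0.le
        apply mul_le_mul_of_nonneg_left hV (by linarith)
      _ = _ := by ring
  have hr : rgh G Y ζ n 0 = ∑ j ∈ Icc 1 n,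
      (if ∀ p ∈ PZ Y ζ, ¬ p ∣ (G.eval ((0 + j : ℕ) : ℤ)).natAbs then (1 : ℝ) else 0) := by
    unfold rgh
    rw [card_filter]
    push_cast
    rfl
  constructor
  · have g3 : ∑ j ∈ Icc 1 n, VV (PZ Y ζ) wL
        (fun p => if p ∣ (G.eval ((0 + j : ℕ) : ℤ)).natAbs then 1 else 0) ≤ rgh G Y ζ n 0 := by
      rw [hr]
      exact sum_le_sum fun j _ => (c3 _).1
    rw [wsum G (PZ Y ζ) hPZ wL n 0] at g3
    have g4 := mul_le_mul_of_nonneg_left m1 hn0.le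
    have g5 := neg_le_of_abs_le g2
    have g6 : (f1 - δ₁) * (n * vv G Y ζ) =
        n * ((f1 - δ₁ / 2) * vv G Y ζ) - δ₁ / 2 * (n * vv G Y ζ) := by ring
    rw [g6]
    linarith
  · have g3 : rgh G Y ζ n 0 ≤ ∑ j ∈ Icc 1 n, VV (PZ Y ζ) wU
        (fun p => if p ∣ (G.eval ((0 + j : ℕ) : ℤ)).natAbs then 1 else 0) := by
      rw [hr]
      exact sum_le_sum fun j _ => (c3 _).2
    rw [wsum G (PZ Y ζ) hPZ wU n 0] at g3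
    have g4 := mul_le_mul_of_nonneg_left m2 hn0.le
    have g5 := le_of_abs_le g1
    have g6 : (F1 + δ₁) * (n * vv G Y ζ) =
        n * ((F1 + δ₁ / 2) * vv G Y ζ) + δ₁ / 2 * (n * vv G Y ζ) := by ring
    rw [g6]
    linarith

/-- the densities -/
theorem dens_ok (Y : ℕ) (ζ : ℝ) (l : ℤ) :
    (∀ p ∈ PZ Y ζ, 0 ≤ (ro (QF (l ^ 2)) 0 p : ℝ) / p) ∧ (∀ p ∈ PZ Y ζ, (ro (QF (l ^ 2)) 0 p : ℝ) / p ≤ 1) ∧
      (∀ p ∈ PZ Y ζ, 2 < p → (ro (QF (l ^ 2)) 0 p : ℝ) / p ≤ ((2 : ℕ) : ℝ) / ((p : ℝ) - 1)) := by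
  have hPZ : ∀ p ∈ PZ Y ζ, p.Prime := by
    intro p hp
    unfold PZ at hp
    rw [mem_filter] at hp
    exact hp.2.1
  refine ⟨fun p _ => by positivity, ?_, ?_⟩
  · intro p hp
    have hp0 : (0 : ℝ) < p := by exact_mod_cast (hPZ p hp).pos
    have h1 : (ro (QF (l ^ 2)) 0 p : ℝ) ≤ p := Nat.cast_le.2 (ro_le_self _ _ _)
    rw [div_le_one hp0]
    exact h1
  · intro p hp _
    have hp0 : (2 : ℝ) ≤ p := by exact_mod_cast (hPZ p hp).two_le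
    have h1 : (ro (QF (l ^ 2)) 0 p : ℝ) ≤ ((2 : ℕ) : ℝ) := Nat.cast_le.2 (ro_quad_le (l ^ 2) p (hPZ p hp))
    apply div_le_div₀ (Nat.cast_nonneg _) h1 (by linarith) (by linarith)

open Classical in
/-- the sieve for the weights of `core5` -/
theorem eng_Y (h0 : S_DVB) (hR : S_RLS) (A0 : ℝ) (F f : ℝ → ℝ) (hSF : SF A0 F f) (τ ζ τ' δ δ₁ : ℝ) (hζ : 0 < ζ)
    (h1 : ζ ≤ τ) (hτ0 : 1 / 2 ≤ τ) (hττ' : τ < τ') (hτ' : τ' ≤ 1) (hδ0 : 0 < δ) (hδ1 : δ ≤ 1 / 100)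
    (hδ₁ : 0 < δ₁) :
    ∃ N0 : ℕ, ∀ n Y : ℕ, N0 ≤ n → Y = n ^ 2 → (((Icc (1 : ℤ) n).filter (fun l =>
      ¬ ((f (τ / ζ) - δ₁) * (n * vv (QF (l ^ 2)) Y ζ) ≤ rgh (QF (l ^ 2)) Y ζ n 0 ∧
          rgh (QF (l ^ 2)) Y ζ n 0 ≤ (F (τ / ζ) + δ₁) * (n * vv (QF (l ^ 2)) Y ζ)))).card : ℝ) ≤
        4 * (((n : ℝ) ^ δ) ^ 137 * ((n : ℝ) ^ (2 * τ') / n)) := by
  obtain ⟨ε₁, η, hε₁, hε₁ζ, hη, Y1, HC⟩ :=
    core5 2 A0 F f hSF τ ζ τ' (δ₁ / 2) hζ h1 (by linarith) hττ' (by linarith)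
  obtain ⟨N2, HE⟩ := few h0 hR δ hδ0 hδ1
  obtain ⟨Y3, HM⟩ := mer_l ε₁ ζ η hε₁ (by linarith) hη
  obtain ⟨Y4, HV⟩ := vv_lower δ hδ0
  have hXr : Tendsto (fun n : ℕ => (n : ℝ)) atTop atTop := tendsto_natCast_atTop_atTop
  have ev1 : ∀ᶠ n : ℕ in atTop, 10 * Real.log n ≤ (n : ℝ) ^ δ := by
    have h1 := (isLittleO_log_rpow_atTop hδ0).bound (show (0 : ℝ) < 1 / 10 by norm_num)
    filter_upwards [hXr.eventually h1, eventually_ge_atTop 1] with Y hY hY1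
    have hY1r : (1 : ℝ) ≤ Y := by exact_mod_cast hY1
    rw [Real.norm_of_nonneg (Real.log_nonneg hY1r), Real.norm_of_nonneg (by positivity)] at hY
    linarith
  have ev2 : ∀ᶠ n : ℕ in atTop, 2 / δ₁ + 4 ≤ (n : ℝ) ^ δ :=
    ((tendsto_rpow_atTop hδ0).comp hXr).eventually_ge_atTop _
  obtain ⟨N0, HN⟩ := eventually_atTop.1 (ev1.and (ev2.and ((eventually_ge_atTop 3).and
    ((eventually_ge_atTop Y1).and ((eventually_ge_atTop N2).and ((eventually_ge_atTop Y3).and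
    (eventually_ge_atTop Y4)))))))
  refine ⟨N0, ?_⟩
  intro n Y hn hY
  obtain ⟨e1, e2, e3, e4, e5, e6, e7⟩ := HN n hn
  have hnr : (3 : ℝ) ≤ n := by exact_mod_cast e3
  have hn0 : (0 : ℝ) < n := by linarith
  have hnn : n ≤ Y := by
    rw [hY]
    exact Nat.le_self_pow (by norm_num) n
  have hYr : (Y : ℝ) = (n : ℝ) ^ 2 := by
    rw [hY]
    push_cast
    ring
  clear hY
  set v : ℝ := (n : ℝ) ^ δ with hv
  have hd0 : 0 < 2 / δ₁ := by positivity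
  have hv1 : 1 ≤ v := by linarith
  have hv0 : 0 < v := by linarith
  obtain ⟨wU, wL, c1, c2, c3, c4⟩ := HC Y (e4.trans hnn)
  have hPZ : ∀ p ∈ PZ Y ζ, p.Prime := by
    intro p hp
    unfold PZ at hp
    rw [mem_filter] at hp
    exact hp.2.1
  have hlogY : Real.log (Y : ℝ) = 2 * Real.log n := by
    rw [hYr, Real.log_pow]
    norm_num
  have hDn : (Y : ℝ) ^ τ' = (n : ℝ) ^ (2 * τ') := by
    rw [hYr, ← Real.rpow_natCast, ← Real.rpow_mul hn0.le]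
    norm_num
  have hD1 : 1 ≤ (n : ℝ) ^ (2 * τ') := Real.one_le_rpow (by linarith) (by linarith)
  have hD2 : (n : ℝ) ^ (2 * τ') ≤ (n : ℝ) ^ 2 := by
    rw [← Real.rpow_natCast (n : ℝ) 2]
    apply Real.rpow_le_rpow_of_exponent_le (by linarith)
    push_cast
    linarith
  have hA1 := HE n e5 (PZ Y ζ) wU _ hPZ hD1 hD2
    (fun T => (c1 T).1.trans (by rw [hlogY]; linarith)) (fun T hT h0 => hDn ▸ c2 T hT (Or.inl h0))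
  have hA2 := HE n e5 (PZ Y ζ) wL _ hPZ hD1 hD2
    (fun T => (c1 T).2.trans (by rw [hlogY]; linarith)) (fun T hT h0 => hDn ▸ c2 T hT (Or.inr h0))
  have hsub : (Icc (1 : ℤ) n).filter (fun l =>
      ¬ ((f (τ / ζ) - δ₁) * (n * vv (QF (l ^ 2)) Y ζ) ≤ rgh (QF (l ^ 2)) Y ζ n 0 ∧
          rgh (QF (l ^ 2)) Y ζ n 0 ≤ (F (τ / ζ) + δ₁) * (n * vv (QF (l ^ 2)) Y ζ))) ⊆
      (Icc (1 : ℤ) n).filter (fun l => (n : ℝ) / v ^ 10 <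
        |∑ T ∈ (PZ Y ζ).powerset, wU T * ri (QF (l ^ 2)) (∏ p ∈ T, p) n 0|) ∪
      (Icc (1 : ℤ) n).filter (fun l => (n : ℝ) / v ^ 10 <
        |∑ T ∈ (PZ Y ζ).powerset, wL T * ri (QF (l ^ 2)) (∏ p ∈ T, p) n 0|) := by
    intro l hl
    rw [mem_filter] at hl
    rw [mem_union]
    by_contra hcon
    push Not at hcon
    obtain ⟨hc1, hc2⟩ := hcon
    apply hl.2
    have hl1 := mem_Icc.1 hl.1
    have hlY : (l : ℝ) ≤ Y := by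
      have h5 : (l : ℝ) ≤ (n : ℝ) := by exact_mod_cast hl1.2
      have h6 : (n : ℝ) ≤ (Y : ℝ) := by exact_mod_cast hnn
      linarith
    have hmer := HM Y (e6.trans hnn) l hl1.1 hlY
    have hV : v⁻¹ * v⁻¹ ≤ vv (QF (l ^ 2)) Y ζ := by
      have h5 := HV Y (e7.trans hnn) l ζ (by linarith)
      refine le_trans (le_of_eq ?_) h5
      rw [hv, ← Real.rpow_neg hn0.le, ← Real.rpow_add hn0, hYr]
      rw [← Real.rpow_natCast (n : ℝ) 2, ← Real.rpow_mul hn0.le]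
      congr 1
      push_cast
      ring
    obtain ⟨d1, d2, d3⟩ := dens_ok Y ζ l
    obtain ⟨m1, m2⟩ := c4 (fun p => (ro (QF (l ^ 2)) 0 p : ℝ) / p) d1 d2 d3 hmer
    refine eng_pt Y n ζ v δ₁ (f (τ / ζ)) (F (τ / ζ)) e3 hδ₁ hv1 (by linarith) wU wL l c3 m1 m2 hV ?_ ?_
    · by_contra h'
      exact hc1 (mem_filter.2 ⟨hl.1, not_le.1 h'⟩)
    · by_contra h'
      exact hc2 (mem_filter.2 ⟨hl.1, not_le.1 h'⟩)
  have h9 : (((Icc (1 : ℤ) n).filter (fun l =>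
      ¬ ((f (τ / ζ) - δ₁) * (n * vv (QF (l ^ 2)) Y ζ) ≤ rgh (QF (l ^ 2)) Y ζ n 0 ∧
          rgh (QF (l ^ 2)) Y ζ n 0 ≤ (F (τ / ζ) + δ₁) * (n * vv (QF (l ^ 2)) Y ζ)))).card : ℝ) ≤
      (((Icc (1 : ℤ) n).filter (fun l => (n : ℝ) / v ^ 10 <
        |∑ T ∈ (PZ Y ζ).powerset, wU T * ri (QF (l ^ 2)) (∏ p ∈ T, p) n 0|)).card : ℝ) +
      (((Icc (1 : ℤ) n).filter (fun l => (n : ℝ) / v ^ 10 <
        |∑ T ∈ (PZ Y ζ).powerset, wL T * ri (QF (l ^ 2)) (∏ p ∈ T, p) n 0|)).card : ℝ) := by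
    rw [← Nat.cast_add]
    exact Nat.cast_le.2 ((card_le_card hsub).trans (card_union_le _ _))
  linarith

open Classical in
/-- **The linear sieve for all but few `l`.** -/
theorem eng (h0 : S_DVB) (hR : S_RLS) (A0 : ℝ) (F f : ℝ → ℝ) (hSF : SF A0 F f) (τ ζ μ δ₁ : ℝ) (hζ : 0 < ζ)
    (h1 : ζ ≤ τ) (hτ0 : 1 / 2 ≤ τ) (hτ : τ < 1) (hμ : 2 * τ - 1 < μ) (hδ₁ : 0 < δ₁) :
    ∃ N0 : ℕ, ∀ n Y : ℕ, N0 ≤ n → Y = n ^ 2 → (((Icc (1 : ℤ) n).filter (fun l =>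
      ¬ ((f (τ / ζ) - δ₁) * (n * vv (QF (l ^ 2)) Y ζ) ≤ rgh (QF (l ^ 2)) Y ζ n 0 ∧
          rgh (QF (l ^ 2)) Y ζ n 0 ≤ (F (τ / ζ) + δ₁) * (n * vv (QF (l ^ 2)) Y ζ)))).card : ℝ) ≤
        (n : ℝ) ^ μ := by
  obtain ⟨s, hs0, hs1, hs2⟩ : ∃ s : ℝ, 0 < s ∧ s ≤ (1 - τ) / 2 ∧ s ≤ (μ - (2 * τ - 1)) / 8 :=
    ⟨min ((1 - τ) / 2) ((μ - (2 * τ - 1)) / 8), lt_min (by linarith) (by linarith), min_le_left _ _,
      min_le_right _ _⟩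
  obtain ⟨δ, hδ0, hδ1, hδ2⟩ : ∃ δ : ℝ, 0 < δ ∧ δ ≤ 1 / 100 ∧ δ ≤ (μ - (2 * (τ + s) - 1)) / 300 :=
    ⟨min (1 / 100) ((μ - (2 * (τ + s) - 1)) / 300), lt_min (by norm_num) (by linarith), min_le_left _ _,
      min_le_right _ _⟩
  obtain ⟨N0, H⟩ := eng_Y h0 hR A0 F f hSF τ ζ (τ + s) δ δ₁ hζ h1 hτ0 (by linarith) (by linarith) hδ0 hδ1 hδ₁
  have hXr : Tendsto (fun n : ℕ => (n : ℝ)) atTop atTop := tendsto_natCast_atTop_atTop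
  have ev2 : ∀ᶠ n : ℕ in atTop, 4 ≤ (n : ℝ) ^ δ :=
    ((tendsto_rpow_atTop hδ0).comp hXr).eventually_ge_atTop _
  obtain ⟨N1, HN⟩ := eventually_atTop.1 (ev2.and (eventually_ge_atTop 3))
  refine ⟨max N0 N1, ?_⟩
  intro n Y hn hY
  obtain ⟨e1, e3⟩ := HN n ((le_max_right _ _).trans hn)
  have hnr : (3 : ℝ) ≤ n := by exact_mod_cast e3
  have hn0 : (0 : ℝ) < n := by linarith
  refine (H n Y ((le_max_left _ _).trans hn) hY).trans ?_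
  calc 4 * (((n : ℝ) ^ δ) ^ 137 * ((n : ℝ) ^ (2 * (τ + s)) / n)) ≤
      (n : ℝ) ^ δ * (((n : ℝ) ^ δ) ^ 137 * ((n : ℝ) ^ (2 * (τ + s)) / n)) :=
        mul_le_mul_of_nonneg_right e1 (by positivity)
    _ = (n : ℝ) ^ (138 * δ + 2 * (τ + s) - 1) := by
        have h5 : ((n : ℝ) ^ δ) ^ 137 = (n : ℝ) ^ (137 * δ) := by
          rw [← Real.rpow_natCast, ← Real.rpow_mul hn0.le]
          congr 1
          push_cast
          ring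
        rw [h5, ← Real.rpow_sub_one hn0.ne', ← Real.rpow_add hn0, ← Real.rpow_add hn0]
        congr 1
        ring
    _ ≤ (n : ℝ) ^ μ := by
        apply Real.rpow_le_rpow_of_exponent_le (by linarith)
        linarith

end Pool.Agent.U529.FD
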