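import Pool.Agent.N782.GN.Defs

/-! The condition `q ∣ N(z)`, `q` squarefree, as a combination of the conditions `a ∣ z` in the Gaussian integers. -/

set_option autoImplicit false

namespace Pool.Agent.U529.FD

open Finset
open Pool.Agent.N782.GN

/-- the indicator of `a ∣ z` -/
noncomputable def dvi (a z : ZI) : ℝ := by
  classical
  exact if a ∣ z then 1 else 0

theorem dvi_pos {a z : ZI} (h : a ∣ z) : dvi a z = 1 := by
  unfold dvi
  rw [if_pos h]

theorem dvi_neg {a z : ZI} (h : ¬ a ∣ z) : dvi a z = 0 := by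
  unfold dvi
  rw [if_neg h]

/-- the expansion for one `q` -/
def Exq (q : ℕ) (k : ℕ) : Prop := ∃ (ι : Type) (_ : Fintype ι) (a : ι → ZI) (σ : ι → ℝ), Fintype.card ι ≤ k ∧
  (∀ i, |σ i| ≤ 1 ∧ ∃ g : ℕ, g ∣ q ∧ ((g : ℕ) : ZI) ∣ a i ∧ Zsqrtd.norm (a i) = g * q) ∧
  (∀ z : ZI, (if (q : ℤ) ∣ Zsqrtd.norm z then (1 : ℝ) else 0) = ∑ i, σ i * dvi (a i) z)

theorem norm_cast_nat (n : ℕ) : Zsqrtd.norm ((n : ℕ) : ZI) = (n : ℤ) * n := by
  rw [Zsqrtd.norm_natCast]

theorem dvd_norm_self (a : ZI) : a ∣ ((Zsqrtd.norm a : ℤ) : ZI) := by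
  rw [Zsqrtd.norm_eq_mul_conj]
  exact dvd_mul_right _ _

theorem exq_one : Exq 1 1 := by
  refine ⟨Unit, inferInstance, fun _ => 1, fun _ => 1, by simp, ?_, ?_⟩
  · intro i
    refine ⟨by simp, 1, dvd_rfl, by simp, by simp⟩
  · intro z
    rw [if_pos (by simp)]
    simp [dvi_pos (one_dvd z)]

theorem coprime_ZI (a b : ZI) (h : IsCoprime (Zsqrtd.norm a) (Zsqrtd.norm b)) : IsCoprime a b := by
  have h1 : IsCoprime ((Zsqrtd.norm a : ℤ) : ZI) ((Zsqrtd.norm b : ℤ) : ZI) := by
    have := h.map (Int.castRingHom ZI)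
    simpa using this
  exact (h1.of_isCoprime_of_dvd_left (dvd_norm_self a)).of_isCoprime_of_dvd_right (dvd_norm_self b)

theorem dvi_mul (a b z : ZI) (h : IsCoprime a b) : dvi a z * dvi b z = dvi (a * b) z := by
  by_cases h1 : a ∣ z
  · by_cases h2 : b ∣ z
    · rw [dvi_pos h1, dvi_pos h2, dvi_pos (h.mul_dvd h1 h2), one_mul]
    · rw [dvi_neg h2, dvi_neg (fun h3 => h2 (dvd_trans (dvd_mul_left _ _) h3)), mul_zero]
  · rw [dvi_neg h1, dvi_neg (fun h3 => h1 (dvd_trans (dvd_mul_right _ _) h3)), zero_mul]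

theorem exq_mul (q r k l : ℕ) (hqr : Nat.Coprime q r) (hq : Exq q k) (hr : Exq r l) : Exq (q * r) (k * l) := by
  obtain ⟨ι, hι, a, σ, h1, h2, h3⟩ := hq
  obtain ⟨κ, hκ, b, τ, g1, g2, g3⟩ := hr
  refine ⟨ι × κ, inferInstance, fun p => a p.1 * b p.2, fun p => σ p.1 * τ p.2, ?_, ?_, ?_⟩
  · rw [Fintype.card_prod]
    exact Nat.mul_le_mul h1 g1
  · rintro ⟨i, j⟩
    obtain ⟨e1, g, e2, e3, e4⟩ := h2 i
    obtain ⟨f1, g', f2, f3, f4⟩ := g2 j
    refine ⟨?_, g * g', Nat.mul_dvd_mul e2 f2, ?_, ?_⟩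
    · rw [abs_mul]
      exact mul_le_one₀ e1 (abs_nonneg _) f1
    · push_cast
      exact mul_dvd_mul e3 f3
    · simp only
      rw [Zsqrtd.norm_mul, e4, f4]
      push_cast
      ring
  · intro z
    have hsum : ∑ p : ι × κ, σ p.1 * τ p.2 * dvi (a p.1 * b p.2) z =
        (∑ i, σ i * dvi (a i) z) * ∑ j, τ j * dvi (b j) z := by
      rw [Fintype.sum_prod_type, Finset.sum_mul_sum]
      apply sum_congr rfl
      intro i _
      apply sum_congr rfl
      intro j _
      have hco : IsCoprime (a i) (b j) := by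
        apply coprime_ZI
        obtain ⟨_, g, e2, e3, e4⟩ := h2 i
        obtain ⟨_, g', f2, f3, f4⟩ := g2 j
        rw [e4, f4]
        have hc : IsCoprime ((q : ℕ) : ℤ) ((r : ℕ) : ℤ) := Nat.isCoprime_iff_coprime.2 hqr
        have hg1 : ((g : ℕ) : ℤ) ∣ ((q : ℕ) : ℤ) := by exact_mod_cast e2
        have hg2 : ((g' : ℕ) : ℤ) ∣ ((r : ℕ) : ℤ) := by exact_mod_cast f2
        have c1 : IsCoprime ((g : ℕ) : ℤ) ((r : ℕ) : ℤ) := hc.of_isCoprime_of_dvd_left hg1
        have c2 : IsCoprime ((g : ℕ) * (q : ℕ) : ℤ) ((r : ℕ) : ℤ) := IsCoprime.mul_left c1 hc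
        have c3 : IsCoprime ((g : ℕ) * (q : ℕ) : ℤ) ((g' : ℕ) : ℤ) := c2.of_isCoprime_of_dvd_right hg2
        exact IsCoprime.mul_right c3 c2
      rw [← dvi_mul _ _ _ hco]
      ring
    rw [hsum, ← h3 z, ← g3 z]
    have hc : IsCoprime ((q : ℕ) : ℤ) ((r : ℕ) : ℤ) := Nat.isCoprime_iff_coprime.2 hqr
    push_cast
    by_cases k1 : (q : ℤ) ∣ Zsqrtd.norm z
    · by_cases k2 : (r : ℤ) ∣ Zsqrtd.norm z
      · rw [if_pos k1, if_pos k2, if_pos (hc.mul_dvd k1 k2), one_mul]
      · rw [if_neg k2, if_neg (fun h => k2 (dvd_trans (dvd_mul_left _ _) h)), mul_zero]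
    · rw [if_neg k1, if_neg (fun h => k1 (dvd_trans (dvd_mul_right _ _) h)), zero_mul]

/-- `p = 2` -/
theorem exq_two : Exq 2 3 := by
  refine ⟨Unit, inferInstance, fun _ => ⟨1, 1⟩, fun _ => 1, by simp, ?_, ?_⟩
  · intro i
    refine ⟨by simp, 1, one_dvd _, by simp, ?_⟩
    rw [Zsqrtd.norm_def]
    norm_num
  · intro z
    obtain ⟨x, y⟩ := z
    have hiff : ((2 : ℕ) : ℤ) ∣ Zsqrtd.norm (⟨x, y⟩ : ZI) ↔ (⟨1, 1⟩ : ZI) ∣ (⟨x, y⟩ : ZI) := by
      rw [Zsqrtd.norm_def]
      simp only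
      constructor
      · intro h
        have h2 : (x + y) % 2 = 0 := by
          have h3 : (x * x - -1 * y * y) % 2 = 0 := Int.emod_eq_zero_of_dvd (by exact_mod_cast h)
          rcases Int.emod_two_eq_zero_or_one x with hx | hx <;>
            rcases Int.emod_two_eq_zero_or_one y with hy | hy <;>
            simp [Int.mul_emod, Int.add_emod, hx, hy] at h3 ⊢
        obtain ⟨c, hc⟩ := Int.dvd_of_emod_eq_zero h2
        refine ⟨⟨c, c - x⟩, ?_⟩
        apply Zsqrtd.ext
        · simp only [Zsqrtd.re_mul]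
          ring
        · simp only [Zsqrtd.im_mul]
          linarith
      · rintro ⟨⟨u, v⟩, h⟩
        have h1 := congrArg Zsqrtd.re h
        have h2 := congrArg Zsqrtd.im h
        simp only [Zsqrtd.re_mul, Zsqrtd.im_mul] at h1 h2
        refine ⟨u * u + v * v, ?_⟩
        rw [h1, h2]
        push_cast
        ring
    by_cases h : (⟨1, 1⟩ : ZI) ∣ (⟨x, y⟩ : ZI)
    · rw [if_pos (hiff.2 h)]
      simp [dvi_pos h]
    · rw [if_neg (fun h' => h (hiff.1 h'))]
      simp [dvi_neg h]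

/-- `p ≡ 3 mod 4` -/
theorem exq_three (p : ℕ) (hp : p.Prime) (h3 : p % 4 = 3) : Exq p 3 := by
  have : Fact p.Prime := ⟨hp⟩
  have hpr : Prime ((p : ℕ) : ZI) := GaussianInt.prime_of_nat_prime_of_mod_four_eq_three p h3
  refine ⟨Unit, inferInstance, fun _ => ((p : ℕ) : ZI), fun _ => 1, by simp, ?_, ?_⟩
  · intro i
    refine ⟨by simp, p, dvd_rfl, dvd_rfl, ?_⟩
    rw [Zsqrtd.norm_natCast]
  · intro z
    have hiff : (p : ℤ) ∣ Zsqrtd.norm z ↔ ((p : ℕ) : ZI) ∣ z := by
      constructor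
      · intro h
        have h1 : ((p : ℕ) : ZI) ∣ z * star z := by
          rw [← Zsqrtd.norm_eq_mul_conj]
          obtain ⟨c, hc⟩ := h
          rw [hc]
          exact ⟨(c : ZI), by push_cast; ring⟩
        rcases hpr.dvd_or_dvd h1 with h2 | h2
        · exact h2
        · obtain ⟨w, hw⟩ := h2
          refine ⟨star w, ?_⟩
          have h4 := congrArg star hw
          rw [star_star, star_mul'] at h4
          rw [h4]
          congr 1
      · rintro ⟨w, hw⟩
        rw [hw, Zsqrtd.norm_mul, Zsqrtd.norm_natCast]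
        exact ⟨p * Zsqrtd.norm w, by ring⟩
    by_cases h : ((p : ℕ) : ZI) ∣ z
    · rw [if_pos (hiff.2 h)]
      simp [dvi_pos h]
    · rw [if_neg (fun h' => h (hiff.1 h'))]
      simp [dvi_neg h]

theorem prime_of_norm (w : ZI) (p : ℕ) (hp : p.Prime) (h : Zsqrtd.norm w = p) : Prime w := by
  rw [← irreducible_iff_prime]
  constructor
  · intro hu
    have := (Zsqrtd.norm_eq_one_iff' (by norm_num) w).2 hu
    rw [h] at this
    have h2 := hp.one_lt
    omega
  · intro a b hab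
    have h1 : Zsqrtd.norm a * Zsqrtd.norm b = p := by rw [← Zsqrtd.norm_mul, ← hab, h]
    have ha : 0 ≤ Zsqrtd.norm a := GaussianInt.norm_nonneg a
    have hb : 0 ≤ Zsqrtd.norm b := GaussianInt.norm_nonneg b
    obtain ⟨m, hm⟩ := Int.eq_ofNat_of_zero_le ha
    obtain ⟨n, hn⟩ := Int.eq_ofNat_of_zero_le hb
    rw [hm, hn] at h1
    have h2 : m * n = p := by exact_mod_cast h1
    rcases (Nat.prime_mul_iff.1 (h2 ▸ hp)) with ⟨_, h4⟩ | ⟨_, h4⟩
    · right
      rw [← Zsqrtd.norm_eq_one_iff' (by norm_num), hn, h4]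
      rfl
    · left
      rw [← Zsqrtd.norm_eq_one_iff' (by norm_num), hm, h4]
      rfl

/-- `p ≡ 1 mod 4` -/
theorem exq_odd (p : ℕ) (hp : p.Prime) (h3 : p % 4 = 1) : Exq p 3 := by
  have : Fact p.Prime := ⟨hp⟩
  obtain ⟨u, v, huv⟩ := Nat.Prime.sq_add_sq (p := p) (by omega)
  set w : ZI := ⟨u, v⟩ with hw
  set w' : ZI := ⟨u, -v⟩ with hw'
  have hnw : Zsqrtd.norm w = p := by
    rw [Zsqrtd.norm_def, hw]
    simp only
    rw [← huv]
    push_cast
    ring
  have hnw' : Zsqrtd.norm w' = p := by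
    rw [Zsqrtd.norm_def, hw']
    simp only
    rw [← huv]
    push_cast
    ring
  have hww : w * w' = ((p : ℕ) : ZI) := by
    apply Zsqrtd.ext
    · simp only [hw, hw', Zsqrtd.re_mul, Zsqrtd.re_natCast]
      rw [← huv]
      push_cast
      ring
    · simp only [hw, hw', Zsqrtd.im_mul, Zsqrtd.im_natCast]
      ring
  have hpw := prime_of_norm w p hp hnw
  have hco : IsCoprime w w' := by
    have hu : IsCoprime (2 * (u : ℤ)) (p : ℤ) := by
      have h5 : Nat.Coprime (2 * u) p := by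
        rw [Nat.coprime_comm, hp.coprime_iff_not_dvd]
        intro h
        rcases (Nat.Prime.dvd_mul hp).1 h with h6 | h6
        · have := Nat.le_of_dvd (by norm_num) h6
          have := hp.two_le
          omega
        · have hu0 : u ≠ 0 := by
            rintro rfl
            have h7 : v * v = p := by rw [← huv]; ring
            have h8 := Nat.prime_mul_iff.1 (h7 ▸ hp)
            rcases h8 with ⟨h9, h10⟩ | ⟨h9, h10⟩ <;> (rw [h10] at h9; exact absurd h9 (by norm_num))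
          have h7 := Nat.le_of_dvd (Nat.pos_of_ne_zero hu0) h6
          have h8 : p * p ≤ u * u := Nat.mul_le_mul h7 h7
          have h9 := hp.two_le
          nlinarith
      have := Nat.isCoprime_iff_coprime.2 h5
      push_cast at this
      exact this
    obtain ⟨s, t, hst⟩ := hu
    refine ⟨((s : ℤ) : ZI) + ((t : ℤ) : ZI) * w', ((s : ℤ) : ZI), ?_⟩
    have h6 : w + w' = ((2 * (u : ℤ) : ℤ) : ZI) := by
      apply Zsqrtd.ext
      · simp only [hw, hw', Zsqrtd.re_add, Zsqrtd.re_intCast]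
        ring
      · simp only [hw, hw', Zsqrtd.im_add, Zsqrtd.im_intCast]
        ring
    calc (((s : ℤ) : ZI) + ((t : ℤ) : ZI) * w') * w + ((s : ℤ) : ZI) * w' =
        ((s : ℤ) : ZI) * (w + w') + ((t : ℤ) : ZI) * (w * w') := by ring
      _ = ((s * (2 * u) + t * p : ℤ) : ZI) := by
        rw [h6, hww]
        push_cast
        ring
      _ = 1 := by rw [hst]; simp
  refine ⟨Fin 3, inferInstance, ![w, w', ((p : ℕ) : ZI)], ![1, 1, -1], by simp, ?_, ?_⟩
  · intro i
    fin_cases i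
    · exact ⟨by simp, 1, one_dvd _, by simp, by simp [hnw]⟩
    · exact ⟨by simp, 1, one_dvd _, by simp, by simp [hnw']⟩
    · exact ⟨by simp, p, dvd_rfl, dvd_rfl, by simp [Zsqrtd.norm_natCast]⟩
  · intro z
    have hiff : (p : ℤ) ∣ Zsqrtd.norm z ↔ (w ∣ z ∨ w' ∣ z) := by
      constructor
      · intro h
        have h1 : w ∣ z * star z := by
          rw [← Zsqrtd.norm_eq_mul_conj]
          obtain ⟨c, hc⟩ := h
          rw [hc]
          refine (Dvd.intro w' hww).trans ⟨(c : ZI), by push_cast; ring⟩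
        rcases hpw.dvd_or_dvd h1 with h2 | h2
        · exact Or.inl h2
        · right
          obtain ⟨x, hx⟩ := h2
          refine ⟨star x, ?_⟩
          have h4 := congrArg star hx
          rw [star_star, star_mul'] at h4
          rw [h4]
          congr 1
      · rintro (⟨x, hx⟩ | ⟨x, hx⟩)
        · rw [hx, Zsqrtd.norm_mul, hnw]
          exact dvd_mul_right _ _
        · rw [hx, Zsqrtd.norm_mul, hnw']
          exact dvd_mul_right _ _
    rw [Fin.sum_univ_three]
    simp only [Matrix.cons_val_zero, Matrix.cons_val_one, Matrix.cons_val]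
    rw [← hww, ← dvi_mul w w' z hco]
    by_cases k1 : w ∣ z
    · by_cases k2 : w' ∣ z
      · rw [if_pos (hiff.2 (Or.inl k1)), dvi_pos k1, dvi_pos k2]
        norm_num
      · rw [if_pos (hiff.2 (Or.inl k1)), dvi_pos k1, dvi_neg k2]
        norm_num
    · by_cases k2 : w' ∣ z
      · rw [if_pos (hiff.2 (Or.inr k2)), dvi_neg k1, dvi_pos k2]
        norm_num
      · rw [if_neg (fun h => (hiff.1 h).elim k1 k2), dvi_neg k1, dvi_neg k2]
        norm_num

theorem exq_prime (p : ℕ) (hp : p.Prime) : Exq p 3 := by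
  rcases hp.eq_two_or_odd with h | h
  · rw [h]
    exact exq_two
  · have h4 : p % 4 = 1 ∨ p % 4 = 3 := by omega
    rcases h4 with h4 | h4
    · exact exq_odd p hp h4
    · exact exq_three p hp h4

theorem exq (T : Finset ℕ) (hT : ∀ p ∈ T, p.Prime) : Exq (∏ p ∈ T, p) (3 ^ T.card) := by
  induction T using Finset.induction_on with
  | empty => simpa using exq_one
  | insert p T hpT ih =>
    rw [prod_insert hpT, card_insert_of_notMem hpT, pow_succ, mul_comm (3 ^ T.card) 3]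
    apply exq_mul
    · apply Nat.Coprime.prod_right
      intro r hr
      rw [Nat.coprime_primes (hT p (mem_insert_self _ _)) (hT r (mem_insert_of_mem hr))]
      rintro rfl
      exact hpT hr
    · exact exq_prime p (hT p (mem_insert_self _ _))
    · exact ih (fun r hr => hT r (mem_insert_of_mem hr))

end Pool.Agent.U529.FD
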