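import Pool.Agent.U529.FD.Tot
import Pool.Agent.Y882.JR.Eng
import Pool.Agent.N7.GN.Rls3
import Pool.Agent.N407.GN.Dvb

/-! Few `l` have a large error term. -/

set_option autoImplicit false

namespace Pool.Agent.U529.FD

open Finset Polynomial Filter
open Pool.Agent.N782.GN
open Pool.Agent.Y882.PX
open Pool.Agent.Y882.SI

theorem few_alg (C v n D e : ℝ) (hC : 0 < C) (hv : 1 ≤ v) (hn : 0 < n) (hD : 0 ≤ D) (he : 0 ≤ e)
    (a1 : 4 * C ≤ v) (a2 : 4 * C * v ^ 18 ≤ n) (a3 : 4 * C ^ 2 ≤ v)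
    (h : e * (n / v ^ 10) ≤ v * (C * (v ^ 57 * Real.sqrt (D * n * e) + e * (n / v ^ 17 + v ^ 7)))) :
    e ≤ v ^ 137 * (D / n) := by
  have hv0 : 0 < v := by linarith
  have hvp : ∀ a b : ℕ, a ≤ b → v ^ a ≤ v ^ b := fun a b hab => pow_le_pow_right₀ hv hab
  have b1 : C * v * (n / v ^ 17) ≤ n / v ^ 10 / 4 := by
    have h1 : C * v * (n / v ^ 17) = (4 * C) * (n / v ^ 16) / 4 := by field_simp
    rw [h1]
    have h2 : (4 * C) * (n / v ^ 16) ≤ n / v ^ 10 := by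
      calc (4 * C) * (n / v ^ 16) ≤ v ^ 6 * (n / v ^ 16) := by
            apply mul_le_mul_of_nonneg_right _ (by positivity)
            calc 4 * C ≤ v := a1
              _ = v ^ 1 := (pow_one v).symm
              _ ≤ v ^ 6 := hvp 1 6 (by norm_num)
        _ = n / v ^ 10 := by field_simp
    linarith
  have b2 : C * v * v ^ 7 ≤ n / v ^ 10 / 4 := by
    rw [le_div_iff₀ (by norm_num : (0 : ℝ) < 4), le_div_iff₀ (by positivity)]
    calc C * v * v ^ 7 * 4 * v ^ 10 = 4 * C * v ^ 18 := by ring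
      _ ≤ n := a2
  have b3 : e * (n / v ^ 10) / 2 ≤ C * v ^ 58 * Real.sqrt (D * n * e) := by
    have h3 : v * (C * (v ^ 57 * Real.sqrt (D * n * e) + e * (n / v ^ 17 + v ^ 7))) =
        C * v ^ 58 * Real.sqrt (D * n * e) + e * (C * v * (n / v ^ 17) + C * v * v ^ 7) := by ring
    rw [h3] at h
    have h4 : e * (C * v * (n / v ^ 17) + C * v * v ^ 7) ≤ e * (n / v ^ 10 / 4 + n / v ^ 10 / 4) :=
      mul_le_mul_of_nonneg_left (add_le_add b1 b2) he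
    have h5 : e * (n / v ^ 10 / 4 + n / v ^ 10 / 4) = e * (n / v ^ 10) / 2 := by ring
    linarith
  rcases he.eq_or_lt with h0 | h0
  · rw [← h0]
    positivity
  have b4 : (e * (n / v ^ 10) / 2) ^ 2 ≤ (C * v ^ 58) ^ 2 * (D * n * e) := by
    calc (e * (n / v ^ 10) / 2) ^ 2 ≤ (C * v ^ 58 * Real.sqrt (D * n * e)) ^ 2 :=
          pow_le_pow_left₀ (by positivity) b3 2
      _ = (C * v ^ 58) ^ 2 * (D * n * e) := by
        rw [mul_pow, Real.sq_sqrt (by positivity)]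
  have b5 : e ≤ 4 * C ^ 2 * v ^ 136 * (D / n) := by
    have h6 : (e * (n / v ^ 10) / 2) ^ 2 = e * (e * (n ^ 2 / (4 * v ^ 20))) := by
      field_simp
      ring
    have h7 : (C * v ^ 58) ^ 2 * (D * n * e) = e * (C ^ 2 * v ^ 116 * (D * n)) := by ring
    rw [h6, h7] at b4
    have h8 := le_of_mul_le_mul_left b4 h0
    have h9 : 0 < n ^ 2 / (4 * v ^ 20) := by positivity
    have h10 : 4 * C ^ 2 * v ^ 136 * (D / n) * (n ^ 2 / (4 * v ^ 20)) = C ^ 2 * v ^ 116 * (D * n) := by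
      field_simp
    rw [← h10] at h8
    exact le_of_mul_le_mul_right h8 h9
  calc e ≤ 4 * C ^ 2 * v ^ 136 * (D / n) := b5
    _ ≤ v * v ^ 136 * (D / n) := by gcongr
    _ = _ := by ring

/-- **Few `l` have a large error term** (one sign). -/
theorem few1 (h0 : S_DVB) (h1 : S_RLS) (δ : ℝ) (hδ0 : 0 < δ) (hδ1 : δ ≤ 1 / 100) : ∃ N0 : ℕ, ∀ n : ℕ, N0 ≤ n →
    ∀ (P : Finset ℕ) (w : Finset ℕ → ℝ) (D : ℝ), (∀ p ∈ P, p.Prime) → 1 ≤ D → D ≤ (n : ℝ) ^ 2 →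
      (∀ T, |w T| ≤ (n : ℝ) ^ δ) → (∀ T ⊆ P, w T ≠ 0 → ((∏ p ∈ T, p : ℕ) : ℝ) ≤ D) →
      (((Icc (1 : ℤ) n).filter (fun l => (n : ℝ) / ((n : ℝ) ^ δ) ^ 10 <
        ∑ T ∈ P.powerset, w T * ri (QF (l ^ 2)) (∏ p ∈ T, p) n 0)).card : ℝ) ≤
          ((n : ℝ) ^ δ) ^ 137 * (D / n) := by
  classical
  obtain ⟨C, hC, H⟩ := tot h0 h1 δ hδ0 hδ1
  have hXr : Tendsto (fun n : ℕ => (n : ℝ)) atTop atTop := tendsto_natCast_atTop_atTop
  have ev1 : ∀ᶠ n : ℕ in atTop, 4 * C + 4 * C ^ 2 ≤ (n : ℝ) ^ δ :=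
    ((tendsto_rpow_atTop hδ0).comp hXr).eventually_ge_atTop _
  have ev2 : ∀ᶠ n : ℕ in atTop, 4 * C ≤ (n : ℝ) ^ (1 / 2 : ℝ) :=
    ((tendsto_rpow_atTop (by norm_num)).comp hXr).eventually_ge_atTop _
  obtain ⟨N0, hN0⟩ := eventually_atTop.1 (ev1.and (ev2.and (eventually_ge_atTop 2)))
  refine ⟨N0, ?_⟩
  intro n hn P w D hP hD1 hD2 hw hwD
  obtain ⟨e1, e2, e3⟩ := hN0 n hn
  have hnr : (2 : ℝ) ≤ n := by exact_mod_cast e3
  have hn0 : (0 : ℝ) < n := by linarith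
  set v : ℝ := (n : ℝ) ^ δ with hv
  have hv1 : 1 ≤ v := Real.one_le_rpow (by linarith) hδ0.le
  have hv0 : 0 < v := by linarith
  set E : Finset ℤ := (Icc (1 : ℤ) n).filter (fun l => (n : ℝ) / v ^ 10 <
        ∑ T ∈ P.powerset, w T * ri (QF (l ^ 2)) (∏ p ∈ T, p) n 0) with hE
  set TT : Finset (Finset ℕ) := P.powerset.filter (fun T => w T ≠ 0) with hTT
  have hEl : ∀ l ∈ E, 1 ≤ l ∧ (l : ℝ) ≤ n := by
    intro l hl
    rw [hE, mem_filter, mem_Icc] at hl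
    exact ⟨hl.1.1, by exact_mod_cast hl.1.2⟩
  have h2 := H n D E TT e3 hD1 hD2 hEl (by
    intro T hT
    rw [hTT, mem_filter, mem_powerset] at hT
    exact ⟨fun p hp => hP p (hT.1 hp), hwD T hT.1 hT.2⟩)
  have h3 : (E.card : ℝ) * (n / v ^ 10) ≤
      v * (C * (v ^ 57 * Real.sqrt (D * n * E.card) + E.card * (n / v ^ 17 + v ^ 7))) := by
    calc (E.card : ℝ) * (n / v ^ 10) = ∑ _l ∈ E, (n : ℝ) / v ^ 10 := by rw [sum_const, nsmul_eq_mul]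
      _ ≤ ∑ l ∈ E, ∑ T ∈ P.powerset, w T * ri (QF (l ^ 2)) (∏ p ∈ T, p) n 0 := by
        apply sum_le_sum
        intro l hl
        rw [hE, mem_filter] at hl
        exact hl.2.le
      _ = ∑ T ∈ P.powerset, w T * ∑ l ∈ E, ri (QF (l ^ 2)) (∏ p ∈ T, p) n 0 := by
        rw [sum_comm]
        simp_rw [mul_sum]
      _ = ∑ T ∈ TT, w T * ∑ l ∈ E, ri (QF (l ^ 2)) (∏ p ∈ T, p) n 0 := by
        rw [hTT, sum_filter]
        apply sum_congr rfl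
        intro T _
        split_ifs with h
        · rfl
        · push Not at h
          rw [h, zero_mul]
      _ ≤ ∑ T ∈ TT, v * |∑ l ∈ E, ri (QF (l ^ 2)) (∏ p ∈ T, p) n 0| := by
        apply sum_le_sum
        intro T _
        refine (le_abs_self _).trans ?_
        rw [abs_mul]
        exact mul_le_mul_of_nonneg_right (hw T) (abs_nonneg _)
      _ = v * ∑ T ∈ TT, |∑ l ∈ E, ri (QF (l ^ 2)) (∏ p ∈ T, p) n 0| := by rw [mul_sum]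
      _ ≤ _ := mul_le_mul_of_nonneg_left h2 hv0.le
  have hC2 : 0 < C ^ 2 := by positivity
  refine few_alg C v n D E.card hC hv1 hn0 (by linarith) (Nat.cast_nonneg _) (by linarith) ?_ (by linarith) h3
  calc 4 * C * v ^ 18 ≤ (n : ℝ) ^ (1 / 2 : ℝ) * (n : ℝ) ^ (1 / 2 : ℝ) := by
        apply mul_le_mul e2 _ (by positivity) (by positivity)
        rw [hv, ← Real.rpow_natCast, ← Real.rpow_mul hn0.le]
        apply Real.rpow_le_rpow_of_exponent_le (by linarith)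
        push_cast
        linarith
    _ = n := by
        rw [← Real.rpow_add hn0]
        norm_num

theorem few (h0 : S_DVB) (h1 : S_RLS) (δ : ℝ) (hδ0 : 0 < δ) (hδ1 : δ ≤ 1 / 100) : ∃ N0 : ℕ, ∀ n : ℕ, N0 ≤ n →
    ∀ (P : Finset ℕ) (w : Finset ℕ → ℝ) (D : ℝ), (∀ p ∈ P, p.Prime) → 1 ≤ D → D ≤ (n : ℝ) ^ 2 →
      (∀ T, |w T| ≤ (n : ℝ) ^ δ) → (∀ T ⊆ P, w T ≠ 0 → ((∏ p ∈ T, p : ℕ) : ℝ) ≤ D) →
      (((Icc (1 : ℤ) n).filter (fun l => (n : ℝ) / ((n : ℝ) ^ δ) ^ 10 <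
        |∑ T ∈ P.powerset, w T * ri (QF (l ^ 2)) (∏ p ∈ T, p) n 0|)).card : ℝ) ≤
          2 * (((n : ℝ) ^ δ) ^ 137 * (D / n)) := by
  classical
  obtain ⟨N0, H⟩ := few1 h0 h1 δ hδ0 hδ1
  refine ⟨N0, ?_⟩
  intro n hn P w D hP hD1 hD2 hw hwD
  have g1 := H n hn P w D hP hD1 hD2 hw hwD
  have g2 := H n hn P (fun T => - w T) D hP hD1 hD2 (fun T => by rw [abs_neg]; exact hw T)
    (fun T hT h => hwD T hT (fun h' => h (by rw [h', neg_zero])))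
  have hsub : (Icc (1 : ℤ) n).filter (fun l => (n : ℝ) / ((n : ℝ) ^ δ) ^ 10 <
        |∑ T ∈ P.powerset, w T * ri (QF (l ^ 2)) (∏ p ∈ T, p) n 0|) ⊆
      (Icc (1 : ℤ) n).filter (fun l => (n : ℝ) / ((n : ℝ) ^ δ) ^ 10 <
        ∑ T ∈ P.powerset, w T * ri (QF (l ^ 2)) (∏ p ∈ T, p) n 0) ∪
      (Icc (1 : ℤ) n).filter (fun l => (n : ℝ) / ((n : ℝ) ^ δ) ^ 10 <
        ∑ T ∈ P.powerset, (- w T) * ri (QF (l ^ 2)) (∏ p ∈ T, p) n 0) := by
    intro l hl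
    rw [mem_filter] at hl
    rw [mem_union, mem_filter, mem_filter]
    rcases lt_abs.1 hl.2 with h | h
    · exact Or.inl ⟨hl.1, h⟩
    · right
      refine ⟨hl.1, ?_⟩
      simp_rw [neg_mul]
      rw [sum_neg_distrib]
      exact h
  have h5 : (((Icc (1 : ℤ) n).filter (fun l => (n : ℝ) / ((n : ℝ) ^ δ) ^ 10 <
        |∑ T ∈ P.powerset, w T * ri (QF (l ^ 2)) (∏ p ∈ T, p) n 0|)).card : ℝ) ≤
      (((Icc (1 : ℤ) n).filter (fun l => (n : ℝ) / ((n : ℝ) ^ δ) ^ 10 <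
        ∑ T ∈ P.powerset, w T * ri (QF (l ^ 2)) (∏ p ∈ T, p) n 0)).card : ℝ) +
      (((Icc (1 : ℤ) n).filter (fun l => (n : ℝ) / ((n : ℝ) ^ δ) ^ 10 <
        ∑ T ∈ P.powerset, (- w T) * ri (QF (l ^ 2)) (∏ p ∈ T, p) n 0)).card : ℝ) := by
    exact_mod_cast (card_le_card hsub).trans (card_union_le _ _)
  linarith

end Pool.Agent.U529.FD
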