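import Pool.Agent.Y781.JR.Dens
import Pool.Agent.Y882.SI.Quad
import Pool.Agent.Y882.JR.Fin

/-! The local densities of `m ^ 2 + l ^ 2`, uniformly in `l`. -/

set_option autoImplicit false

namespace Pool.Agent.U529.FD

open Finset Polynomial Filter Topology
open Pool.Agent.W23.DC
open Pool.Agent.Y882.PX
open Pool.Agent.Y882.SI
open Pool.Agent.Y882.JR
open Pool.Agent.Y882
open Pool.Agent.Y781.JR

theorem jac_l (l : ℤ) (p : ℕ) (hp : p.Prime) :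
    jacobiSym (-(l ^ 2)) p = if (p : ℤ) ∣ l then 0 else jacobiSym (-1) p := by
  have h1 : -(l ^ 2) = (-1) * (l * l) := by ring
  rw [h1, jacobiSym.mul_left, jacobiSym.mul_left]
  split_ifs with h
  · have h2 : jacobiSym l p = 0 := by
      apply (jacobiSym.eq_zero_iff (b := p)).2
      refine ⟨hp.ne_zero, ?_⟩
      intro h3
      have h4 : (p : ℤ) ∣ 1 := by
        have h5 : (p : ℤ) ∣ ((l.gcd p : ℕ) : ℤ) := Int.dvd_coe_gcd h dvd_rfl
        rw [h3] at h5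
        exact_mod_cast h5
      have h6 : p ∣ 1 := by exact_mod_cast h4
      exact hp.one_lt.ne' (Nat.dvd_one.1 h6)
    rw [h2]
    ring
  · have h2 : jacobiSym l p ^ 2 = 1 := by
      apply jacobiSym.sq_one
      rw [← Int.isCoprime_iff_gcd_eq_one]
      exact ((Nat.prime_iff_prime_int.1 hp).coprime_iff_not_dvd.2 h).symm
    have h3 : jacobiSym l p * jacobiSym l p = 1 := by rw [← sq]; exact h2
    rw [h3, mul_one]

theorem ro_diff (l : ℤ) (p : ℕ) (hp : p.Prime) :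
    |(ro (QF (l ^ 2)) 0 p : ℝ) - ro (QF 1) 0 p| ≤ if (p : ℤ) ∣ l then 1 else 0 := by
  by_cases h2 : p = 2
  · subst h2
    rw [ro_quad_two, ro_quad_two]
    split_ifs <;> simp
  · have h3 := ro_quad (l ^ 2) p hp h2
    have h4 := ro_quad 1 p hp h2
    rw [jac_l l p hp] at h3
    have h3' : (ro (QF (l ^ 2)) 0 p : ℝ) = 1 + ((if (p : ℤ) ∣ l then 0 else jacobiSym (-1) p : ℤ) : ℝ) := by
      exact_mod_cast h3
    have h4' : (ro (QF 1) 0 p : ℝ) = 1 + ((jacobiSym (-1) p : ℤ) : ℝ) := by exact_mod_cast h4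
    rw [h3', h4']
    split_ifs with h
    · rcases jacobiSym.trichotomy (-1) p with h5 | h5 | h5 <;> rw [h5] <;> norm_num
    · simp

/-- few large prime divisors -/
theorem card_big (S : Finset ℕ) (l : ℤ) (z X : ℝ) (hz : 1 ≤ z) (hl : 1 ≤ l) (hX : (l : ℝ) ≤ X)
    (hS : ∀ p ∈ S, p.Prime ∧ z ≤ p ∧ (p : ℤ) ∣ l) : z ^ S.card ≤ X := by
  obtain ⟨m, rfl⟩ := Int.eq_ofNat_of_zero_le (by omega : 0 ≤ l)
  have hm0 : 0 < m := by omega
  have h1 : ∏ p ∈ S, p ∣ m := by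
    apply Finset.prod_primes_dvd
    · intro p hp
      exact (hS p hp).1.prime
    · intro p hp
      exact_mod_cast (hS p hp).2.2
  have h2 : ((∏ p ∈ S, p : ℕ) : ℝ) ≤ m := by exact_mod_cast Nat.le_of_dvd hm0 h1
  have h3 : z ^ S.card ≤ ((∏ p ∈ S, p : ℕ) : ℝ) := by
    push_cast
    rw [← prod_const]
    exact prod_le_prod (fun _ _ => by linarith) (fun p hp => (hS p hp).2.1)
  have h4 : ((m : ℕ) : ℝ) ≤ X := by exact_mod_cast hX
  linarith

/-- **Mertens' theorem for `m ^ 2 + l ^ 2`, uniformly in `l`.** -/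
theorem mer_l (ε₁ υ η : ℝ) (hε : 0 < ε₁) (hυ : υ ≤ 1) (hη : 0 < η) : ∃ Y0 : ℕ, ∀ Y : ℕ, Y0 ≤ Y →
    ∀ l : ℤ, 1 ≤ l → (l : ℝ) ≤ Y →
      Mer (pr Y ε₁ υ) (tt Y) (fun p => (ro (QF (l ^ 2)) 0 p : ℝ) / p) ε₁ υ η := by
  classical
  have hns : ¬ IsSquare (-(1 : ℤ)) := by
    rintro ⟨r, hr⟩
    nlinarith [mul_self_nonneg r]
  obtain ⟨Y1, H1⟩ := mer_quad 1 hns ε₁ υ (η / 2) hε hυ (by linarith)
  have ev1 : ∀ᶠ Y : ℕ in atTop, 2 / (ε₁ * η) + 1 ≤ (Y : ℝ) ^ ε₁ :=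
    ((tendsto_rpow_atTop hε).comp tendsto_natCast_atTop_atTop).eventually_ge_atTop _
  obtain ⟨Y2, H2⟩ := eventually_atTop.1 (ev1.and (eventually_ge_atTop 3))
  refine ⟨max Y1 Y2, ?_⟩
  intro Y hY l hl hlY a b ha hab hb
  obtain ⟨e1, e3⟩ := H2 Y ((le_max_right _ _).trans hY)
  have h1 := H1 Y ((le_max_left _ _).trans hY) a b ha hab hb
  have hYr : (3 : ℝ) ≤ Y := by exact_mod_cast e3
  have hY0 : (0 : ℝ) < Y := by linarith
  set z : ℝ := (Y : ℝ) ^ ε₁ with hz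
  have hz1 : 1 ≤ z := by
    have : 0 < 2 / (ε₁ * η) := by positivity
    linarith
  have hz0 : 0 < z := by linarith
  set P := (pr Y ε₁ υ).filter (fun p => a ≤ tt Y p ∧ tt Y p < b) with hP
  have hPp : ∀ p ∈ P, p.Prime ∧ z ≤ p := by
    intro p hp
    rw [hP, mem_filter] at hp
    unfold pr at hp
    rw [mem_filter] at hp
    refine ⟨hp.1.2.1, ?_⟩
    by_contra hc
    push Not at hc
    exact absurd ((tt_lt Y p ε₁ (by omega) hp.1.2.1.pos).2 hc) (not_lt.2 hp.1.2.2.1)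
  have h2 : |∑ p ∈ P, (ro (QF (l ^ 2)) 0 p : ℝ) / p - ∑ p ∈ P, (ro (QF 1) 0 p : ℝ) / p| ≤ η / 2 := by
    rw [← sum_sub_distrib]
    refine (abs_sum_le_sum_abs _ _).trans ?_
    have h3 : ∀ p ∈ P, |(ro (QF (l ^ 2)) 0 p : ℝ) / p - (ro (QF 1) 0 p : ℝ) / p| ≤
        if (p : ℤ) ∣ l then 1 / z else 0 := by
      intro p hp
      obtain ⟨hp1, hp2⟩ := hPp p hp
      have hp0 : (0 : ℝ) < p := by linarith
      rw [← sub_div, abs_div, abs_of_pos hp0]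
      have h4 := ro_diff l p hp1
      split_ifs at h4 ⊢ with h5
      · exact div_le_div₀ zero_le_one h4 hz0 hp2
      · have : |(ro (QF (l ^ 2)) 0 p : ℝ) - ro (QF 1) 0 p| = 0 := le_antisymm h4 (abs_nonneg _)
        rw [this]
        simp
    refine (sum_le_sum h3).trans ?_
    rw [← sum_filter, sum_const, nsmul_eq_mul]
    have h6 := card_big (P.filter (fun p => (p : ℤ) ∣ l)) l z Y hz1 hl hlY (by
      intro p hp
      rw [mem_filter] at hp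
      exact ⟨(hPp p hp.1).1, (hPp p hp.1).2, hp.2⟩)
    set k : ℕ := (P.filter (fun p : ℕ => (p : ℤ) ∣ l)).card with hk
    have h7 : (k : ℝ) * ε₁ ≤ 1 := by
      by_contra hc
      push Not at hc
      have h8 : (Y : ℝ) ^ (1 : ℝ) < (Y : ℝ) ^ ((k : ℝ) * ε₁) := Real.rpow_lt_rpow_of_exponent_lt (by linarith) hc
      have h9 : z ^ k = (Y : ℝ) ^ ((k : ℝ) * ε₁) := by
        rw [hz, ← Real.rpow_natCast, ← Real.rpow_mul hY0.le, mul_comm]
      rw [Real.rpow_one, ← h9] at h8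
      linarith
    have h8 : 2 / (ε₁ * η) ≤ z := by linarith
    rw [div_le_iff₀ (by positivity)] at h8
    rw [mul_one_div, div_le_iff₀ hz0]
    have h9 : (k : ℝ) * ε₁ ≤ (η / 2 * z) * ε₁ := by
      calc (k : ℝ) * ε₁ ≤ 1 := h7
        _ ≤ (η / 2 * z) * ε₁ := by linarith
    exact le_of_mul_le_mul_right h9 hε
  have h3 : ∑ p ∈ P, (ro (QF (l ^ 2)) 0 p : ℝ) / p - Real.log (b / a) =
      (∑ p ∈ P, (ro (QF (l ^ 2)) 0 p : ℝ) / p - ∑ p ∈ P, (ro (QF 1) 0 p : ℝ) / p) +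
      (∑ p ∈ P, (ro (QF 1) 0 p : ℝ) / p - Real.log (b / a)) := by ring
  have h4 : |∑ p ∈ P, (ro (QF 1) 0 p : ℝ) / p - Real.log (b / a)| ≤ η / 2 := h1
  calc |∑ p ∈ P, (ro (QF (l ^ 2)) 0 p : ℝ) / p - Real.log (b / a)| = _ := by rw [h3]
    _ ≤ _ := abs_add_le _ _
    _ ≤ η := by linarith

/-- a factor -/
noncomputable def fc (p : ℕ) : ℝ := 1 - ((ZMod.χ₄ (p : ZMod 4) : ℤ) : ℝ) / ((p : ℝ) - 1)

theorem RR_l (l : ℤ) (N : ℕ) : RR (l ^ 2) N =
    ∏ p ∈ (range N).filter (fun p : ℕ => (p.Prime ∧ p ≠ 2) ∧ ¬ (p : ℤ) ∣ l), fc p := by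
  unfold RR fc
  have h0 : (range N).filter (fun p : ℕ => (p.Prime ∧ p ≠ 2) ∧ ¬ (p : ℤ) ∣ l) =
      ((range N).filter (fun p : ℕ => p.Prime ∧ p ≠ 2)).filter (fun p : ℕ => ¬ (p : ℤ) ∣ l) := by
    rw [filter_filter]
  rw [h0, prod_filter (s := (range N).filter (fun p : ℕ => p.Prime ∧ p ≠ 2))]
  apply prod_congr rfl
  intro p hp
  rw [mem_filter] at hp
  rw [jac_l l p hp.2.1]
  by_cases h : (p : ℤ) ∣ l
  · rw [if_pos h, if_neg (not_not.2 h)]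
    simp
  · rw [if_neg h, if_pos h, jacobiSym.at_neg_one (hp.2.1.odd_of_ne_two hp.2.2)]

theorem fc_bd (p : ℕ) (hp : p.Prime) (h2 : p ≠ 2) : 1 - 1 / ((p : ℝ) - 1) ≤ fc p ∧ fc p ≤ 1 + 1 / ((p : ℝ) - 1) := by
  have h3 : 3 ≤ p := by
    have := hp.two_le
    omega
  have h3r : (3 : ℝ) ≤ p := by exact_mod_cast h3
  unfold fc
  have h4 : 0 < 1 / ((p : ℝ) - 1) := by
    apply div_pos one_pos
    linarith
  have h5 := jacobiSym.at_neg_one (hp.odd_of_ne_two h2)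
  rw [← h5]
  rcases jacobiSym.trichotomy (-1) p with h | h | h <;> rw [h]
  · push_cast
    rw [zero_div]
    constructor <;> linarith
  · push_cast
    constructor <;> linarith
  · constructor
    · push_cast
      have : (-1 : ℝ) / ((p : ℝ) - 1) = -(1 / ((p : ℝ) - 1)) := by ring
      rw [this]
      linarith
    · push_cast
      have : (-1 : ℝ) / ((p : ℝ) - 1) = -(1 / ((p : ℝ) - 1)) := by ring
      rw [this]
      linarith

theorem fc_pos (p : ℕ) (hp : p.Prime) (h2 : p ≠ 2) : 0 < fc p := by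
  have h3 : 3 ≤ p := by
    have := hp.two_le
    omega
  have h3r : (3 : ℝ) ≤ p := by exact_mod_cast h3
  refine lt_of_lt_of_le ?_ (fc_bd p hp h2).1
  rw [sub_pos, div_lt_one (by linarith)]
  linarith

theorem RR_l_pos (l : ℤ) (N : ℕ) : 0 < RR (l ^ 2) N := by
  rw [RR_l]
  apply prod_pos
  intro p hp
  rw [mem_filter] at hp
  exact fc_pos p hp.2.1.1 hp.2.1.2

theorem one_not_dvd (p : ℕ) (hp : p.Prime) : ¬ (p : ℤ) ∣ 1 := by
  intro h
  have h6 : p ∣ 1 := by exact_mod_cast h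
  exact hp.one_lt.ne' (Nat.dvd_one.1 h6)

/-- comparison with `l = 1` -/
theorem RR_cmp (l : ℤ) (N M : ℕ) (hNM : N ≤ M) :
    RR (l ^ 2) M * (∏ p ∈ (Ico N M).filter (fun p : ℕ => (p.Prime ∧ p ≠ 2) ∧ (p : ℤ) ∣ l), fc p) * RR (1 ^ 2) N =
      RR (l ^ 2) N * RR (1 ^ 2) M := by
  have hsplit : ∀ c : ℤ, RR (c ^ 2) M = RR (c ^ 2) N *
      ∏ p ∈ (Ico N M).filter (fun p : ℕ => (p.Prime ∧ p ≠ 2) ∧ ¬ (p : ℤ) ∣ c), fc p := by
    intro c
    rw [RR_l, RR_l]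
    have h1 : range M = range N ∪ Ico N M := by
      ext x
      simp only [mem_range, mem_union, mem_Ico]
      omega
    rw [h1, filter_union, prod_union]
    apply disjoint_filter_filter
    rw [disjoint_left]
    intro x hx hx'
    rw [mem_range] at hx
    rw [mem_Ico] at hx'
    omega
  rw [hsplit l, hsplit 1]
  have h2 : ∏ p ∈ (Ico N M).filter (fun p : ℕ => (p.Prime ∧ p ≠ 2) ∧ ¬ (p : ℤ) ∣ 1), fc p =
      (∏ p ∈ (Ico N M).filter (fun p : ℕ => (p.Prime ∧ p ≠ 2) ∧ ¬ (p : ℤ) ∣ l), fc p) *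
      ∏ p ∈ (Ico N M).filter (fun p : ℕ => (p.Prime ∧ p ≠ 2) ∧ (p : ℤ) ∣ l), fc p := by
    have h3 : (Ico N M).filter (fun p : ℕ => (p.Prime ∧ p ≠ 2) ∧ ¬ (p : ℤ) ∣ 1) =
        (Ico N M).filter (fun p : ℕ => p.Prime ∧ p ≠ 2) := by
      apply filter_congr
      intro p _
      constructor
      · exact fun h => h.1
      · exact fun h => ⟨h, one_not_dvd p h.1⟩
    rw [h3, ← prod_filter_not_mul_prod_filter ((Ico N M).filter (fun p : ℕ => p.Prime ∧ p ≠ 2))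
      (fun p : ℕ => (p : ℤ) ∣ l), filter_filter, filter_filter]
  rw [h2]
  ring

end Pool.Agent.U529.FD
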