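import Pool.Agent.U529.FD.Eng
import Pool.Agent.W366.DC.SFX
import Pool.Agent.Y445.JRB.Buch
import Pool.Agent.Y882.JR.Lim

/-! Primes and almost primes `m ^ 2 + l ^ 2`, `m ≤ n`, for all but few `l ≤ n`. -/

set_option autoImplicit false

namespace Pool.Agent.U529.FD

open Finset Polynomial Filter Topology
open Pool.Agent.W23.DC
open Pool.Agent.Y882.PX
open Pool.Agent.Y882.SI
open Pool.Agent.Y882.JR
open Pool.Agent.Y882
open Pool.Agent.Y781.JR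

/-- the number of the `m ≤ N` for which `m ^ 2 + l ^ 2` is a prime -/
def pv (l N : ℕ) : ℕ := ((Icc 1 N).filter (fun m : ℕ => (m ^ 2 + l ^ 2).Prime)).card

open Classical in
/-- the number of the `m ≤ N` for which `m ^ 2 + l ^ 2` has no prime factor below `z` -/
noncomputable def rv (l N : ℕ) (z : ℝ) : ℕ :=
  ((Icc 1 N).filter (fun m : ℕ => ∀ p : ℕ, p.Prime → p ∣ m ^ 2 + l ^ 2 → z ≤ p)).card

theorem rough_eq (l n : ℕ) (z : ℝ) : rough ((l : ℤ) ^ 2) z 0 n = rv l n z := by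
  classical
  unfold rough rv
  congr 1
  ext m
  rw [mem_filter, mem_filter, mem_Ioc, mem_Icc]
  have h : ∀ p : ℕ, (p : ℤ) ∣ (m : ℤ) ^ 2 + (l : ℤ) ^ 2 ↔ p ∣ m ^ 2 + l ^ 2 := by
    intro p
    have : (m : ℤ) ^ 2 + (l : ℤ) ^ 2 = ((m ^ 2 + l ^ 2 : ℕ) : ℤ) := by push_cast; ring
    rw [this, Int.natCast_dvd_natCast]
  constructor
  · rintro ⟨h1, h2⟩
    exact ⟨⟨by omega, by omega⟩, fun p hp hd => h2 p hp ((h p).2 hd)⟩
  · rintro ⟨h1, h2⟩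
    exact ⟨⟨by omega, by omega⟩, fun p hp hd => h2 p hp ((h p).1 hd)⟩

theorem pv_le (l n : ℕ) (z : ℝ) : (pv l n : ℝ) ≤ rv l n z + Real.sqrt z := by
  classical
  have hsub : (Icc 1 n).filter (fun m : ℕ => (m ^ 2 + l ^ 2).Prime) ⊆
      (Icc 1 n).filter (fun m : ℕ => ∀ p : ℕ, p.Prime → p ∣ m ^ 2 + l ^ 2 → z ≤ p) ∪ Icc 1 ⌊Real.sqrt z⌋₊ := by
    intro m hm
    rw [mem_filter, mem_Icc] at hm
    rw [mem_union]
    by_cases hz : z ≤ (m : ℝ) ^ 2 + (l : ℝ) ^ 2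
    · left
      rw [mem_filter, mem_Icc]
      refine ⟨hm.1, fun p hp hd => ?_⟩
      rw [(Nat.prime_dvd_prime_iff_eq hp hm.2).1 hd]
      push_cast
      exact hz
    · right
      rw [mem_Icc]
      refine ⟨hm.1.1, ?_⟩
      apply Nat.le_floor
      apply Real.le_sqrt_of_sq_le
      push Not at hz
      have : 0 ≤ (l : ℝ) ^ 2 := by positivity
      linarith
  have h1 : (pv l n : ℝ) ≤ (rv l n z : ℝ) + ((Icc 1 ⌊Real.sqrt z⌋₊).card : ℝ) := by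
    rw [← Nat.cast_add]
    exact Nat.cast_le.2 ((card_le_card hsub).trans (card_union_le _ _))
  refine h1.trans (add_le_add le_rfl ?_)
  rw [Nat.card_Icc, Nat.add_sub_cancel]
  exact Nat.floor_le (Real.sqrt_nonneg _)

theorem GG_lim (u : ℝ) (hu : 0 < u) : Tendsto (fun n : ℕ => GG ⌈(n : ℝ) ^ u⌉₊ * Real.log n) atTop
    (𝓝 (Real.exp (-Real.eulerMascheroniConstant) / u)) := by
  have h1 := real_version (fun N => GG (N + 1)) (fun N => (GG_pos _).le) (fun N => GG_le _) _ GG_mertens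
  have h2 := (h1.comp ((tendsto_rpow_atTop hu).comp tendsto_natCast_atTop_atTop)).div_const u
  refine h2.congr' ?_
  filter_upwards [eventually_gt_atTop 0] with n hn
  have hn0 : (0 : ℝ) < n := by exact_mod_cast hn
  have hc : 0 < ⌈(n : ℝ) ^ u⌉₊ := Nat.ceil_pos.2 (by positivity)
  simp only [Function.comp]
  rw [Nat.sub_add_cancel hc, Real.log_rpow hn0]
  field_simp

/-- the sieve density -/
theorem vv_bd (u θ : ℝ) (hu : 0 < u) (hu2 : u ≤ 2) (hθ : 0 < θ) : ∃ N0 : ℕ, ∀ n Y : ℕ, N0 ≤ n → Y = n ^ 2 →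
    ∀ (l : ℤ) (C : ℝ), 1 ≤ l → l ≤ n → Tendsto (RR (l ^ 2)) atTop (𝓝 C) → 0 ≤ C →
      (1 - θ) * C * GG ⌈(n : ℝ) ^ u⌉₊ ≤ vv (QF (l ^ 2)) Y (u / 2) ∧
      vv (QF (l ^ 2)) Y (u / 2) ≤ (1 + θ) * C * GG ⌈(n : ℝ) ^ u⌉₊ := by
  set K : ℕ := ⌈1 / u⌉₊ with hK
  have hKu : 1 ≤ u * K := by
    have := Nat.le_ceil (1 / u)
    rw [← hK, div_le_iff₀ hu] at this
    linarith
  obtain ⟨N1, H⟩ := ratio K θ hθ
  have ev : ∀ᶠ n : ℕ in atTop, (N1 : ℝ) ≤ (n : ℝ) ^ u :=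
    ((tendsto_rpow_atTop hu).comp tendsto_natCast_atTop_atTop).eventually_ge_atTop _
  obtain ⟨N2, HN⟩ := eventually_atTop.1 (ev.and (eventually_ge_atTop 2))
  refine ⟨N2, ?_⟩
  intro n Y hn hY l C hl hln hC hC0
  obtain ⟨e1, e2⟩ := HN n hn
  have hnr : (2 : ℝ) ≤ n := by exact_mod_cast e2
  have hn0 : (0 : ℝ) < n := by linarith
  have hYr : (Y : ℝ) = (n : ℝ) ^ 2 := by
    rw [hY]
    push_cast
    ring
  have hY2 : 2 ≤ Y := by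
    have : (2 : ℝ) ≤ Y := by
      rw [hYr]
      nlinarith
    exact_mod_cast this
  have hpow : (Y : ℝ) ^ (u / 2) = (n : ℝ) ^ u := by
    rw [hYr, ← Real.rpow_natCast, ← Real.rpow_mul hn0.le]
    congr 1
    push_cast
    ring
  rw [vv_eq (l ^ 2) Y hY2 (u / 2) (by linarith), hpow, dens_eq]
  have hG := GG_pos ⌈(n : ℝ) ^ u⌉₊
  have hce : (n : ℝ) ^ u ≤ (⌈(n : ℝ) ^ u⌉₊ : ℝ) := Nat.le_ceil _
  have h2 := H ⌈(n : ℝ) ^ u⌉₊ (by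
    have : (N1 : ℝ) ≤ (⌈(n : ℝ) ^ u⌉₊ : ℝ) := e1.trans hce
    exact_mod_cast this) l C hl (by
    calc (l : ℝ) ≤ n := by exact_mod_cast hln
      _ = (n : ℝ) ^ (1 : ℝ) := (Real.rpow_one _).symm
      _ ≤ (n : ℝ) ^ (u * K) := Real.rpow_le_rpow_of_exponent_le (by linarith) hKu
      _ = ((n : ℝ) ^ u) ^ K := by rw [Real.rpow_mul hn0.le, Real.rpow_natCast]
      _ ≤ (⌈(n : ℝ) ^ u⌉₊ : ℝ) ^ K := pow_le_pow_left₀ (by positivity) hce K) hC hC0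
  constructor
  · calc (1 - θ) * C * GG ⌈(n : ℝ) ^ u⌉₊ ≤ RR (l ^ 2) ⌈(n : ℝ) ^ u⌉₊ * GG ⌈(n : ℝ) ^ u⌉₊ :=
        mul_le_mul_of_nonneg_right h2.1 hG.le
      _ = _ := mul_comm _ _
  · calc GG ⌈(n : ℝ) ^ u⌉₊ * RR (l ^ 2) ⌈(n : ℝ) ^ u⌉₊ = RR (l ^ 2) ⌈(n : ℝ) ^ u⌉₊ * GG ⌈(n : ℝ) ^ u⌉₊ :=
        mul_comm _ _
      _ ≤ _ := mul_le_mul_of_nonneg_right h2.2 hG.le

theorem rgh_rv (l n Y : ℕ) (u : ℝ) (hu2 : u ≤ 2) (hn : 2 ≤ n) (hY : Y = n ^ 2) :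
    rgh (QF ((l : ℤ) ^ 2)) Y (u / 2) n 0 = (rv l n ((n : ℝ) ^ u) : ℝ) := by
  have hnr : (2 : ℝ) ≤ n := by exact_mod_cast hn
  have hn0 : (0 : ℝ) < n := by linarith
  have hYr : (Y : ℝ) = (n : ℝ) ^ 2 := by
    rw [hY]
    push_cast
    ring
  have hY2 : 2 ≤ Y := by
    have : (2 : ℝ) ≤ Y := by
      rw [hYr]
      nlinarith
    exact_mod_cast this
  have hpow : (Y : ℝ) ^ (u / 2) = (n : ℝ) ^ u := by
    rw [hYr, ← Real.rpow_natCast, ← Real.rpow_mul hn0.le]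
    congr 1
    push_cast
    ring
  rw [rgh_eq ((l : ℤ) ^ 2) Y hY2 (u / 2) (by linarith), hpow, rough_eq]

end Pool.Agent.U529.FD
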