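import Pool.Agent.U529.FD.Bound
import Pool.Agent.N458.GN.TI

/-! The linear sums over the roots of `ν ^ 2 = -1` for the indicator function of a sparse set. -/

set_option autoImplicit false

namespace Pool.Agent.U529.FD

open Finset
open Pool.Agent.N782.GN
open Pool.Agent.N458.GN

/-- the Gaussian integers `a = g a₀`, `a₀` primitive, with `g N(a₀) ≤ D` -/
noncomputable def AA (D : ℝ) : Finset ZI := (bl (D ^ 2)).filter (fun a => nz a ≤ ct a * D)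

/-- the multiples of `g` in `E`, divided by `g` -/
def qE (E : Finset ℤ) (g : ℕ) : Finset ℤ := (E.filter (fun l => (g : ℤ) ∣ l)).image (fun l => l / (g : ℤ))

theorem qE_card (E : Finset ℤ) (g : ℕ) : (qE E g).card ≤ (E.filter (fun l => (g : ℤ) ∣ l)).card :=
  card_image_le

theorem mem_qE {E : Finset ℤ} {g : ℕ} (hg : 1 ≤ g) {l : ℤ} (h : l ∈ qE E g) : (g : ℤ) * l ∈ E := by
  unfold qE at h
  rw [mem_image] at h
  obtain ⟨l', h1, rfl⟩ := h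
  rw [mem_filter] at h1
  rw [Int.mul_ediv_cancel' h1.2]
  exact h1.1

/-- the sum for `a = g a₀` -/
theorem sum_scale' (a0 : ZI) (g : ℕ) (hg : 1 ≤ g) (h1 : ct a0 = 1) (M : ℝ) (E : Finset ℤ) :
    ∑ l ∈ E, (nm M (((g : ℕ) : ZI) * a0) l - 2 * M * (kap l (((g : ℕ) : ZI) * a0) /
      nz (((g : ℕ) : ZI) * a0))) = ∑ l ∈ qE E g, (nm (M / g) a0 l - 2 * (M / g) / nz a0) := by
  classical
  have hg0 : (0 : ℝ) < g := by exact_mod_cast hg
  have hz : ∀ l ∈ E, ¬ (g : ℤ) ∣ l → (nm M (((g : ℕ) : ZI) * a0) l - 2 * M *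
      (kap l (((g : ℕ) : ZI) * a0) / nz (((g : ℕ) : ZI) * a0))) = 0 := by
    intro l _ hl
    rw [nm_zero a0 g M l hl]
    unfold kap
    rw [ct_scale a0 g h1, if_neg hl]
    simp
  rw [← sum_filter_add_sum_filter_not E (fun l : ℤ => (g : ℤ) ∣ l)]
  rw [sum_eq_zero (s := E.filter (fun l : ℤ => ¬ (g : ℤ) ∣ l))
    (fun l hl => hz l (mem_filter.mp hl).1 (mem_filter.mp hl).2), add_zero]
  unfold qE
  rw [sum_image]
  · apply sum_congr rfl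
    intro l hl
    obtain ⟨_, j, rfl⟩ := mem_filter.mp hl
    rw [Int.mul_ediv_cancel_left _ (by omega : (g : ℤ) ≠ 0), nm_scale a0 g hg M j]
    unfold kap
    rw [ct_scale a0 g h1, if_pos (dvd_mul_right _ _), nz_scale]
    congr 1
    field_simp
  · intro a ha b hb hab
    have ha' := (mem_filter.mp ha).2
    have hb' := (mem_filter.mp hb).2
    have h2 : a / (g : ℤ) = b / (g : ℤ) := hab
    rw [← Int.mul_ediv_cancel' ha', ← Int.mul_ediv_cancel' hb', h2]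

theorem harmonic (n : ℕ) : ∑ g ∈ Icc 1 n, 1 / (g : ℝ) ≤ 1 + Real.log n := by
  have h := harmonic_le_one_add_log n
  rw [harmonic_eq_sum_Icc] at h
  push_cast at h
  simpa [one_div] using h

theorem fin_sum (A I : ℕ) (C X w : ℝ) (eg : ℕ → ℝ) :
    ∑ p ∈ Icc 1 A ×ˢ range I, C * (1 / (p.1 : ℝ) * X + eg p.1 * w) =
      C * I * (X * ∑ g ∈ Icc 1 A, 1 / (g : ℝ) + w * ∑ g ∈ Icc 1 A, eg g) := by
  rw [sum_product, mul_sum, mul_sum, ← sum_add_distrib, mul_sum]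
  apply sum_congr rfl
  intro g _
  have h : ∑ y ∈ range I, C * (1 / ((g, y).1 : ℝ) * X + eg (g, y).1 * w) =
      ∑ _y ∈ range I, C * (1 / (g : ℝ) * X + eg g * w) := rfl
  rw [h, sum_const, card_range, nsmul_eq_mul]
  ring

theorem fin_alg (C c1 c2 Cd v s e M : ℝ) (hv : 0 < v) (hC : 0 ≤ C) (h1 : 0 ≤ c1) (h2 : 0 ≤ c2) (hCd : 0 ≤ Cd)
    (hs : 0 ≤ s) (he : 0 ≤ e) (hM : 0 ≤ M) :
    C * (c1 * v) * ((v ^ 54 * s + e * (M / v ^ 20)) * (c2 * v) + v ^ 3 * (Cd * v ^ 2 * e)) ≤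
      C * c1 * (c2 + Cd) * (v ^ 56 * s + e * (M / v ^ 18 + v ^ 6)) := by
  have h8 : C * (c1 * v) * ((v ^ 54 * s + e * (M / v ^ 20)) * (c2 * v) + v ^ 3 * (Cd * v ^ 2 * e)) =
      C * c1 * (c2 * (v ^ 56 * s + e * (M / v ^ 18)) + Cd * (e * v ^ 6)) := by
    field_simp
  rw [h8]
  have h9 : 0 ≤ C * c1 := mul_nonneg hC h1
  have h10 : C * c1 * (c2 + Cd) * (v ^ 56 * s + e * (M / v ^ 18 + v ^ 6)) -
      C * c1 * (c2 * (v ^ 56 * s + e * (M / v ^ 18)) + Cd * (e * v ^ 6)) =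
      C * c1 * (c2 * (e * v ^ 6) + Cd * (v ^ 56 * s + e * (M / v ^ 18))) := by ring
  have h11 : 0 ≤ C * c1 * (c2 * (e * v ^ 6) + Cd * (v ^ 56 * s + e * (M / v ^ 18))) := by positivity
  linarith

theorem sum_eg (Cd δ : ℝ) (hδ0 : 0 < δ) (hCd : 0 < Cd)
    (hdv : ∀ a : ZI, a ≠ 0 → (dv a : ℝ) ≤ Cd * (nz a) ^ δ) (M D : ℝ) (hM : 2 ≤ M) (E : Finset ℤ)
    (hE : ∀ l ∈ E, 1 ≤ l ∧ (l : ℝ) ≤ M) :
    ∑ g ∈ Icc 1 ⌊D⌋₊, (((E.filter (fun l => (g : ℤ) ∣ l)).card : ℕ) : ℝ) ≤ Cd * (M ^ δ) ^ 2 * E.card := by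
  classical
  have hM0 : 0 < M := by linarith
  have h3 : ∑ g ∈ Icc 1 ⌊D⌋₊, (((E.filter (fun l => (g : ℤ) ∣ l)).card : ℕ) : ℝ) =
      ∑ l ∈ E, (((Icc 1 ⌊D⌋₊).filter (fun g : ℕ => (g : ℤ) ∣ l)).card : ℝ) := by
    simp only [card_filter]
    push_cast
    exact sum_comm
  rw [h3]
  calc ∑ l ∈ E, (((Icc 1 ⌊D⌋₊).filter (fun g : ℕ => (g : ℤ) ∣ l)).card : ℝ) ≤ ∑ l ∈ E, Cd * (M ^ δ) ^ 2 := by
        apply sum_le_sum
        intro l hl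
        have h4 := hE l hl
        have h5 := card_div δ Cd hδ0 hdv hCd ⌊D⌋₊ l (by omega) M (by
          rw [abs_of_nonneg (by exact_mod_cast (by omega : (0 : ℤ) ≤ l))]
          exact h4.2)
        have h7 : (((Icc 1 ⌊D⌋₊).filter (fun g : ℕ => (g : ℤ) ∣ l)).card : ℝ) ≤
            (((Icc (1 : ℤ) (⌊D⌋₊ : ℤ)).filter (fun l' => l' ∣ l)).card : ℝ) := by
          have : ((Icc 1 ⌊D⌋₊).filter (fun g : ℕ => (g : ℤ) ∣ l)).card ≤
              ((Icc (1 : ℤ) (⌊D⌋₊ : ℤ)).filter (fun l' => l' ∣ l)).card := by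
            apply card_le_card_of_injOn (fun g : ℕ => (g : ℤ))
            · intro g hg
              simp only [coe_filter, Set.mem_ofPred_eq, mem_Icc] at hg ⊢
              exact ⟨⟨by exact_mod_cast hg.1.1, by exact_mod_cast hg.1.2⟩, hg.2⟩
            · intro a _ b _ hab
              simp only at hab
              exact_mod_cast hab
          exact_mod_cast this
        refine h7.trans (h5.trans (le_of_eq ?_))
        congr 1
        rw [← Real.rpow_natCast, ← Real.rpow_natCast, ← Real.rpow_mul hM0.le, ← Real.rpow_mul hM0.le]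
        congr 1
        ring
    _ = _ := by
        rw [sum_const, nsmul_eq_mul]
        ring

theorem hfac_of {D : ℝ} {a : ZI} (ha : a ∈ AA D) : a ≠ 0 ∧ nz a = (ct a : ℝ) ^ 2 * nz (pr a) ∧ (1 : ℝ) ≤ ct a ∧
    1 ≤ nz (pr a) ∧ ct a * nz (pr a) ≤ D := by
  unfold AA at ha
  rw [mem_filter, mem_bl] at ha
  have ha0 : a ≠ 0 := ha.1.1
  have ha1 : nz a ≤ ct a * D := ha.2
  obtain ⟨e1, e2, e3⟩ := pr_spec ha0
  have f1 : nz a = (ct a : ℝ) ^ 2 * nz (pr a) := by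
    conv_lhs => rw [e1]
    rw [nz_scale]
  have f2 : (1 : ℝ) ≤ ct a := by exact_mod_cast ct_pos ha0
  refine ⟨ha0, f1, f2, ?_, ?_⟩
  · have := norm_pos_int e3
    unfold nz
    exact_mod_cast this
  · rw [f1] at ha1
    have f3 : (0 : ℝ) < ct a := by linarith
    have f4 : (ct a : ℝ) * (ct a * nz (pr a)) ≤ ct a * D := by
      calc (ct a : ℝ) * (ct a * nz (pr a)) = (ct a : ℝ) ^ 2 * nz (pr a) := by ring
        _ ≤ _ := ha1
    exact le_of_mul_le_mul_left f4 f3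

theorem hnzn (a : ZI) : nz a = (((Zsqrtd.norm a).natAbs : ℕ) : ℝ) := by
  have h2 : 0 ≤ Zsqrtd.norm a := by
    have h3 := nz_nonneg a
    unfold nz at h3
    exact_mod_cast h3
  unfold nz
  rw [Nat.cast_natAbs, abs_of_nonneg h2]

theorem card_qE_real (E : Finset ℤ) (g : ℕ) :
    ((qE E g).card : ℝ) ≤ (((E.filter (fun l => (g : ℤ) ∣ l)).card : ℕ) : ℝ) := by
  exact_mod_cast qE_card E g

theorem card_qE_real2 (E : Finset ℤ) (g : ℕ) : ((qE E g).card : ℝ) ≤ (E.card : ℝ) :=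
  (card_qE_real E g).trans (by exact_mod_cast card_filter_le _ _)

theorem fib_alg (v M g t D s e eg : ℝ) (hv : 0 < v) (hM : 0 < M) (hg : 0 < g) (hs : 0 ≤ s)
    (ht : 0 ≤ t) (hse : s ≤ e) (hsg : s ≤ eg) (hgD : g * t ≤ D) :
    v ^ 54 * Real.sqrt (t * (M / g) * s) + s * (M / g / v ^ 20 + v ^ 3) ≤
      1 / g * (v ^ 54 * Real.sqrt (D * M * e) + e * (M / v ^ 20)) + eg * v ^ 3 := by
  have he : 0 ≤ e := hs.trans hse
  have hD : 0 ≤ D := (mul_nonneg hg.le ht).trans hgD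
  have k1 : Real.sqrt (t * (M / g) * s) ≤ 1 / g * Real.sqrt (D * M * e) := by
    apply Real.sqrt_le_iff.mpr
    refine ⟨by positivity, ?_⟩
    have k2 : (1 / g * Real.sqrt (D * M * e)) ^ 2 = (D * M * e) / g ^ 2 := by
      rw [mul_pow, Real.sq_sqrt (by positivity)]
      field_simp
    rw [k2, le_div_iff₀ (by positivity)]
    calc t * (M / g) * s * g ^ 2 = (g * t) * M * s := by
          field_simp
      _ ≤ D * M * e := by gcongr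
  have k3 : s * (M / g / v ^ 20 + v ^ 3) ≤ 1 / g * (e * (M / v ^ 20)) + eg * v ^ 3 := by
    calc s * (M / g / v ^ 20 + v ^ 3) = s * (M / g / v ^ 20) + s * v ^ 3 := by ring
      _ ≤ e * (M / g / v ^ 20) + eg * v ^ 3 := by gcongr
      _ = _ := by
        congr 1
        field_simp
  calc v ^ 54 * Real.sqrt (t * (M / g) * s) + s * (M / g / v ^ 20 + v ^ 3) ≤
      v ^ 54 * (1 / g * Real.sqrt (D * M * e)) + (1 / g * (e * (M / v ^ 20)) + eg * v ^ 3) := by gcongr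
    _ = _ := by ring

/-- the pair `(ct a, dyadic size of the primitive part)` -/
noncomputable def ph (a : ZI) : ℕ × ℕ := (ct a, Nat.log 2 (Zsqrtd.norm (pr a)).natAbs)

theorem hlow_of {D : ℝ} {a : ZI} {g i : ℕ} (ha : a ∈ (AA D).filter (fun a => ph a = (g, i))) :
    (2 : ℝ) ^ i ≤ nz (pr a) ∧ nz (pr a) ≤ 2 * (2 : ℝ) ^ i ∧ ct a = g := by
  rw [mem_filter] at ha
  obtain ⟨ha2, ha3⟩ := ha
  obtain ⟨e0, e1, e2, e3, e4⟩ := hfac_of ha2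
  have h4 : ct a = g := congrArg Prod.fst ha3
  have h5 : Nat.log 2 (Zsqrtd.norm (pr a)).natAbs = i := congrArg Prod.snd ha3
  rw [hnzn] at e3 ⊢
  have h6 : (Zsqrtd.norm (pr a)).natAbs ≠ 0 := by
    intro h
    rw [h] at e3
    norm_num at e3
  refine ⟨?_, ?_, h4⟩
  · have := Nat.pow_log_le_self 2 h6
    rw [h5] at this
    exact_mod_cast this
  · have := Nat.lt_pow_succ_log_self (b := 2) (by norm_num) (Zsqrtd.norm (pr a)).natAbs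
    rw [h5, Nat.succ_eq_add_one, pow_succ, mul_comm] at this
    exact_mod_cast this.le

/-- the sum over the `a` of given content and size -/
theorem fib_reduce (M D : ℝ) (E : Finset ℤ) (g i : ℕ) (hg1 : 1 ≤ g) :
    ∑ a ∈ (AA D).filter (fun a => ph a = (g, i)), |∑ l ∈ E, (nm M a l - 2 * M * (kap l a / nz a))| ≤
      ∑ a ∈ Ab (2 ^ i), |∑ l ∈ qE E g, (nm (M / g) a l - 2 * (M / g) / nz a)| := by
  classical
  set G : ZI → ℝ := fun a => |∑ l ∈ qE E g, (nm (M / g) a l - 2 * (M / g) / nz a)| with hG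
  have hFG : ∀ a ∈ (AA D).filter (fun a => ph a = (g, i)),
      |∑ l ∈ E, (nm M a l - 2 * M * (kap l a / nz a))| = G (pr a) := by
    intro a ha
    obtain ⟨_, _, e3⟩ := hlow_of ha
    have ha0 : a ≠ 0 := (hfac_of (mem_filter.mp ha).1).1
    obtain ⟨f1, f2, _⟩ := pr_spec ha0
    rw [e3] at f1
    have h7 := sum_scale' (pr a) g hg1 f2 M E
    rw [← f1] at h7
    rw [h7]
  have hinj : Set.InjOn pr ((AA D).filter (fun a => ph a = (g, i)) : Set ZI) := by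
    intro a ha b hb' hab
    have ha' : a ∈ (AA D).filter (fun a => ph a = (g, i)) := ha
    have hb'' : b ∈ (AA D).filter (fun a => ph a = (g, i)) := hb'
    have ha0 : a ≠ 0 := (hfac_of (mem_filter.mp ha').1).1
    have hb0 : b ≠ 0 := (hfac_of (mem_filter.mp hb'').1).1
    rw [(pr_spec ha0).1, (pr_spec hb0).1, (hlow_of ha').2.2, (hlow_of hb'').2.2, hab]
  rw [sum_congr rfl hFG, ← sum_image (f := G) hinj]
  apply sum_le_sum_of_subset_of_nonneg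
  · intro b hb'
    rw [mem_image] at hb'
    obtain ⟨a, ha, rfl⟩ := hb'
    obtain ⟨e1, e2, e3⟩ := hlow_of ha
    have ha0 : a ≠ 0 := (hfac_of (mem_filter.mp ha).1).1
    obtain ⟨f1, f2, f3⟩ := pr_spec ha0
    unfold Pool.Agent.N458.GN.Ab
    rw [mem_filter, mem_bl]
    exact ⟨⟨f3, e2⟩, f2, e1⟩
  · intro b _ _
    exact abs_nonneg _

theorem fib' (C δ : ℝ) (hC : 0 < C)
    (hb : ∀ (M D : ℝ) (g : ℕ) (S : Finset ℤ),
      2 ≤ M → 1 ≤ D → 1 ≤ g → D ≤ M ^ 2 → (∀ l ∈ S, 1 ≤ l ∧ (l : ℝ) ≤ M / g) →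
      ∑ a ∈ Ab D, |∑ l ∈ S, (nm (M / g) a l - 2 * (M / g) / nz a)| ≤
        C * ((M ^ δ) ^ 54 * Real.sqrt (D * (M / g) * S.card) +
          S.card * ((M / g) / (M ^ δ) ^ 20 + (M ^ δ) ^ 3)))
    (M D : ℝ) (E : Finset ℤ) (hM : 2 ≤ M) (hDM : D ≤ M ^ 2) (hE : ∀ l ∈ E, 1 ≤ l ∧ (l : ℝ) ≤ M)
    (g i : ℕ) (hg1 : 1 ≤ g) :
    ∑ a ∈ (AA D).filter (fun a => ph a = (g, i)), |∑ l ∈ E, (nm M a l - 2 * M * (kap l a / nz a))| ≤
      C * (1 / (g : ℝ) * ((M ^ δ) ^ 54 * Real.sqrt (D * M * E.card) + E.card * (M / (M ^ δ) ^ 20)) +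
        (((E.filter (fun l => (g : ℤ) ∣ l)).card : ℕ) : ℝ) * (M ^ δ) ^ 3) := by
  classical
  have hM0 : 0 < M := by linarith
  have hv : 0 < M ^ δ := Real.rpow_pos_of_pos hM0 _
  have hgr : (1 : ℝ) ≤ g := by exact_mod_cast hg1
  have hg0 : (0 : ℝ) < g := by linarith
  by_cases hemp : ((AA D).filter (fun a => ph a = (g, i))) = ∅
  · rw [hemp, sum_empty]
    positivity
  · obtain ⟨a1, ha1⟩ := nonempty_iff_ne_empty.mpr hemp
    have hgD : (g : ℝ) * 2 ^ i ≤ D := by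
      obtain ⟨e1, e2, e3⟩ := hlow_of ha1
      have e4 := (mem_filter.mp ha1).1
      obtain ⟨f0, f1, f2, f3, f4⟩ := hfac_of e4
      rw [e3] at f4
      calc (g : ℝ) * 2 ^ i ≤ (g : ℝ) * nz (pr a1) := by gcongr
        _ ≤ D := f4
    have h2i : (2 : ℝ) ^ i ≤ D := by
      calc (2 : ℝ) ^ i = 1 * 2 ^ i := (one_mul _).symm
        _ ≤ g * 2 ^ i := by gcongr
        _ ≤ D := hgD
    have hqE : ∀ l ∈ qE E g, 1 ≤ l ∧ (l : ℝ) ≤ M / g := by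
      intro l hl
      have h3 := hE _ (mem_qE hg1 hl)
      constructor
      · by_contra hcon
        push Not at hcon
        have h4 : (1 : ℤ) ≤ g := by exact_mod_cast hg1
        nlinarith [h3.1]
      · rw [le_div_iff₀ hg0]
        have h4 := h3.2
        push_cast at h4
        linarith
    have hbb := hb M (2 ^ i) g (qE E g) hM (one_le_pow₀ (by norm_num)) hg1 (h2i.trans hDM) hqE
    refine (fib_reduce M D E g i hg1).trans (hbb.trans (mul_le_mul_of_nonneg_left ?_ hC.le))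
    exact fib_alg (M ^ δ) M g (2 ^ i) D (qE E g).card E.card _ hv hM0 hg0 (Nat.cast_nonneg _)
      (by positivity) (card_qE_real2 E g) (card_qE_real E g) hgD

theorem fin_comb (S1 S2 I C c1 c2 Cd v s e M : ℝ) (hv : 0 < v) (hC : 0 ≤ C) (h1 : 0 ≤ c1)
    (h2 : 0 ≤ c2) (hCd : 0 ≤ Cd) (hs : 0 ≤ s) (he : 0 ≤ e) (hM : 0 ≤ M) (hS1 : S1 ≤ c2 * v)
    (hS2 : S2 ≤ Cd * v ^ 2 * e) (hI : I ≤ c1 * v) (p1 : 0 ≤ S1) (p2 : 0 ≤ S2) :
    C * I * ((v ^ 54 * s + e * (M / v ^ 20)) * S1 + v ^ 3 * S2) ≤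
      C * c1 * (c2 + Cd) * (v ^ 56 * s + e * (M / v ^ 18 + v ^ 6)) := by
  have hX0 : 0 ≤ v ^ 54 * s + e * (M / v ^ 20) := by positivity
  have k1 := mul_le_mul_of_nonneg_left hS1 hX0
  have k2 : v ^ 3 * S2 ≤ v ^ 3 * (Cd * v ^ 2 * e) := mul_le_mul_of_nonneg_left hS2 (by positivity)
  have k3 : 0 ≤ (v ^ 54 * s + e * (M / v ^ 20)) * S1 + v ^ 3 * S2 := by positivity
  exact (mul_le_mul (mul_le_mul_of_nonneg_left hI hC) (add_le_add k1 k2) k3 (by positivity)).trans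
    (fin_alg C c1 c2 Cd v s e M hv hC h1 h2 hCd hs he hM)

theorem maps_ph {D : ℝ} {a : ZI} (ha : a ∈ AA D) :
    ph a ∈ Icc 1 ⌊D⌋₊ ×ˢ range (Nat.log 2 ⌊D⌋₊ + 1) := by
  obtain ⟨e0, e1, e2, e3, e4⟩ := hfac_of ha
  rw [mem_product, mem_Icc, mem_range]
  refine ⟨⟨by exact_mod_cast e2, ?_⟩, ?_⟩
  · show ct a ≤ ⌊D⌋₊
    apply Nat.le_floor
    calc (ct a : ℝ) = ct a * 1 := (mul_one _).symm
      _ ≤ ct a * nz (pr a) := by
        apply mul_le_mul_of_nonneg_left e3 (by linarith)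
      _ ≤ D := e4
  · show Nat.log 2 (Zsqrtd.norm (pr a)).natAbs < Nat.log 2 ⌊D⌋₊ + 1
    rw [Nat.lt_succ_iff]
    apply Nat.log_mono_right
    apply Nat.le_floor
    rw [← hnzn]
    calc nz (pr a) = 1 * nz (pr a) := (one_mul _).symm
      _ ≤ (ct a : ℝ) * nz (pr a) := by
        apply mul_le_mul_of_nonneg_right e2 (by linarith)
      _ ≤ D := e4

theorem I_le (δ M D : ℝ) (hδ0 : 0 < δ) (hM : 2 ≤ M) (hD : 1 ≤ D) (hDM : D ≤ M ^ 2) :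
    ((Nat.log 2 ⌊D⌋₊ + 1 : ℕ) : ℝ) ≤ (4 / δ + 1) * M ^ δ := by
  have hM0 : 0 < M := by linarith
  have hv1 : 1 ≤ M ^ δ := Real.one_le_rpow (by linarith) hδ0.le
  have hfl : 1 ≤ ⌊D⌋₊ := Nat.one_le_floor_iff _ |>.mpr hD
  have h6 : (⌊D⌋₊ : ℝ) ≤ D := Nat.floor_le (by linarith)
  have hlogM : Real.log M ≤ M ^ δ / δ := Real.log_le_rpow_div hM0.le hδ0
  have h2 : (Nat.log 2 ⌊D⌋₊ : ℝ) ≤ 4 / δ * M ^ δ := by
    have h3 : ((2 : ℝ) ^ (Nat.log 2 ⌊D⌋₊)) ≤ M ^ 2 := by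
      have h4 := Nat.pow_log_le_self 2 (by omega : ⌊D⌋₊ ≠ 0)
      have h5 : ((2 : ℝ) ^ (Nat.log 2 ⌊D⌋₊)) ≤ (⌊D⌋₊ : ℝ) := by exact_mod_cast h4
      linarith
    have h7 : (Nat.log 2 ⌊D⌋₊ : ℝ) * Real.log 2 ≤ 2 * Real.log M := by
      have := Real.log_le_log (by positivity) h3
      rw [Real.log_pow, Real.log_pow] at this
      exact_mod_cast this
    have h9 : (1 : ℝ) / 2 ≤ Real.log 2 := by
      have := Real.log_two_gt_d9
      linarith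
    have h10 : (0 : ℝ) ≤ (Nat.log 2 ⌊D⌋₊ : ℝ) := Nat.cast_nonneg _
    have h11 : (Nat.log 2 ⌊D⌋₊ : ℝ) * (1 / 2) ≤ (Nat.log 2 ⌊D⌋₊ : ℝ) * Real.log 2 :=
      mul_le_mul_of_nonneg_left h9 h10
    have h12 : 4 / δ * M ^ δ = 4 * (M ^ δ / δ) := by ring
    linarith
  push_cast
  calc (Nat.log 2 ⌊D⌋₊ : ℝ) + 1 ≤ 4 / δ * M ^ δ + M ^ δ := add_le_add h2 hv1
    _ = (4 / δ + 1) * M ^ δ := by ring

theorem har_le (δ M D : ℝ) (hδ0 : 0 < δ) (hM : 2 ≤ M) (hD : 1 ≤ D) (hDM : D ≤ M ^ 2) :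
    ∑ g ∈ Icc 1 ⌊D⌋₊, 1 / (g : ℝ) ≤ (1 + 2 / δ) * M ^ δ := by
  have hM0 : 0 < M := by linarith
  have hv1 : 1 ≤ M ^ δ := Real.one_le_rpow (by linarith) hδ0.le
  have hfl : 1 ≤ ⌊D⌋₊ := Nat.one_le_floor_iff _ |>.mpr hD
  have h6 : (⌊D⌋₊ : ℝ) ≤ D := Nat.floor_le (by linarith)
  have hlogM : Real.log M ≤ M ^ δ / δ := Real.log_le_rpow_div hM0.le hδ0
  refine (harmonic ⌊D⌋₊).trans ?_
  have h3 : Real.log (⌊D⌋₊ : ℝ) ≤ 2 * Real.log M := by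
    have h4 : Real.log (⌊D⌋₊ : ℝ) ≤ Real.log (M ^ 2) :=
      Real.log_le_log (by exact_mod_cast hfl) (h6.trans hDM)
    rwa [Real.log_pow, Nat.cast_ofNat] at h4
  calc 1 + Real.log (⌊D⌋₊ : ℝ) ≤ M ^ δ + 2 * (M ^ δ / δ) := by linarith
    _ = _ := by ring

theorem ti' (h0 : S_DVB) (h1 : S_RLS) (δ : ℝ) (hδ0 : 0 < δ) (hδ1 : δ ≤ 1 / 100) : ∃ C : ℝ, 0 < C ∧
    ∀ (M D : ℝ) (E : Finset ℤ), 2 ≤ M → 1 ≤ D → D ≤ M ^ 2 → (∀ l ∈ E, 1 ≤ l ∧ (l : ℝ) ≤ M) →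
      ∑ a ∈ AA D, |∑ l ∈ E, (nm M a l - 2 * M * (kap l a / nz a))| ≤
        C * ((M ^ δ) ^ 56 * Real.sqrt (D * M * E.card) + E.card * (M / (M ^ δ) ^ 18 + (M ^ δ) ^ 6)) := by
  classical
  obtain ⟨hroot, CR, hCR, hR⟩ := h1
  obtain ⟨C, hC, hb⟩ := blockbound' h0 CR hCR hR hroot δ hδ0 hδ1
  obtain ⟨Cd, hCd, hdv⟩ := h0 δ hδ0
  refine ⟨C * (4 / δ + 1) * (1 + 2 / δ + Cd), by positivity, ?_⟩
  intro M D E hM hD hDM hE
  have hM0 : 0 < M := by linarith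
  have hvpos : 0 < M ^ δ := Real.rpow_pos_of_pos hM0 _
  rw [← sum_fiberwise_of_maps_to (fun a ha => maps_ph ha)]
  have hfib : ∀ p ∈ Icc 1 ⌊D⌋₊ ×ˢ range (Nat.log 2 ⌊D⌋₊ + 1),
      ∑ a ∈ (AA D).filter (fun a => ph a = p), |∑ l ∈ E, (nm M a l - 2 * M * (kap l a / nz a))| ≤
      C * (1 / (p.1 : ℝ) * ((M ^ δ) ^ 54 * Real.sqrt (D * M * E.card) + E.card * (M / (M ^ δ) ^ 20)) +
        (((E.filter (fun l => (p.1 : ℤ) ∣ l)).card : ℕ) : ℝ) * (M ^ δ) ^ 3) := by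
    intro p hp
    rw [mem_product, mem_Icc] at hp
    obtain ⟨g, i⟩ := p
    exact fib' C δ hC hb M D E hM hDM hE g i hp.1.1
  refine (sum_le_sum hfib).trans ?_
  rw [fin_sum ⌊D⌋₊ (Nat.log 2 ⌊D⌋₊ + 1) C _ _
    (fun g => (((E.filter (fun l => (g : ℤ) ∣ l)).card : ℕ) : ℝ))]
  exact fin_comb _ _ _ C (4 / δ + 1) (1 + 2 / δ) Cd (M ^ δ) (Real.sqrt (D * M * E.card)) E.card M hvpos hC.le
    (by positivity) (by positivity) hCd.le (Real.sqrt_nonneg _) (Nat.cast_nonneg _) hM0.le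
    (har_le δ M D hδ0 hM hD hDM) (sum_eg Cd δ hδ0 hCd hdv M D hM E hE) (I_le δ M D hδ0 hM hD hDM)
    (sum_nonneg (fun g _ => by positivity)) (sum_nonneg (fun g _ => Nat.cast_nonneg _))

end Pool.Agent.U529.FD
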