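import Pool.Agent.U529.FD.Expand
import Pool.Agent.U529.FD.TI
import Pool.Agent.Y882.SI.Quad

/-! The error terms of the sieve for `m ^ 2 + l ^ 2` summed over a sparse set of `l`: reduction to the Gaussian integers. -/

set_option autoImplicit false

namespace Pool.Agent.U529.FD

open Finset Polynomial
open Pool.Agent.N782.GN
open Pool.Agent.N458.GN
open Pool.Agent.Y882.PX
open Pool.Agent.Y882.SI

theorem sum_symm (f : ℤ → ℝ) (hf : ∀ m, f (-m) = f m) (n : ℕ) :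
    ∑ m ∈ Icc (-(n : ℤ)) (n : ℤ), f m = f 0 + 2 * ∑ j ∈ Icc 1 n, f ((j : ℕ) : ℤ) := by
  induction n with
  | zero => simp
  | succ n ih =>
    have h1 : Icc (-((n + 1 : ℕ) : ℤ)) ((n + 1 : ℕ) : ℤ) =
        insert (-((n + 1 : ℕ) : ℤ)) (insert ((n + 1 : ℕ) : ℤ) (Icc (-(n : ℤ)) (n : ℤ))) := by
      ext m
      simp only [mem_Icc, mem_insert]
      push_cast
      constructor
      · intro h
        by_cases h2 : m = -((n : ℤ) + 1)
        · exact Or.inl h2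
        · by_cases h3 : m = (n : ℤ) + 1
          · exact Or.inr (Or.inl h3)
          · right; right; omega
      · rintro (h | h | h) <;> omega
    rw [h1, sum_insert, sum_insert, ih, hf, sum_Icc_succ_top (by omega)]
    · ring
    · rw [mem_Icc]; push_cast; omega
    · rw [mem_insert, mem_Icc]; push_cast; omega

theorem norm_mk (l m : ℤ) : Zsqrtd.norm (⟨l, m⟩ : ZI) = m ^ 2 + l ^ 2 := by
  rw [Zsqrtd.norm_def]
  simp only
  ring

theorem nm_dvi (n : ℕ) (a : ZI) (l : ℤ) : nm n a l = ∑ m ∈ Icc (-(n : ℤ)) (n : ℤ), dvi a ⟨l, m⟩ := by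
  classical
  unfold nm dvi
  rw [card_filter]
  push_cast
  have h1 : ⌈-(n : ℝ)⌉ = -(n : ℤ) := by
    rw [Int.ceil_neg, Int.floor_natCast]
  have h2 : ⌊(n : ℝ)⌋ = (n : ℤ) := Int.floor_natCast n
  rw [h1, h2]

/-- the count over the whole interval -/
theorem nm_sum {q : ℕ} {ι : Type} [Fintype ι] (a : ι → ZI) (σ : ι → ℝ)
    (h : ∀ z : ZI, (if (q : ℤ) ∣ Zsqrtd.norm z then (1 : ℝ) else 0) = ∑ i, σ i * dvi (a i) z)
    (n : ℕ) (l : ℤ) :
    ∑ i, σ i * nm n (a i) l = 2 * (ci (QF (l ^ 2)) q n 0 : ℝ) + (if (q : ℤ) ∣ l ^ 2 then 1 else 0) := by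
  have h1 : ∑ i, σ i * nm n (a i) l =
      ∑ m ∈ Icc (-(n : ℤ)) (n : ℤ), (if (q : ℤ) ∣ m ^ 2 + l ^ 2 then (1 : ℝ) else 0) := by
    simp_rw [nm_dvi, mul_sum]
    rw [sum_comm]
    apply sum_congr rfl
    intro m _
    rw [← h, norm_mk]
  rw [h1, sum_symm _ (fun m => by rw [neg_sq])]
  have h2 : (ci (QF (l ^ 2)) q n 0 : ℝ) =
      ∑ j ∈ Icc 1 n, (if (q : ℤ) ∣ ((j : ℕ) : ℤ) ^ 2 + l ^ 2 then (1 : ℝ) else 0) := by
    unfold ci
    rw [card_filter]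
    push_cast
    apply sum_congr rfl
    intro j _
    rw [QF_eval]
    simp
  rw [h2]
  norm_num
  ring

/-- the trivial bound -/
theorem nm_tr (hroot : ∀ a : ZI, ct a = 1 → ∀ l m : ℤ, a ∣ (⟨l, m⟩ : ZI) ↔ Zsqrtd.norm a ∣ m - nu a * l)
    (a : ZI) (ha : a ≠ 0) (M : ℝ) (hM : 0 ≤ M) (l : ℤ) : |nm M a l - 2 * M * (kap l a / nz a)| ≤ 1 := by
  obtain ⟨e1, e2, e3⟩ := pr_spec ha
  have hg := ct_pos ha
  have h := sum_scale' (pr a) (ct a) hg e2 M {l}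
  rw [← e1, sum_singleton] at h
  rw [h]
  have hc : (qE {l} (ct a)).card ≤ 1 := by
    refine (qE_card _ _).trans ((card_filter_le _ _).trans ?_)
    simp
  refine (abs_sum_le_sum_abs _ _).trans ?_
  have hg0 : (0 : ℝ) < ct a := by exact_mod_cast hg
  refine (sum_le_sum (fun l' _ => nm_triv e3 (hroot (pr a) e2) (by positivity : 0 ≤ M / ct a) l')).trans ?_
  rw [sum_const, nsmul_eq_mul, mul_one]
  exact_mod_cast hc

theorem ci_period (F : ℤ[X]) (q k : ℕ) : ci F q (q * k) 0 = k * ro F 0 q := by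
  have hper : Function.Periodic (fun n : ℕ => (q : ℤ) ∣ F.eval ((n : ℕ) : ℤ)) q := by
    intro n
    simp only [eq_iff_iff]
    apply dvd_eval_congr
    push_cast
    simp
  have h1 : ∀ j : ℕ, ((Ico (1 + q * j) (1 + q * j + q)).filter
      (fun n : ℕ => (q : ℤ) ∣ F.eval ((n : ℕ) : ℤ))).card = ro F 0 q := by
    intro j
    rw [Nat.filter_Ico_card_eq_of_periodic _ _ _ hper, ← RT_card]
    unfold RT
    rw [Nat.count_eq_card_filter_range]
  unfold ci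
  simp only [zero_add]
  induction k with
  | zero => simp
  | succ k ih =>
    have h2 : Icc 1 (q * (k + 1)) = Icc 1 (q * k) ∪ Ico (1 + q * k) (1 + q * k + q) := by
      ext m
      simp only [mem_Icc, mem_union, mem_Ico]
      have : q * (k + 1) = q * k + q := by ring
      omega
    rw [h2, filter_union, card_union_of_disjoint, ih, h1 k]
    · ring
    · apply disjoint_filter_filter
      rw [disjoint_left]
      intro m hm hm'
      rw [mem_Icc] at hm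
      rw [mem_Ico] at hm'
      omega

/-- the density -/
theorem dens_id (hroot : ∀ a : ZI, ct a = 1 → ∀ l m : ℤ, a ∣ (⟨l, m⟩ : ZI) ↔ Zsqrtd.norm a ∣ m - nu a * l)
    {q : ℕ} (hq : 0 < q) {ι : Type} [Fintype ι] (a : ι → ZI) (σ : ι → ℝ) (ha : ∀ i, a i ≠ 0)
    (hσ : ∀ i, |σ i| ≤ 1)
    (h : ∀ z : ZI, (if (q : ℤ) ∣ Zsqrtd.norm z then (1 : ℝ) else 0) = ∑ i, σ i * dvi (a i) z) (l : ℤ) :
    (ro (QF (l ^ 2)) 0 q : ℝ) / q = ∑ i, σ i * (kap l (a i) / nz (a i)) := by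
  set S : ℝ := ∑ i, σ i * (kap l (a i) / nz (a i)) with hS
  set r : ℝ := (ro (QF (l ^ 2)) 0 q : ℝ) with hr
  have hq0 : (0 : ℝ) < q := by exact_mod_cast hq
  have key : ∀ k : ℕ, |2 * (k : ℝ) * (r - q * S)| ≤ Fintype.card ι + 1 := by
    intro k
    have h1 := nm_sum a σ h (q * k) l
    rw [ci_period] at h1
    have h2 : 2 * (k : ℝ) * (r - q * S) =
        ∑ i, σ i * (nm ((q * k : ℕ) : ℝ) (a i) l - 2 * ((q * k : ℕ) : ℝ) * (kap l (a i) / nz (a i))) -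
          (if (q : ℤ) ∣ l ^ 2 then 1 else 0) := by
      simp_rw [mul_sub]
      rw [sum_sub_distrib, h1]
      have h3 : ∑ i, σ i * (2 * ((q * k : ℕ) : ℝ) * (kap l (a i) / nz (a i))) = 2 * (q * k) * S := by
        rw [hS, mul_sum]
        apply sum_congr rfl
        intro i _
        push_cast
        ring
      rw [h3]
      push_cast
      ring
    rw [h2]
    refine (abs_sub _ _).trans (add_le_add ?_ ?_)
    · refine (abs_sum_le_sum_abs _ _).trans ?_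
      have h4 : ∀ i ∈ (univ : Finset ι), |σ i * (nm ((q * k : ℕ) : ℝ) (a i) l -
          2 * ((q * k : ℕ) : ℝ) * (kap l (a i) / nz (a i)))| ≤ 1 := by
        intro i _
        rw [abs_mul]
        exact mul_le_one₀ (hσ i) (abs_nonneg _) (nm_tr hroot (a i) (ha i) _ (Nat.cast_nonneg _) l)
      refine (sum_le_sum h4).trans ?_
      simp
    · split_ifs <;> simp
  have h0 : r - q * S = 0 := by
    by_contra hne
    have hpos : 0 < |r - q * S| := abs_pos.2 hne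
    obtain ⟨k, hk⟩ := exists_nat_gt ((Fintype.card ι + 1 : ℝ) / (2 * |r - q * S|))
    have h5 := key k
    rw [abs_mul, abs_of_nonneg (by positivity : (0 : ℝ) ≤ 2 * k)] at h5
    rw [div_lt_iff₀ (by positivity)] at hk
    linarith
  rw [div_eq_iff hq0.ne']
  linarith

/-- the error term -/
theorem ri_id (hroot : ∀ a : ZI, ct a = 1 → ∀ l m : ℤ, a ∣ (⟨l, m⟩ : ZI) ↔ Zsqrtd.norm a ∣ m - nu a * l)
    {q : ℕ} (hq : 0 < q) {ι : Type} [Fintype ι] (a : ι → ZI) (σ : ι → ℝ) (ha : ∀ i, a i ≠ 0)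
    (hσ : ∀ i, |σ i| ≤ 1)
    (h : ∀ z : ZI, (if (q : ℤ) ∣ Zsqrtd.norm z then (1 : ℝ) else 0) = ∑ i, σ i * dvi (a i) z) (l : ℤ) (n : ℕ) :
    2 * ri (QF (l ^ 2)) q n 0 = ∑ i, σ i * (nm n (a i) l - 2 * n * (kap l (a i) / nz (a i))) -
      (if (q : ℤ) ∣ l ^ 2 then 1 else 0) := by
  have h1 := nm_sum a σ h n l
  have h2 := dens_id hroot hq a σ ha hσ h l
  simp_rw [mul_sub]
  rw [sum_sub_distrib, h1]
  have h3 : ∑ i, σ i * (2 * (n : ℝ) * (kap l (a i) / nz (a i))) = 2 * n * ((ro (QF (l ^ 2)) 0 q : ℝ) / q) := by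
    rw [h2, mul_sum]
    apply sum_congr rfl
    intro i _
    ring
  rw [h3]
  unfold ri
  ring

/-- the sum over the `l` for one modulus -/
theorem ri_sum (hroot : ∀ a : ZI, ct a = 1 → ∀ l m : ℤ, a ∣ (⟨l, m⟩ : ZI) ↔ Zsqrtd.norm a ∣ m - nu a * l)
    {q : ℕ} (hq : 0 < q) {ι : Type} [Fintype ι] (a : ι → ZI) (σ : ι → ℝ) (ha : ∀ i, a i ≠ 0)
    (hσ : ∀ i, |σ i| ≤ 1)
    (h : ∀ z : ZI, (if (q : ℤ) ∣ Zsqrtd.norm z then (1 : ℝ) else 0) = ∑ i, σ i * dvi (a i) z)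
    (E : Finset ℤ) (n : ℕ) :
    |∑ l ∈ E, ri (QF (l ^ 2)) q n 0| ≤
      ∑ i, |∑ l ∈ E, (nm n (a i) l - 2 * n * (kap l (a i) / nz (a i)))| +
        ∑ l ∈ E, (if (q : ℤ) ∣ l ^ 2 then (1 : ℝ) else 0) := by
  have h1 : 2 * ∑ l ∈ E, ri (QF (l ^ 2)) q n 0 =
      ∑ i, σ i * ∑ l ∈ E, (nm n (a i) l - 2 * n * (kap l (a i) / nz (a i))) -
        ∑ l ∈ E, (if (q : ℤ) ∣ l ^ 2 then (1 : ℝ) else 0) := by
    rw [mul_sum, sum_congr rfl (fun l _ => ri_id hroot hq a σ ha hσ h l n), sum_sub_distrib, sum_comm]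
    simp_rw [mul_sum]
  set A : ℝ := ∑ i, |∑ l ∈ E, (nm n (a i) l - 2 * n * (kap l (a i) / nz (a i)))| with hA
  set B : ℝ := ∑ l ∈ E, (if (q : ℤ) ∣ l ^ 2 then (1 : ℝ) else 0) with hB
  have hA0 : 0 ≤ A := sum_nonneg (fun i _ => abs_nonneg _)
  have hB0 : 0 ≤ B := sum_nonneg (fun l _ => by split_ifs <;> norm_num)
  have h2 : |∑ i, σ i * ∑ l ∈ E, (nm n (a i) l - 2 * n * (kap l (a i) / nz (a i)))| ≤ A := by
    refine (abs_sum_le_sum_abs _ _).trans (sum_le_sum (fun i _ => ?_))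
    rw [abs_mul]
    calc |σ i| * |∑ l ∈ E, (nm n (a i) l - 2 * n * (kap l (a i) / nz (a i)))| ≤
        1 * |∑ l ∈ E, (nm n (a i) l - 2 * n * (kap l (a i) / nz (a i)))| :=
          mul_le_mul_of_nonneg_right (hσ i) (abs_nonneg _)
      _ = _ := one_mul _
  have h3 := abs_le.1 h2
  rw [abs_le]
  constructor <;> linarith [h3.1, h3.2]

end Pool.Agent.U529.FD
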