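import Pool.Agent.U529.FD.Rem

/-! The error terms of the sieve for `m ^ 2 + l ^ 2`, summed over a sparse set of `l` and over the moduli. -/

set_option autoImplicit false

namespace Pool.Agent.U529.FD

open Finset Polynomial
open Pool.Agent.N782.GN
open Pool.Agent.N458.GN
open Pool.Agent.Y882.PX
open Pool.Agent.Y882.SI

/-- the number of the subsets -/
theorem two_pow_card (T : Finset ℕ) (hT : ∀ p ∈ T, p.Prime) : 2 ^ T.card ≤ (∏ p ∈ T, p).divisors.card := by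
  have hne : ∏ p ∈ T, p ≠ 0 := prod_ne_zero_iff.2 (fun p hp => (hT p hp).ne_zero)
  rw [Nat.card_divisors hne, Nat.primeFactors_prod hT]
  calc 2 ^ T.card = ∏ _p ∈ T, 2 := by rw [prod_const]
    _ ≤ _ := by
      apply prod_le_prod' 
      intro p hp
      have : 1 ≤ (∏ p ∈ T, p).factorization p := by
        rw [← (hT p hp).dvd_iff_one_le_factorization hne]
        exact dvd_prod_of_mem _ hp
      omega

theorem card_divisors_le (δ Cδ : ℝ) (hδ : 0 < δ) (hdv : ∀ z : ZI, z ≠ 0 → (dv z : ℝ) ≤ Cδ * (nz z) ^ δ)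
    (hC : 0 < Cδ) (q : ℕ) (hq : q ≠ 0) (X : ℝ) (hX : (q : ℝ) ≤ X) : (q.divisors.card : ℝ) ≤ Cδ * (X ^ 2) ^ δ := by
  have h1 := card_div δ Cδ hδ hdv hC q (q : ℤ) (by exact_mod_cast hq) X (by
    rw [Int.cast_natCast, abs_of_nonneg (Nat.cast_nonneg _)]; exact hX)
  refine le_trans ?_ h1
  have : q.divisors.card ≤ ((Icc (1 : ℤ) (q : ℤ)).filter (fun l => l ∣ (q : ℤ))).card := by
    apply card_le_card_of_injOn (fun g : ℕ => (g : ℤ))
    · intro g hg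
      have hg' : g ∈ q.divisors := hg
      rw [Nat.mem_divisors] at hg'
      simp only [coe_filter, Set.mem_ofPred_eq, mem_Icc]
      have h2 := Nat.pos_of_dvd_of_pos hg'.1 (Nat.pos_of_ne_zero hq)
      have h3 := Nat.le_of_dvd (Nat.pos_of_ne_zero hq) hg'.1
      exact ⟨⟨by exact_mod_cast h2, by exact_mod_cast h3⟩, by exact_mod_cast hg'.1⟩
    · intro a _ b _ hab
      simp only at hab
      exact_mod_cast hab
  exact_mod_cast this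

theorem three_pow (δ Cδ : ℝ) (hδ : 0 < δ) (hdv : ∀ z : ZI, z ≠ 0 → (dv z : ℝ) ≤ Cδ * (nz z) ^ (δ / 8))
    (hC : 0 < Cδ) (T : Finset ℕ) (hT : ∀ p ∈ T, p.Prime) (M : ℝ) (hM : 1 ≤ M)
    (hX : ((∏ p ∈ T, p : ℕ) : ℝ) ≤ M ^ 2) : ((3 ^ T.card : ℕ) : ℝ) ≤ Cδ ^ 2 * M ^ δ := by
  have hM0 : 0 < M := by linarith
  have hne : ∏ p ∈ T, p ≠ 0 := prod_ne_zero_iff.2 (fun p hp => (hT p hp).ne_zero)
  have h1 := card_divisors_le (δ / 8) Cδ (by linarith) hdv hC _ hne _ hX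
  have h2 : ((2 ^ T.card : ℕ) : ℝ) ≤ Cδ * ((M ^ 2) ^ 2) ^ (δ / 8) := by
    refine le_trans ?_ h1
    exact_mod_cast two_pow_card T hT
  have h3 : ((3 ^ T.card : ℕ) : ℝ) ≤ ((2 ^ T.card : ℕ) : ℝ) ^ 2 := by
    push_cast
    rw [← pow_mul, mul_comm, pow_mul]
    gcongr
    norm_num
  refine h3.trans ?_
  calc ((2 ^ T.card : ℕ) : ℝ) ^ 2 ≤ (Cδ * ((M ^ 2) ^ 2) ^ (δ / 8)) ^ 2 := by
        apply pow_le_pow_left₀ (Nat.cast_nonneg _) h2
    _ = Cδ ^ 2 * M ^ δ := by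
        rw [mul_pow]
        congr 1
        rw [← pow_mul, ← Real.rpow_natCast M, ← Real.rpow_mul hM0.le, ← Real.rpow_natCast, ← Real.rpow_mul hM0.le]
        congr 1
        push_cast
        ring

/-- the moduli are determined by the Gaussian integers -/
theorem primeFactors_norm (T : Finset ℕ) (hT : ∀ p ∈ T, p.Prime) (a : ZI) (g : ℕ) (hg : g ∣ ∏ p ∈ T, p)
    (ha : Zsqrtd.norm a = g * (∏ p ∈ T, p : ℕ)) : (Zsqrtd.norm a).natAbs.primeFactors = T := by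
  have hne : ∏ p ∈ T, p ≠ 0 := prod_ne_zero_iff.2 (fun p hp => (hT p hp).ne_zero)
  have hg0 : g ≠ 0 := by
    rintro rfl
    exact hne (Nat.eq_zero_of_zero_dvd hg)
  have h1 : (Zsqrtd.norm a).natAbs = g * ∏ p ∈ T, p := by
    rw [ha]
    have : (g : ℤ) * ((∏ p ∈ T, p : ℕ) : ℤ) = ((g * ∏ p ∈ T, p : ℕ) : ℤ) := by push_cast; ring
    rw [this, Int.natAbs_natCast]
  rw [h1, Nat.primeFactors_mul hg0 hne, Nat.primeFactors_prod hT]
  have h2 := Nat.primeFactors_mono hg hne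
  rw [Nat.primeFactors_prod hT] at h2
  exact union_eq_right.2 h2

theorem mem_AA (T : Finset ℕ) (hT : ∀ p ∈ T, p.Prime) (a : ZI) (g : ℕ) (hg : g ∣ ∏ p ∈ T, p)
    (hga : ((g : ℕ) : ZI) ∣ a) (ha : Zsqrtd.norm a = g * (∏ p ∈ T, p : ℕ)) (D : ℝ)
    (hD : ((∏ p ∈ T, p : ℕ) : ℝ) ≤ D) : a ≠ 0 ∧ a ∈ AA D := by
  have hne : ∏ p ∈ T, p ≠ 0 := prod_ne_zero_iff.2 (fun p hp => (hT p hp).ne_zero)
  have hq0 : 0 < ∏ p ∈ T, p := Nat.pos_of_ne_zero hne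
  have hg0 : 0 < g := Nat.pos_of_dvd_of_pos hg hq0
  have ha0 : a ≠ 0 := by
    rintro rfl
    rw [Zsqrtd.norm_zero] at ha
    have : (0 : ℤ) < g * (∏ p ∈ T, p : ℕ) := by positivity
    omega
  refine ⟨ha0, ?_⟩
  have hnz : nz a = g * ((∏ p ∈ T, p : ℕ) : ℝ) := by
    unfold nz
    rw [ha]
    push_cast
    ring
  have hgq : (g : ℝ) ≤ ((∏ p ∈ T, p : ℕ) : ℝ) := by exact_mod_cast Nat.le_of_dvd hq0 hg
  have hgr : (0 : ℝ) < g := by exact_mod_cast hg0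
  have hqr : (0 : ℝ) < ((∏ p ∈ T, p : ℕ) : ℝ) := by exact_mod_cast hq0
  have hct : g ≤ ct a := by
    apply Nat.le_of_dvd (ct_pos ha0)
    unfold ct
    obtain ⟨b, hb⟩ := hga
    have h1 : (g : ℤ) ∣ a.re := by
      rw [hb]
      refine ⟨b.re, ?_⟩
      simp
    have h2 : (g : ℤ) ∣ a.im := by
      rw [hb]
      refine ⟨b.im, ?_⟩
      simp
    exact Int.dvd_gcd h1 h2 |> fun h => by exact_mod_cast h
  have hctr : (g : ℝ) ≤ ct a := by exact_mod_cast hct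
  unfold AA
  rw [mem_filter, mem_bl]
  refine ⟨⟨ha0, ?_⟩, ?_⟩
  · rw [hnz]
    calc (g : ℝ) * ((∏ p ∈ T, p : ℕ) : ℝ) ≤ D * D := mul_le_mul (hgq.trans hD) hD hqr.le (by linarith)
      _ = D ^ 2 := by ring
  · rw [hnz]
    exact mul_le_mul hctr hD hqr.le (by positivity)

/-- the number of the moduli which divide `l ^ 2` -/
theorem sum_sq (δ Cδ : ℝ) (hδ : 0 < δ) (hdv : ∀ z : ZI, z ≠ 0 → (dv z : ℝ) ≤ Cδ * (nz z) ^ δ)
    (hC : 0 < Cδ) (M : ℝ) (TT : Finset (Finset ℕ)) (hTT : ∀ T ∈ TT, ∀ p ∈ T, p.Prime)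
    (l : ℤ) (hl : 1 ≤ l ∧ (l : ℝ) ≤ M) :
    ∑ T ∈ TT, (if (((∏ p ∈ T, p : ℕ) : ℕ) : ℤ) ∣ l ^ 2 then (1 : ℝ) else 0) ≤ Cδ * (M ^ 2) ^ δ := by
  classical
  obtain ⟨m, rfl⟩ := Int.eq_ofNat_of_zero_le (by omega : 0 ≤ l)
  have hm0 : m ≠ 0 := by
    rintro rfl
    norm_num at hl
  have hm1 : (m : ℝ) ≤ M := by exact_mod_cast hl.2
  refine le_trans ?_ (card_divisors_le δ Cδ hδ hdv hC m hm0 M hm1)
  rw [← sum_filter, sum_const, nsmul_eq_mul, mul_one]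
  have : (TT.filter (fun T => (((∏ p ∈ T, p : ℕ) : ℕ) : ℤ) ∣ ((m : ℕ) : ℤ) ^ 2)).card ≤ m.divisors.card := by
    apply card_le_card_of_injOn (fun T => ∏ p ∈ T, p)
    · intro T hT
      have hT' : T ∈ TT.filter (fun T => (((∏ p ∈ T, p : ℕ) : ℕ) : ℤ) ∣ ((m : ℕ) : ℤ) ^ 2) := hT
      rw [mem_filter] at hT'
      have hp := hTT T hT'.1
      have h1 : (∏ p ∈ T, p) ∣ m ^ 2 := by exact_mod_cast hT'.2
      have h2 : (∏ p ∈ T, p) ∣ m := by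
        apply Finset.prod_primes_dvd
        · intro p hpT
          exact (hp p hpT).prime
        · intro p hpT
          exact (hp p hpT).dvd_of_dvd_pow ((dvd_prod_of_mem _ hpT).trans h1)
      show ∏ p ∈ T, p ∈ (m.divisors : Set ℕ)
      rw [mem_coe, Nat.mem_divisors]
      exact ⟨h2, hm0⟩
    · intro T hT T' hT' h
      have hT1 : T ∈ TT.filter (fun T => (((∏ p ∈ T, p : ℕ) : ℕ) : ℤ) ∣ ((m : ℕ) : ℤ) ^ 2) := hT
      have hT2 : T' ∈ TT.filter (fun T => (((∏ p ∈ T, p : ℕ) : ℕ) : ℤ) ∣ ((m : ℕ) : ℤ) ^ 2) := hT'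
      rw [mem_filter] at hT1 hT2
      simp only at h
      rw [← Nat.primeFactors_prod (hTT T hT1.1), ← Nat.primeFactors_prod (hTT T' hT2.1), h]
  exact_mod_cast this

/-- **The error terms.** -/
theorem tot (h0 : S_DVB) (h1 : S_RLS) (δ : ℝ) (hδ0 : 0 < δ) (hδ1 : δ ≤ 1 / 100) : ∃ C : ℝ, 0 < C ∧
    ∀ (n : ℕ) (D : ℝ) (E : Finset ℤ) (TT : Finset (Finset ℕ)), 2 ≤ n → 1 ≤ D → D ≤ (n : ℝ) ^ 2 →
      (∀ l ∈ E, 1 ≤ l ∧ (l : ℝ) ≤ n) →
      (∀ T ∈ TT, (∀ p ∈ T, p.Prime) ∧ ((∏ p ∈ T, p : ℕ) : ℝ) ≤ D) →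
      ∑ T ∈ TT, |∑ l ∈ E, ri (QF (l ^ 2)) (∏ p ∈ T, p) n 0| ≤
        C * (((n : ℝ) ^ δ) ^ 57 * Real.sqrt (D * n * E.card) +
          E.card * (n / ((n : ℝ) ^ δ) ^ 17 + ((n : ℝ) ^ δ) ^ 7)) := by
  classical
  obtain ⟨C1, hC1, H1⟩ := ti' h0 h1 δ hδ0 hδ1
  obtain ⟨C2, hC2, H2⟩ := h0 (δ / 8) (by linarith)
  obtain ⟨hroot, -⟩ := h1
  refine ⟨C2 ^ 2 * C1 + C2, by positivity, ?_⟩
  intro n D E TT hn hD1 hD2 hE hTT
  have hnr : (2 : ℝ) ≤ n := by exact_mod_cast hn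
  have hn0 : (0 : ℝ) < n := by linarith
  set v : ℝ := (n : ℝ) ^ δ with hv
  have hv1 : 1 ≤ v := Real.one_le_rpow (by linarith) hδ0.le
  have hv0 : 0 < v := by linarith
  have hex : ∀ T : Finset ℕ, ∃ (ι : Type) (_ : Fintype ι) (a : ι → ZI) (σ : ι → ℝ), (∀ p ∈ T, p.Prime) →
      Fintype.card ι ≤ 3 ^ T.card ∧
      (∀ i, |σ i| ≤ 1 ∧ ∃ g : ℕ, g ∣ ∏ p ∈ T, p ∧ ((g : ℕ) : ZI) ∣ a i ∧
        Zsqrtd.norm (a i) = g * (∏ p ∈ T, p : ℕ)) ∧
      (∀ z : ZI, (if ((∏ p ∈ T, p : ℕ) : ℤ) ∣ Zsqrtd.norm z then (1 : ℝ) else 0) =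
        ∑ i, σ i * dvi (a i) z) := by
    intro T
    by_cases hT : ∀ p ∈ T, p.Prime
    · obtain ⟨ι, hι, a, σ, g1, g2, g3⟩ := exq T hT
      exact ⟨ι, hι, a, σ, fun _ => ⟨g1, g2, g3⟩⟩
    · exact ⟨Unit, inferInstance, fun _ => 0, fun _ => 0, fun h => absurd h hT⟩
  choose ι hι a σ hx using hex
  set X : ZI → ℝ := fun b => |∑ l ∈ E, (nm n b l - 2 * n * (kap l b / nz b))| with hX
  have hX0 : ∀ b, 0 ≤ X b := fun b => abs_nonneg _
  set K : ℝ := C2 ^ 2 * v with hK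
  have hK0 : 0 ≤ K := by positivity
  -- one modulus
  have hone : ∀ T ∈ TT, |∑ l ∈ E, ri (QF (l ^ 2)) (∏ p ∈ T, p) n 0| ≤
      K * ∑ b ∈ univ.image (a T), X b +
        ∑ l ∈ E, (if (((∏ p ∈ T, p : ℕ) : ℕ) : ℤ) ∣ l ^ 2 then (1 : ℝ) else 0) := by
    intro T hT
    obtain ⟨hTp, hTD⟩ := hTT T hT
    obtain ⟨x1, x2, x3⟩ := hx T hTp
    have hq0 : 0 < ∏ p ∈ T, p := Nat.pos_of_ne_zero (prod_ne_zero_iff.2 (fun p hp => (hTp p hp).ne_zero))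
    have ha0 : ∀ i, a T i ≠ 0 := by
      intro i
      obtain ⟨_, g, y1, y2, y3⟩ := x2 i
      exact (mem_AA T hTp (a T i) g y1 y2 y3 D hTD).1
    have h2 := ri_sum hroot hq0 (a T) (σ T) ha0 (fun i => (x2 i).1) x3 E n
    refine h2.trans (add_le_add ?_ le_rfl)
    have h3 : ∑ i, |∑ l ∈ E, (nm n (a T i) l - 2 * n * (kap l (a T i) / nz (a T i)))| = ∑ i, X (a T i) := rfl
    rw [h3, sum_comp X (a T), mul_sum]
    apply sum_le_sum
    intro b _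
    rw [nsmul_eq_mul]
    apply mul_le_mul_of_nonneg_right _ (hX0 b)
    have h4 : ((univ.filter (fun i => a T i = b)).card : ℝ) ≤ ((3 ^ T.card : ℕ) : ℝ) := by
      have : (univ.filter (fun i => a T i = b)).card ≤ 3 ^ T.card :=
        (card_filter_le _ _).trans (by rw [card_univ]; exact x1)
      exact_mod_cast this
    refine h4.trans ?_
    exact three_pow δ C2 hδ0 H2 hC2 T hTp n (by linarith) (hTD.trans hD2)
  -- all the moduli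
  have hdis : (TT : Set (Finset ℕ)).PairwiseDisjoint (fun T => univ.image (a T)) := by
    intro T hT T' hT' hne
    rw [Function.onFun, disjoint_left]
    intro b hb hb'
    rw [mem_image] at hb hb'
    obtain ⟨i, _, hi⟩ := hb
    obtain ⟨i', _, hi'⟩ := hb'
    apply hne
    have hTp := (hTT T hT).1
    have hTp' := (hTT T' hT').1
    obtain ⟨_, g, y1, y2, y3⟩ := (hx T hTp).2.1 i
    obtain ⟨_, g', y1', y2', y3'⟩ := (hx T' hTp').2.1 i'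
    rw [← primeFactors_norm T hTp (a T i) g y1 y3, ← primeFactors_norm T' hTp' (a T' i') g' y1' y3', hi, hi']
  have hsub : TT.biUnion (fun T => univ.image (a T)) ⊆ AA D := by
    intro b hb
    rw [mem_biUnion] at hb
    obtain ⟨T, hT, hb⟩ := hb
    rw [mem_image] at hb
    obtain ⟨i, _, rfl⟩ := hb
    obtain ⟨hTp, hTD⟩ := hTT T hT
    obtain ⟨_, g, y1, y2, y3⟩ := (hx T hTp).2.1 i
    exact (mem_AA T hTp (a T i) g y1 y2 y3 D hTD).2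
  have hmain : ∑ T ∈ TT, ∑ b ∈ univ.image (a T), X b ≤
      C1 * (v ^ 56 * Real.sqrt (D * n * E.card) + E.card * (n / v ^ 18 + v ^ 6)) := by
    rw [← sum_biUnion hdis]
    exact (sum_le_sum_of_subset_of_nonneg hsub (fun b _ _ => hX0 b)).trans (H1 n D E hnr hD1 hD2 hE)
  have hsq : ∑ T ∈ TT, ∑ l ∈ E, (if (((∏ p ∈ T, p : ℕ) : ℕ) : ℤ) ∣ l ^ 2 then (1 : ℝ) else 0) ≤
      E.card * (C2 * v) := by
    rw [sum_comm]
    have h5 : ∀ l ∈ E, ∑ T ∈ TT, (if (((∏ p ∈ T, p : ℕ) : ℕ) : ℤ) ∣ l ^ 2 then (1 : ℝ) else 0) ≤ C2 * v := by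
      intro l hl
      refine (sum_sq (δ / 8) C2 (by linarith) H2 hC2 n TT (fun T hT => (hTT T hT).1) l (hE l hl)).trans ?_
      apply mul_le_mul_of_nonneg_left _ hC2.le
      rw [hv, ← Real.rpow_natCast, ← Real.rpow_mul hn0.le]
      apply Real.rpow_le_rpow_of_exponent_le (by linarith)
      push_cast
      linarith
    refine (sum_le_sum h5).trans ?_
    rw [sum_const, nsmul_eq_mul]
  have he0 : (0 : ℝ) ≤ E.card := Nat.cast_nonneg _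
  have hs0 : 0 ≤ Real.sqrt (D * n * E.card) := Real.sqrt_nonneg _
  calc ∑ T ∈ TT, |∑ l ∈ E, ri (QF (l ^ 2)) (∏ p ∈ T, p) n 0| ≤
      ∑ T ∈ TT, (K * ∑ b ∈ univ.image (a T), X b +
        ∑ l ∈ E, (if (((∏ p ∈ T, p : ℕ) : ℕ) : ℤ) ∣ l ^ 2 then (1 : ℝ) else 0)) := sum_le_sum hone
    _ = K * ∑ T ∈ TT, ∑ b ∈ univ.image (a T), X b +
        ∑ T ∈ TT, ∑ l ∈ E, (if (((∏ p ∈ T, p : ℕ) : ℕ) : ℤ) ∣ l ^ 2 then (1 : ℝ) else 0) := by
        rw [sum_add_distrib, mul_sum]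
    _ ≤ K * (C1 * (v ^ 56 * Real.sqrt (D * n * E.card) + E.card * (n / v ^ 18 + v ^ 6))) +
        E.card * (C2 * v) := add_le_add (mul_le_mul_of_nonneg_left hmain hK0) hsq
    _ = C2 ^ 2 * C1 * (v ^ 57 * Real.sqrt (D * n * E.card) + E.card * (n / v ^ 17 + v ^ 7)) +
        C2 * (E.card * v) := by
        rw [hK]
        field_simp
    _ ≤ C2 ^ 2 * C1 * (v ^ 57 * Real.sqrt (D * n * E.card) + E.card * (n / v ^ 17 + v ^ 7)) +
        C2 * (v ^ 57 * Real.sqrt (D * n * E.card) + E.card * (n / v ^ 17 + v ^ 7)) := by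
        apply add_le_add le_rfl
        apply mul_le_mul_of_nonneg_left _ hC2.le
        have h6 : v ≤ v ^ 7 := by
          calc v = v ^ 1 := (pow_one v).symm
            _ ≤ v ^ 7 := pow_le_pow_right₀ hv1 (by norm_num)
        have h7 : (E.card : ℝ) * v ≤ E.card * (n / v ^ 17 + v ^ 7) := by
          apply mul_le_mul_of_nonneg_left _ he0
          have : 0 ≤ (n : ℝ) / v ^ 17 := by positivity
          linarith
        have h8 : 0 ≤ v ^ 57 * Real.sqrt (D * n * E.card) := by positivity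
        linarith
    _ = _ := by ring

end Pool.Agent.U529.FD
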